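import Pool.Agent.Helper819.Desc

/-!
Preparations: points over extensions with trivial stabiliser, equivariance of the infinitesimal
action.
-/

open MvPolynomial

namespace Pool.Agent.TH170.SL

open Pool.Agent.Helper819.Apolar Pool.Agent.Helper819.Dyn

noncomputable section

set_option linter.unusedSectionVars false

variable {k : Type} [Field k] {N d : ℕ}

/-- Only scalar matrices fix `c`. -/
def Triv (c : Ix N d → k) : Prop :=
  ∀ A : Matrix (Fin (N + 1)) (Fin (N + 1)) k, A.det ≠ 0 → actT A c = c → ∃ t : k, A = t • 1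

/-- base change of a coefficient vector -/
abbrev bc (K : Type) [Field K] [Algebra k K] (c : Ix N d → k) : Ix N d → K :=
  fun p => algebraMap k K (c p)

theorem aeval_orb_K {K : Type} [Field K] [Algebra k K] (c : Ix N d → k)
    (M : Matrix (Fin (N + 1)) (Fin (N + 1)) K) (p : Ix N d) :
    aeval (ent M) (orb c p) = actT M (bc K c) p := aeval_orb_S c M p

theorem scalar_of_entries {K : Type} [Field K] (A : Matrix (Fin (N + 1)) (Fin (N + 1)) K)
    (h1 : ∀ i j, i ≠ j → A i j = 0) (h2 : ∀ i j, A i i = A j j) : A = A 0 0 • 1 := by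
  ext i j
  rw [Matrix.smul_apply, Matrix.one_apply]
  by_cases h : i = j
  · subst h
    rw [if_pos rfl, h2 i 0, smul_eq_mul, mul_one]
  · rw [if_neg h, h1 i j h, smul_zero]

/-- Triviality of the stabiliser passes to extension fields. -/
theorem triv_ext [IsAlgClosed k] {K : Type} [Field K] [Algebra k K] {c : Ix N d → k}
    (hc : Triv c) (A : Matrix (Fin (N + 1)) (Fin (N + 1)) K) (hA : A.det ≠ 0)
    (h : actT A (bc K c) = bc K c) : ∃ t : K, A = t • 1 := by
  have key : ∀ q : KA k N, aeval (ent A) q ≠ 0 →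
      ∃ A0 : Matrix (Fin (N + 1)) (Fin (N + 1)) k, A0.det ≠ 0 ∧ actT A0 c = c ∧
        eval (ent A0) q ≠ 0 := by
    intro q hq
    obtain ⟨y, hy1, hy2⟩ := exists_point (ent A) (dt (N + 1) k * q) (by
      rw [map_mul, aeval_dt_S]
      exact mul_ne_zero hA hq)
    obtain ⟨A0, rfl⟩ := ent_surj y
    rw [map_mul, eval_dt] at hy2
    refine ⟨A0, left_ne_zero_of_mul hy2, ?_, right_ne_zero_of_mul hy2⟩
    funext p
    have h1 := hy1 (orb c p - C (c p)) (by
      rw [map_sub, aeval_orb_K, h, algHom_C, sub_self])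
    rw [map_sub, eval_orb, eval_C, sub_eq_zero] at h1
    exact h1
  refine ⟨A 0 0, scalar_of_entries A ?_ ?_⟩
  · intro i j hij
    by_contra hne
    obtain ⟨A0, h1, h2, h3⟩ := key (X (i, j)) (by rw [aeval_X]; exact hne)
    obtain ⟨t, rfl⟩ := hc A0 h1 h2
    apply h3
    rw [eval_X]
    change (t • (1 : Matrix (Fin (N + 1)) (Fin (N + 1)) k)) i j = 0
    rw [Matrix.smul_apply, Matrix.one_apply_ne hij, smul_zero]
  · intro i j
    by_contra hne
    obtain ⟨A0, h1, h2, h3⟩ := key (X (i, i) - X (j, j)) (by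
      rw [map_sub, aeval_X, aeval_X]
      exact sub_ne_zero.mpr hne)
    obtain ⟨t, rfl⟩ := hc A0 h1 h2
    apply h3
    rw [map_sub, eval_X, eval_X]
    change (t • (1 : Matrix (Fin (N + 1)) (Fin (N + 1)) k)) i i -
      (t • (1 : Matrix (Fin (N + 1)) (Fin (N + 1)) k)) j j = 0
    rw [Matrix.smul_apply, Matrix.smul_apply, Matrix.one_apply_eq, Matrix.one_apply_eq, sub_self]

/-- A scalar matrix fixing a nonzero vector is a root of unity of order `N + d`. -/
theorem scalar_pow {K : Type} [Field K] {c : Ix N d → K} (hc : c ≠ 0) (t : K)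
    (h : actT (t • (1 : Matrix (Fin (N + 1)) (Fin (N + 1)) K)) c = c) : t ^ (N + d) = 1 := by
  rw [actT_scalar] at h
  obtain ⟨p, hp⟩ := Function.ne_iff.mp hc
  have h1 := congrFun h p
  rw [Pi.smul_apply, smul_eq_mul] at h1
  exact mul_right_cancel₀ hp (by rw [h1, one_mul])

theorem ne_zero_of_NZ {K : Type} [Field K] {c : Ix N d → K} (hc : NZ (tup c)) : c ≠ 0 := by
  rintro rfl
  have h1 := hc (fun _ => 1) (fun i => by
    have : (tup (0 : Ix N d → K) i) = 0 := by simp [tup]
    rw [this, map_zero])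
  exact one_ne_zero (congrFun h1 0)

/-- equivariance of the infinitesimal action over a field -/
theorem xi_actT {K : Type} [Field K] (A B : Matrix (Fin (N + 1)) (Fin (N + 1)) K)
    (hA : A.det ≠ 0) (c : Ix N d → K) :
    xi B (actT A c) = actT A (xi (A * B * A⁻¹) c) := by
  have hu : IsUnit A.det := isUnit_iff_ne_zero.mpr hA
  have he : (DualNumber.eps : DualNumber K) * DualNumber.eps = 0 := DualNumber.eps_mul_eps
  have h0 : (A.map (algebraMap K (DualNumber K))) * oneEps (DualNumber.eps : DualNumber K) B =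
      oneEps (DualNumber.eps : DualNumber K) (A * B * A⁻¹) * (A.map (algebraMap K (DualNumber K))) := by
    unfold oneEps
    rw [mul_add, add_mul, mul_one, one_mul, Matrix.mul_smul, Matrix.smul_mul]
    congr 2
    rw [← Matrix.map_mul, ← Matrix.map_mul, mul_assoc (A * B), Matrix.nonsing_inv_mul _ hu, mul_one]
  funext p
  have h1 := actT_eps (S := DualNumber K) DualNumber.eps he B (actT A c) p
  have h2 : (fun p => algebraMap K (DualNumber K) (actT A c p)) =
      actT (A.map (algebraMap K (DualNumber K))) (fun p => algebraMap K (DualNumber K) (c p)) := by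
    funext p
    exact map_actT _ A c p
  rw [h2, actT_actT, h0, ← actT_actT] at h1
  have h3 : actT (oneEps (DualNumber.eps : DualNumber K) (A * B * A⁻¹))
      (fun p => algebraMap K (DualNumber K) (c p)) =
      (fun p => algebraMap K (DualNumber K) (c p)) + (DualNumber.eps : DualNumber K) •
        (fun p => algebraMap K (DualNumber K) (xi (A * B * A⁻¹) c p)) := by
    funext p
    exact actT_eps (S := DualNumber K) DualNumber.eps he (A * B * A⁻¹) c p
  rw [h3, actT_add, actT_smul] at h1
  simp only [Pi.add_apply, Pi.smul_apply, smul_eq_mul] at h1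
  rw [← map_actT, ← map_actT] at h1
  have h4 := congrArg TrivSqZeroExt.snd h1
  rw [snd_form, snd_form] at h4
  exact h4.symm

theorem actT_zero {R : Type} [CommRing R] (A : Matrix (Fin (N + 1)) (Fin (N + 1)) R) :
    actT A (0 : Ix N d → R) = 0 := by
  have := actT_smul A (0 : R) (0 : Ix N d → R)
  simpa using this

theorem actT_inv_act {K : Type} [Field K] (A : Matrix (Fin (N + 1)) (Fin (N + 1)) K)
    (hA : A.det ≠ 0) (c : Ix N d → K) : actT A⁻¹ (actT A c) = c := by
  rw [actT_actT, Matrix.mul_nonsing_inv _ (isUnit_iff_ne_zero.mpr hA), actT_one]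

theorem actT_act_inv {K : Type} [Field K] (A : Matrix (Fin (N + 1)) (Fin (N + 1)) K)
    (hA : A.det ≠ 0) (c : Ix N d → K) : actT A (actT A⁻¹ c) = c := by
  rw [actT_actT, Matrix.nonsing_inv_mul _ (isUnit_iff_ne_zero.mpr hA), actT_one]

theorem xi_conj_zero {K : Type} [Field K] (A B : Matrix (Fin (N + 1)) (Fin (N + 1)) K)
    (hA : A.det ≠ 0) (c : Ix N d → K) (h : xi B (actT A c) = 0) :
    xi (A * B * A⁻¹) c = 0 := by
  rw [xi_actT A B hA] at h
  have h6 := congrArg (actT A⁻¹) h
  rwa [actT_inv_act A hA, actT_zero] at h6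

theorem actT_inv_xi {K : Type} [Field K] (A B : Matrix (Fin (N + 1)) (Fin (N + 1)) K)
    (hA : A.det ≠ 0) (c : Ix N d → K) : actT A⁻¹ (xi B (actT A c)) = xi (A * B * A⁻¹) c := by
  rw [xi_actT A B hA, actT_inv_act A hA]

theorem conj_eq_zero {K : Type} [Field K] (A B : Matrix (Fin (N + 1)) (Fin (N + 1)) K)
    (hA : A.det ≠ 0) (h : A * B * A⁻¹ = 0) : B = 0 := by
  have hu : IsUnit A.det := isUnit_iff_ne_zero.mpr hA
  have h8 := congrArg (fun Y => A⁻¹ * Y * A) h
  simp only [mul_zero, zero_mul] at h8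
  rw [← h8]
  rw [mul_assoc A, ← mul_assoc A⁻¹, Matrix.nonsing_inv_mul _ hu, one_mul,
    mul_assoc, Matrix.nonsing_inv_mul _ hu, mul_one]

/-- chain rule for the action -/
theorem dd_compT (B : Matrix (Fin (N + 1)) (Fin (N + 1)) k) (P : SS k N d)
    (c v : Ix N d → k) : dd (compT B P) c v = dd P (actT B c) (actT B v) := by
  have h3 : actT (B.map (algebraMap k (DualNumber k))) (fun p => algebraMap k (DualNumber k) (c p) +
    DualNumber.eps * algebraMap k (DualNumber k) (v p)) =
      fun p => algebraMap k (DualNumber k) (actT B c p) +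
        DualNumber.eps * algebraMap k (DualNumber k) (actT B v p) := by
    have e1 : (fun p => algebraMap k (DualNumber k) (c p) +
        DualNumber.eps * algebraMap k (DualNumber k) (v p)) =
        (fun p => algebraMap k (DualNumber k) (c p)) +
          (DualNumber.eps : DualNumber k) • (fun p => algebraMap k (DualNumber k) (v p)) := rfl
    rw [e1, actT_add, actT_smul]
    funext p
    simp only [Pi.add_apply, Pi.smul_apply, smul_eq_mul]
    rw [map_actT, map_actT]
  have h1 := eval_eps (DualNumber.eps : DualNumber k) DualNumber.eps_mul_eps c v (compT B P)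
  have h2 := eval_eps (DualNumber.eps : DualNumber k) DualNumber.eps_mul_eps (actT B c)
    (actT B v) P
  rw [aeval_compT_S, h3] at h1
  have h4 := congrArg TrivSqZeroExt.snd (h1.symm.trans h2)
  rw [snd_form, snd_form] at h4
  exact h4

theorem dd_add_right {R σ : Type} [CommRing R] [Fintype σ] (P : MvPolynomial σ R)
    (c v w : σ → R) : dd P c (v + w) = dd P c v + dd P c w := by
  unfold dd
  rw [← Finset.sum_add_distrib]
  exact Finset.sum_congr rfl fun p _ => by rw [Pi.add_apply, add_mul]

theorem xi_E_sum {K : Type} [Field K] (B : Matrix (Fin (N + 1)) (Fin (N + 1)) K) (c : Ix N d → K) :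
    xi B c = ∑ i, ∑ j, B i j • xi (Matrix.single i j 1) c := by
  have h1 : B = ∑ i, ∑ j, B i j • Matrix.single i j (1 : K) := by
    conv_lhs => rw [Matrix.matrix_eq_sum_single B]
    simp
  conv_lhs => rw [h1]
  change xiL c _ = _
  rw [map_sum]
  refine Finset.sum_congr rfl fun i _ => ?_
  rw [map_sum]
  refine Finset.sum_congr rfl fun j _ => ?_
  rw [map_smul]
  rfl

/-- A linear relation valid over `k` stays valid over extensions. -/
theorem lam_ext {K : Type} [Field K] [Algebra k K] {c lam : Ix N d → k}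
    (hlam : ∀ B : Matrix (Fin (N + 1)) (Fin (N + 1)) k, ∑ p, lam p * xi B c p = 0)
    (B : Matrix (Fin (N + 1)) (Fin (N + 1)) K) :
    ∑ p, algebraMap k K (lam p) * xi B (bc K c) p = 0 := by
  rw [xi_E_sum B]
  simp only [Finset.sum_apply, Pi.smul_apply, smul_eq_mul, Finset.mul_sum]
  rw [Finset.sum_comm]
  apply Finset.sum_eq_zero
  intro i _
  rw [Finset.sum_comm]
  apply Finset.sum_eq_zero
  intro j _
  have h1 : ∀ p, xi (Matrix.single i j (1 : K)) (bc K c) p =
      algebraMap k K (xi (Matrix.single i j (1 : k)) c p) := by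
    intro p
    rw [map_xi]
    congr 1
    ext a b
    simp [Matrix.map_apply, Matrix.single_apply, apply_ite]
  simp_rw [h1]
  have h2 : ∀ p, algebraMap k K (lam p) * (B i j *
      algebraMap k K (xi (Matrix.single i j (1 : k)) c p)) =
      B i j * algebraMap k K (lam p * xi (Matrix.single i j (1 : k)) c p) := by
    intro p
    rw [map_mul]; ring
  simp_rw [h2]
  rw [← Finset.mul_sum, ← map_sum, hlam, map_zero, mul_zero]

end

end Pool.Agent.TH170.SL
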