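import Pool.Agent.TH170.SL.Germ

/-!
The local ring of the moduli space is isomorphic to the ring of invariants of the local ring of
the space of coefficient vectors.
-/

open MvPolynomial

namespace Pool.Agent.TH170.SL

open Pool.Agent.Helper819.Apolar Pool.Agent.Helper819.Dyn

noncomputable section

set_option linter.unusedSectionVars false

variable {k : Type} [Field k] {N d : ℕ} [IsAlgClosed k] [CharZero k]

theorem mem_dom_self (hNd : 0 < N + d) (F : EndTuple k N d) (u : OO (cv F)) :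
    cls F ∈ dom ((u : Rf (cv F)) : KF k (Ix N d)) :=
  (mem_dom_iff hNd u.2 F).mpr u.1.2

theorem hf_add (hNd : 0 < N + d) {u v w : KF k (Ix N d)} (hu : Inv u) (hv : Inv v) (hw : Inv w)
    (h : w = u + v) (m : Moduli k N d) (h1 : m ∈ dom u) (h2 : m ∈ dom v) :
    hf hNd w hw m = hf hNd u hu m + hf hNd v hv m := by
  subst h
  obtain ⟨G, rfl⟩ := Quot.exists_rep m
  have e1 := (mem_dom_iff hNd hu G).mp h1
  have e2 := (mem_dom_iff hNd hv G).mp h2
  change val (u + v) G = val u G + val v G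
  rw [val_mem e1, val_mem e2, val_mem ((Rf (cv G)).add_mem e1 e2), ← map_add]
  rfl

theorem hf_mul (hNd : 0 < N + d) {u v w : KF k (Ix N d)} (hu : Inv u) (hv : Inv v) (hw : Inv w)
    (h : w = u * v) (m : Moduli k N d) (h1 : m ∈ dom u) (h2 : m ∈ dom v) :
    hf hNd w hw m = hf hNd u hu m * hf hNd v hv m := by
  subst h
  obtain ⟨G, rfl⟩ := Quot.exists_rep m
  have e1 := (mem_dom_iff hNd hu G).mp h1
  have e2 := (mem_dom_iff hNd hv G).mp h2
  change val (u * v) G = val u G * val v G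
  rw [val_mem e1, val_mem e2, val_mem ((Rf (cv G)).mul_mem e1 e2), ← map_mul]
  rfl

theorem hf_cst (hNd : 0 < N + d) {w : KF k (Ix N d)} (hw : Inv w) (a : k)
    (h : w = am k (Ix N d) (C a)) (m : Moduli k N d) : hf hNd w hw m = a := by
  subst h
  obtain ⟨G, rfl⟩ := Quot.exists_rep m
  change val _ G = a
  rw [val_div (P := C a) (Q := 1) (by rw [map_one, inv_one, mul_one]) G (by simp)]
  simp

/-- invariants as germs on the moduli space -/
def toGerm (hNd : 0 < N + d) (F : EndTuple k N d) : OO (cv F) →+* localRing (cls F) where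
  toFun u := ⟨((hf hNd u.1.1 u.2 : Moduli k N d → k) : (nhds (cls F)).Germ k),
    ⟨dom u.1.1, hf hNd u.1.1 u.2, isOpen_dom hNd u.2, mem_dom_self hNd F u,
      fun G hG => regular_hf hNd u.2 G hG, rfl⟩⟩
  map_one' := by
    apply Subtype.ext
    apply Filter.Germ.coe_eq.mpr
    refine Filter.Eventually.of_forall fun m => ?_
    exact hf_cst hNd _ 1 (by rw [map_one, map_one]; rfl) m
  map_zero' := by
    apply Subtype.ext
    apply Filter.Germ.coe_eq.mpr
    refine Filter.Eventually.of_forall fun m => ?_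
    exact hf_cst hNd _ 0 (by rw [map_zero, map_zero]; rfl) m
  map_add' u v := by
    apply Subtype.ext
    apply Filter.Germ.coe_eq.mpr
    filter_upwards [(isOpen_dom hNd u.2).mem_nhds (mem_dom_self hNd F u),
      (isOpen_dom hNd v.2).mem_nhds (mem_dom_self hNd F v)] with m h1 h2
    exact hf_add hNd u.2 v.2 (u + v).2 rfl m h1 h2
  map_mul' u v := by
    apply Subtype.ext
    apply Filter.Germ.coe_eq.mpr
    filter_upwards [(isOpen_dom hNd u.2).mem_nhds (mem_dom_self hNd F u),
      (isOpen_dom hNd v.2).mem_nhds (mem_dom_self hNd F v)] with m h1 h2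
    exact hf_mul hNd u.2 v.2 (u * v).2 rfl m h1 h2

theorem toGerm_inj (hNd : 0 < N + d) (F : EndTuple k N d) :
    Function.Injective (toGerm hNd F) := by
  rw [injective_iff_map_eq_zero]
  intro u hu
  have h1 : (hf hNd u.1.1 u.2 : Moduli k N d → k) =ᶠ[nhds (cls F)] (0 : Moduli k N d → k) :=
    Filter.Germ.coe_eq.mp (congrArg Subtype.val hu)
  obtain ⟨U, hU1, hU2, hU3⟩ := mem_nhds_iff.mp h1
  have hopen : IsOpen ((cls : EndTuple k N d → Moduli k N d) ⁻¹' U) :=
    hU2.preimage continuous_quot_mk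
  obtain ⟨S, hS1, hS2⟩ := exists_S hopen (F := F) hU3
  obtain ⟨P, Q, hQ, hPQ⟩ := mem_Rf.mp u.1.2
  have hP : P = 0 := by
    refine zero_of_vanish F (S := S * Q) (mul_ne_zero ?_ ?_) fun G hG => ?_
    · rintro rfl; simp at hS1
    · rintro rfl; simp at hQ
    · rw [map_mul] at hG
      have e1 := hS2 G (left_ne_zero_of_mul hG)
      have e2 : val u.1.1 G = 0 := hU1 e1
      rw [val_div hPQ G (right_ne_zero_of_mul hG), div_eq_zero_iff] at e2
      exact e2.resolve_right (right_ne_zero_of_mul hG)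
  apply Subtype.ext
  apply Subtype.ext
  change (u.1.1 : KF k (Ix N d)) = 0
  rw [hPQ, hP, map_zero, zero_mul]

/-- two representations of one function -/
theorem cross (F : EndTuple k N d) {S P Q P' Q' : SS k N d} (hS : S ≠ 0) (hQ : Q ≠ 0)
    (hQ' : Q' ≠ 0) (h : ∀ G : EndTuple k N d, eval (cv G) S ≠ 0 → eval (cv G) Q ≠ 0 →
      eval (cv G) Q' ≠ 0 → eval (cv G) P / eval (cv G) Q = eval (cv G) P' / eval (cv G) Q') :
    am k (Ix N d) P * (am k (Ix N d) Q)⁻¹ = am k (Ix N d) P' * (am k (Ix N d) Q')⁻¹ := by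
  have h1 : P * Q' - P' * Q = 0 := by
    refine zero_of_vanish F (S := S * (Q * Q')) (mul_ne_zero hS (mul_ne_zero hQ hQ'))
      fun G hG => ?_
    rw [map_mul, map_mul] at hG
    have e1 := left_ne_zero_of_mul hG
    have e2 := left_ne_zero_of_mul (right_ne_zero_of_mul hG)
    have e3 := right_ne_zero_of_mul (right_ne_zero_of_mul hG)
    have e4 := h G e1 e2 e3
    rw [map_sub, map_mul, map_mul, sub_eq_zero]
    field_simp at e4
    linear_combination e4
  have h2 : am k (Ix N d) Q ≠ 0 := am_ne_zero hQ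
  have h3 : am k (Ix N d) Q' ≠ 0 := am_ne_zero hQ'
  have h4 := congrArg (am k (Ix N d)) h1
  rw [map_sub, map_mul, map_mul, map_zero, sub_eq_zero] at h4
  field_simp
  linear_combination h4

theorem cls_actE (hNd : 0 < N + d) (A : Matrix (Fin (N + 1)) (Fin (N + 1)) k) (hA : A.det ≠ 0)
    (G : EndTuple k N d) : cls (actE A hA G) = cls G :=
  (Quot.sound ((rel_iff hNd G _).mpr ⟨A, hA, rfl⟩)).symm

/-- local representation with degree `d` coefficients -/
theorem IsRegularAt.exists_ix {h : Moduli k N d → k} {F : EndTuple k N d} (hh : IsRegularAt h F) :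
    ∃ P Q S : SS k N d, eval (cv F) Q ≠ 0 ∧ eval (cv F) S ≠ 0 ∧
      ∀ G : EndTuple k N d, eval (cv G) S ≠ 0 → h (cls G) = eval (cv G) P / eval (cv G) Q := by
  obtain ⟨P, Q, hQ, hev⟩ := hh
  obtain ⟨V, hV1, hV2, hV3⟩ := mem_nhds_iff.mp hev
  obtain ⟨S, hS1, hS2⟩ := exists_S hV2 hV3
  refine ⟨toIx N d P, toIx N d Q, S, by rw [eval_toIx]; exact hQ, hS1, fun G hG => ?_⟩
  rw [eval_toIx, eval_toIx]
  exact hV1 (hS2 G hG)

theorem toGerm_surj (hNd : 0 < N + d) (F : EndTuple k N d) :
    Function.Surjective (toGerm hNd F) := by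
  rintro ⟨g, U, h, hU, hm, hreg, rfl⟩
  have hopen : IsOpen ((cls : EndTuple k N d → Moduli k N d) ⁻¹' U) :=
    hU.preimage continuous_quot_mk
  obtain ⟨P, Q, S, hQ, hS, hh⟩ := (hreg F hm).exists_ix
  have hQ0 : Q ≠ 0 := by rintro rfl; simp at hQ
  have hS0 : S ≠ 0 := by rintro rfl; simp at hS
  obtain ⟨u, hu⟩ : ∃ u, u = am k (Ix N d) P * (am k (Ix N d) Q)⁻¹ := ⟨_, rfl⟩
  -- the same rational function represents `h` everywhere on `U`
  have key : ∀ G : EndTuple k N d, cls G ∈ U → u ∈ Rf (cv G) ∧ val u G = h (cls G) := by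
    intro G hG
    obtain ⟨P', Q', S', hQ', hS', hh'⟩ := (hreg G hG).exists_ix
    have hQ0' : Q' ≠ 0 := by rintro rfl; simp at hQ'
    have hS0' : S' ≠ 0 := by rintro rfl; simp at hS'
    have h1 : u = am k (Ix N d) P' * (am k (Ix N d) Q')⁻¹ := by
      rw [hu]
      refine cross F (mul_ne_zero hS0 hS0') hQ0 hQ0' fun G' e1 _ _ => ?_
      rw [map_mul] at e1
      rw [← hh G' (left_ne_zero_of_mul e1), ← hh' G' (right_ne_zero_of_mul e1)]
    refine ⟨mem_Rf.mpr ⟨P', Q', hQ', h1⟩, ?_⟩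
    rw [val_div h1 G hQ', hh' G hS']
  have hinv : Inv u := by
    intro A hA
    rw [hu, actK_div]
    refine cross F (S := S * compT A S) (mul_ne_zero hS0 (compT_ne_zero A hA hS0))
      (compT_ne_zero A hA hQ0) hQ0 fun G e1 _ _ => ?_
    rw [map_mul, eval_compT] at e1
    rw [eval_compT, eval_compT, ← cv_actE A hA, ← hh G (left_ne_zero_of_mul e1),
      ← hh (actE A hA G) (by rw [cv_actE]; exact right_ne_zero_of_mul e1), cls_actE hNd]
  refine ⟨⟨⟨u, (key F hm).1⟩, hinv⟩, ?_⟩
  apply Subtype.ext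
  apply Filter.Germ.coe_eq.mpr
  filter_upwards [hU.mem_nhds hm] with m hmU
  obtain ⟨G, rfl⟩ := Quot.exists_rep m
  exact (key G hmU).2

/-- **The local ring of the moduli space as a ring of invariants.** -/
def germEquiv (hNd : 0 < N + d) (F : EndTuple k N d) : OO (cv F) ≃+* localRing (cls F) :=
  RingEquiv.ofBijective (toGerm hNd F) ⟨toGerm_inj hNd F, toGerm_surj hNd F⟩

/-! ### automorphisms -/

theorem conj_eq_act (φ : GL (Fin (N + 1)) k) (F : Tuple k N) (c : kˣ)
    (hF : ∀ i, (F i).IsHomogeneous d) (hNd : 0 < N + d) : ∃ a : k, a ≠ 0 ∧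
      (fun i => C (c : k) * conj φ F i) =
        act (a • (φ : Matrix (Fin (N + 1)) (Fin (N + 1)) k)) F := by
  have hinf : Infinite k := IsAlgClosed.instInfinite
  obtain ⟨M, hM⟩ : ∃ M : Matrix (Fin (N + 1)) (Fin (N + 1)) k, M = ↑φ := ⟨_, rfl⟩
  have hdet : M.det ≠ 0 := by
    rw [hM]
    exact ((Matrix.isUnit_iff_isUnit_det _).mp φ.isUnit).ne_zero
  have hinv : (↑(φ⁻¹) : Matrix (Fin (N + 1)) (Fin (N + 1)) k) = M.det⁻¹ • M.adjugate := by
    rw [Matrix.coe_units_inv, Matrix.inv_def, hM, Ring.inverse_eq_inv']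
  obtain ⟨a, ha⟩ := IsAlgClosed.exists_pow_nat_eq ((c : k) / M.det) hNd
  have ha0 : a ≠ 0 := by
    rintro rfl
    rw [zero_pow hNd.ne'] at ha
    exact div_ne_zero c.ne_zero hdet ha.symm
  refine ⟨a, ha0, ?_⟩
  rw [← hM]
  funext i
  apply MvPolynomial.funext
  intro P
  rw [eval_act, map_mul, eval_C, conj_eval, hinv, Finset.mul_sum]
  refine Finset.sum_congr rfl fun j _ => ?_
  rw [Matrix.adjugate_smul, Matrix.smul_mulVec, eval_smul_homog (hF j)]
  simp only [Matrix.smul_apply, smul_eq_mul, Fintype.card_fin, ← hM]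
  have : (c : k) = a ^ (N + d) * M.det := by
    rw [ha]; field_simp
  rw [this]
  simp only [Nat.add_sub_cancel]
  field_simp
  ring

theorem triv_iff (hNd : 0 < N + d) (F : EndTuple k N d) : Triv (cv F) ↔ AutTrivial F := by
  constructor
  · intro ht φ c hF
    obtain ⟨a, ha, h1⟩ := conj_eq_act φ F.1 c F.2.1 hNd
    rw [h1] at hF
    have hdet : ((φ : Matrix (Fin (N + 1)) (Fin (N + 1)) k)).det ≠ 0 :=
      ((Matrix.isUnit_iff_isUnit_det _).mp φ.isUnit).ne_zero
    obtain ⟨t, h2⟩ := ht (a • (φ : Matrix (Fin (N + 1)) (Fin (N + 1)) k)) (by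
      rw [Matrix.det_smul]
      exact mul_ne_zero (pow_ne_zero _ ha) hdet) (by
      change cf (act _ (tup (cv F))) = cv F
      rw [tup_cv, ← hF]
      rfl)
    refine ⟨a⁻¹ * t, ?_⟩
    rw [mul_smul, ← h2, smul_smul, inv_mul_cancel₀ ha, one_smul]
  · intro ht A hA hAF
    have h1 : actE A hA F = F := by
      apply Subtype.ext
      have h2 := congrArg tup hAF
      rw [tup_actT, tup_cv] at h2
      exact h2
    have hu : IsUnit A := (Matrix.isUnit_iff_isUnit_det A).mpr (isUnit_iff_ne_zero.mpr hA)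
    have h2 : F.1 = fun i => C ((Units.mk0 A.det hA : kˣ) : k) * conj hu.unit F.1 i := by
      have h3 : act A F.1 = fun i => C ((Units.mk0 A.det hA : kˣ) : k) * conj hu.unit F.1 i := by
        funext i
        apply MvPolynomial.funext
        intro P
        rw [eval_act, map_mul, eval_C, conj_eval, Finset.mul_sum]
        refine Finset.sum_congr rfl fun j _ => ?_
        have hinv : (↑(hu.unit⁻¹) : Matrix (Fin (N + 1)) (Fin (N + 1)) k) =
            A.det⁻¹ • A.adjugate := by
          rw [Matrix.coe_units_inv, Matrix.inv_def, Ring.inverse_eq_inv']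
          simp
        rw [hinv]
        simp only [Matrix.smul_apply, smul_eq_mul, Units.val_mk0, IsUnit.unit_spec]
        field_simp
      rw [← h3]
      exact (congrArg Subtype.val h1).symm
    obtain ⟨t, ht'⟩ := ht hu.unit (Units.mk0 A.det hA) h2
    exact ⟨t, by rw [← ht', IsUnit.unit_spec]⟩

/-- Regular points have trivial automorphism group. -/
theorem autTrivial_of_regular (hN : 1 ≤ N) (hd : 2 ≤ d) (h : ¬ (N = 1 ∧ d = 2))
    (F : EndTuple k N d) (hreg : IsRegularLocalRing (localRing (cls F))) : AutTrivial F := by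
  rw [← triv_iff (by omega)]
  have h1 : IsRegularLocalRing (OO (cv F)) :=
    IsRegularLocalRing.of_ringEquiv (germEquiv (by omega) F).symm
  exact triv_of_regular hN hd h (NZ_cv F) h1

end

end Pool.Agent.TH170.SL
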