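import Pool.Agent.TH170.SL.Vec
import Pool.Agent.TH170.SL.Iso

/-!
If `f` has only scalar automorphisms then the ring of invariants at `f` is a regular local ring.
-/

open MvPolynomial

namespace Pool.Agent.TH170.SL

open Pool.Agent.Helper819.Apolar Pool.Agent.Helper819.Dyn

noncomputable section

set_option linter.unusedSectionVars false

variable {k : Type} [Field k] {N d : ℕ} [IsAlgClosed k] [CharZero k]

/-- Local coordinates among the invariants. -/
theorem exists_coordinates (hd : 2 ≤ d) {f : Ix N d → k} (hf : NZ (tup f)) (ht : Triv f) :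
    ∃ (e : GG N → Ix N d) (u : Comp e → OO f), Function.Injective e ∧ (mnr e : SS k N d) ≠ 0 ∧
      (∀ b, ev f (u b : Rf f) = 0) ∧ ev f (jm (fun b => (u b : Rf f))).det ≠ 0 := by
  classical
  obtain ⟨w0, R, hR, hRf, hRNZ⟩ := exists_semi_NZ hd hf
  have hw0 := weight_ne_zero hd hR hRf hRNZ
  obtain ⟨e, he, hef⟩ := exists_cols hd hf
  have hm : (mnr e : SS k N d) ≠ 0 := by
    intro h0
    rw [h0, map_zero] at hef
    exact hef rfl
  rw [eval_mnr] at hef
  have key : ∀ b : Comp e, ∃ u : OO f, ev f (u : Rf f) = 0 ∧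
      ∃ κ : k, κ ≠ 0 ∧ ∀ b' : Comp e, ev f (gr (u : Rf f) b') = κ * if b' = b then 1 else 0 := by
    intro b
    obtain ⟨lam, h1, h2⟩ := exists_lam (M := xs f) he hef b
    obtain ⟨u, _, huc, hu, hu0, κ, hκ, hgr⟩ := exists_inv_at hd hf ht hw0 hR hRf hRf lam (by
      intro B
      simp_rw [xi_eq_xs, Finset.mul_sum]
      rw [Finset.sum_comm]
      apply Finset.sum_eq_zero
      intro i _
      have h3 : ∀ p, lam p * (B i.1 i.2 * xs f i p) = B i.1 i.2 * (lam p * xs f i p) :=
        fun p => by ring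
      simp_rw [h3]
      rw [← Finset.mul_sum, h1, mul_zero])
    exact ⟨⟨⟨u, huc⟩, hu⟩, hu0, κ, hκ, fun b' => by rw [hgr, h2]⟩
  choose u hu0 κ hκ hgr using key
  refine ⟨e, u, he, hm, hu0, ?_⟩
  have h1 : ev f (jm (fun b => (u b : Rf f))).det = (Matrix.diagonal κ).det := by
    rw [RingHom.map_det]
    congr 1
    refine Matrix.ext fun a b => ?_
    rw [Matrix.diagonal_apply]
    change ev f (gr (u a : Rf f) b) = _
    rw [hgr a b]
    by_cases hab : a = b
    · subst hab; simp
    · rw [if_neg hab, if_neg (fun h => hab h.symm), mul_zero]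
  rw [h1, Matrix.det_diagonal]
  exact Finset.prod_ne_zero_iff.mpr fun a _ => hκ a

theorem EE_vb {f : Ix N d → k} {e : GG N → Ix N d} (he : Function.Injective e)
    (hm : (mnr e : SS k N d) ≠ 0) (u : Comp e → OO f)
    (hdet : ev f (jm (fun b => (u b : Rf f))).det ≠ 0) (z : Rf f) (hz : z ∈ OO f) :
    EE z = ∑ b, vb (fun b => (u b : Rf f)) z b * EE (u b : Rf f) := by
  unfold EE
  have h1 : ∀ p, yv f p * gr z p = ∑ b, vb (fun b => (u b : Rf f)) z b *
      (yv f p * gr (u b : Rf f) p) := by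
    intro p
    rw [vb_spec he hm (fun b => (u b : Rf f)) (fun b => (u b).2) hdet z hz p, Finset.mul_sum]
    exact Finset.sum_congr rfl fun b _ => by ring
  simp_rw [h1]
  rw [Finset.sum_comm]
  exact Finset.sum_congr rfl fun b _ => by rw [Finset.mul_sum]

/-- one step of the expansion -/
theorem expand_step {f : Ix N d → k} {e : GG N → Ix N d} (he : Function.Injective e)
    (hm : (mnr e : SS k N d) ≠ 0) (u : Comp e → OO f) (hu0 : ∀ b, ev f (u b : Rf f) = 0)
    (hdet : ev f (jm (fun b => (u b : Rf f))).det ≠ 0) (n : ℕ) (z : OO f)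
    (hz : (z : Rf f) ∈ mm f ^ (n + 1)) :
    ∃ w : Comp e → OO f, (z : Rf f) - ∑ b, (w b : Rf f) * (u b : Rf f) ∈ mm f ^ (n + 2) := by
  have h1 := EE_pow (n + 1) (z : Rf f) hz
  rw [EE_vb he hm u hdet (z : Rf f) z.2] at h1
  set v : Comp e → Rf f := vb (fun b => (u b : Rf f)) (z : Rf f) with hv
  have hvO : ∀ b, v b ∈ OO f := fun b =>
    vb_inv he hm (fun b => (u b : Rf f)) (fun b => (u b).2) hdet (z : Rf f) z.2 b
  have hvm : ∀ b, v b ∈ mm f ^ n := by
    intro b
    rw [hv]
    unfold vb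
    exact Ideal.sum_mem _ fun q _ => Ideal.mul_mem_right _ _ (gr_pow n (z : Rf f) hz q)
  have h2 : ∑ b, v b * de (u b : Rf f) ∈ mm f ^ (n + 2) := by
    refine Ideal.sum_mem _ fun b _ => ?_
    rw [pow_add]
    exact Ideal.mul_mem_mul (hvm b) (de_mem _)
  have h3 : ((n + 1 : ℕ) : Rf f) * (z : Rf f) - ∑ b, v b * (u b : Rf f) ∈ mm f ^ (n + 2) := by
    have h4 := Ideal.sub_mem _ h2 h1
    have h5 : ∑ b, v b * de (u b : Rf f) - (∑ b, v b * EE (u b : Rf f) -
        ((n + 1 : ℕ) : Rf f) * (z : Rf f)) = ((n + 1 : ℕ) : Rf f) * (z : Rf f) -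
          ∑ b, v b * (u b : Rf f) := by
      have h6 : ∀ b, v b * de (u b : Rf f) = v b * EE (u b : Rf f) - v b * (u b : Rf f) := by
        intro b
        unfold de
        rw [hu0 b, cst_zero, sub_zero]
        ring
      simp_rw [h6]
      rw [Finset.sum_sub_distrib]
      ring
    rwa [h5] at h4
  have hn : ((n + 1 : ℕ) : k) ≠ 0 := Nat.cast_ne_zero.mpr (Nat.succ_ne_zero n)
  have hcast : cst f ((n + 1 : ℕ) : k)⁻¹ * ((n + 1 : ℕ) : Rf f) = 1 := by
    have e1 : ((n + 1 : ℕ) : Rf f) = cst f ((n + 1 : ℕ) : k) := by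
      apply Subtype.ext
      change (((n + 1 : ℕ) : Rf f) : KF k (Ix N d)) = am k (Ix N d) (C ((n + 1 : ℕ) : k))
      rw [map_natCast, map_natCast]
      rfl
    rw [e1, ← cst_mul, inv_mul_cancel₀ hn]
    apply Subtype.ext
    change am k (Ix N d) (C 1) = 1
    rw [map_one, map_one]
  refine ⟨fun b => ⟨cst f ((n + 1 : ℕ) : k)⁻¹, cst_mem f _⟩ * ⟨v b, hvO b⟩, ?_⟩
  have h4 := Ideal.mul_mem_left _ (cst f ((n + 1 : ℕ) : k)⁻¹) h3
  have h5 : cst f ((n + 1 : ℕ) : k)⁻¹ * (((n + 1 : ℕ) : Rf f) * (z : Rf f) -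
      ∑ b, v b * (u b : Rf f)) = (z : Rf f) - ∑ b, (cst f ((n + 1 : ℕ) : k)⁻¹ * v b) *
        (u b : Rf f) := by
    rw [mul_sub, ← mul_assoc, hcast, one_mul, Finset.mul_sum]
    congr 1
    exact Finset.sum_congr rfl fun b _ => by ring
  rw [h5] at h4
  exact h4

theorem expand {f : Ix N d → k} {e : GG N → Ix N d} (he : Function.Injective e)
    (hm : (mnr e : SS k N d) ≠ 0) (u : Comp e → OO f) (hu0 : ∀ b, ev f (u b : Rf f) = 0)
    (hdet : ev f (jm (fun b => (u b : Rf f))).det ≠ 0) (n : ℕ) (x : OO f)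
    (hx : ev f (x : Rf f) = 0) :
    ∃ w : Comp e → OO f, (x : Rf f) - ∑ b, (w b : Rf f) * (u b : Rf f) ∈ mm f ^ (n + 1) := by
  induction n with
  | zero =>
    refine ⟨fun _ => 0, ?_⟩
    rw [zero_add, pow_one, mem_mm, map_sub, hx, zero_sub, neg_eq_zero, map_sum]
    apply Finset.sum_eq_zero
    intro b _
    rw [map_mul, hu0, mul_zero]
  | succ n ih =>
    obtain ⟨w, hw⟩ := ih
    obtain ⟨w', hw'⟩ := expand_step he hm u hu0 hdet n (x - ∑ b, w b * u b) (by
      have h1 : ((x - ∑ b, w b * u b : OO f) : Rf f) =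
          (x : Rf f) - ∑ b, (w b : Rf f) * (u b : Rf f) := by
        rw [AddSubgroupClass.coe_sub, AddSubmonoidClass.coe_finsetSum]
        rfl
      rw [h1]
      exact hw)
    refine ⟨fun b => w b + w' b, ?_⟩
    have h1 : ((x - ∑ b, w b * u b : OO f) : Rf f) =
        (x : Rf f) - ∑ b, (w b : Rf f) * (u b : Rf f) := by
      rw [AddSubgroupClass.coe_sub, AddSubmonoidClass.coe_finsetSum]
      rfl
    rw [h1] at hw'
    have h2 : (x : Rf f) - ∑ b, ((w b + w' b : OO f) : Rf f) * (u b : Rf f) =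
        (x : Rf f) - ∑ b, (w b : Rf f) * (u b : Rf f) - ∑ b, (w' b : Rf f) * (u b : Rf f) := by
      rw [sub_sub, ← Finset.sum_add_distrib]
      congr 1
      refine Finset.sum_congr rfl fun b _ => ?_
      change ((w b : Rf f) + (w' b : Rf f)) * (u b : Rf f) = _
      ring
    rw [h2]
    exact hw'

/-- The coordinates generate the maximal ideal. -/
theorem max_gen (hd : 2 ≤ d) {f : Ix N d → k} (hf : NZ (tup f)) {e : GG N → Ix N d}
    (he : Function.Injective e) (hm : (mnr e : SS k N d) ≠ 0) (u : Comp e → OO f)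
    (hu0 : ∀ b, ev f (u b : Rf f) = 0)
    (hdet : ev f (jm (fun b => (u b : Rf f))).det ≠ 0) (x : OO f) (hx : ev f (x : Rf f) = 0) :
    ∃ b : Comp e → OO f, x = ∑ i, b i * u i := by
  apply reynolds hd hf x u
  set I : Ideal (Rf f) := Ideal.span (Set.range fun b => (u b : Rf f)) with hI
  have hx1 : (x : Rf f) ∈ I := by
    have h2 : Submodule.mkQ I (x : Rf f) ∈ (⨅ i : ℕ, mm f ^ i • (⊤ : Submodule (Rf f) (Rf f ⧸ I))) := by
      rw [Submodule.mem_iInf]
      intro s
      obtain ⟨w, hw⟩ := expand he hm u hu0 hdet s x hx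
      have h3 : Submodule.mkQ I (x : Rf f) =
          Submodule.mkQ I ((x : Rf f) - ∑ b, (w b : Rf f) * (u b : Rf f)) := by
        rw [← sub_eq_zero, ← map_sub, sub_sub_cancel]
        rw [Submodule.mkQ_apply, Submodule.Quotient.mk_eq_zero]
        exact Ideal.sum_mem _ fun b _ => Ideal.mul_mem_left _ _ (Ideal.subset_span ⟨b, rfl⟩)
      rw [h3]
      have h4 : (x : Rf f) - ∑ b, (w b : Rf f) * (u b : Rf f) ∈
          mm f ^ s • (⊤ : Submodule (Rf f) (Rf f)) := by
        rw [Ideal.smul_eq_mul, Ideal.mul_top]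
        exact Ideal.pow_le_pow_right (Nat.le_succ s) hw
      have h5 := Submodule.mem_map_of_mem (f := Submodule.mkQ I) h4
      rw [Submodule.map_smul''] at h5
      exact Submodule.smul_mono le_rfl le_top h5
    rw [Ideal.iInf_pow_smul_eq_bot_of_isLocalRing (mm f) (Ideal.IsPrime.ne_top inferInstance)] at h2
    rw [Submodule.mem_bot] at h2
    have h3 : (x : Rf f) ∈ LinearMap.ker (Submodule.mkQ I) := h2
    rwa [Submodule.ker_mkQ] at h3
  obtain ⟨a, ha⟩ := Ideal.mem_span_range_iff_exists_fun.mp hx1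
  exact ⟨a, ha.symm⟩

/-- The maximal ideal of the ambient local ring. -/
theorem mm_le {f : Ix N d → k} {e : GG N → Ix N d} (he : Function.Injective e)
    (u : Comp e → OO f) (hu0 : ∀ b, ev f (u b : Rf f) = 0)
    (hdet : ev f (jm (fun b => (u b : Rf f))).det ≠ 0) (q : Ideal (Rf f))
    (h1 : ∀ b, (u b : Rf f) ∈ q) (h2 : ∀ j, yv f (e j) ∈ q) : mm f ≤ q := by
  classical
  apply Submodule.le_of_le_smul_of_le_jacobson_bot (I := mm f)
    (IsNoetherian.noetherian (mm f) : (mm f).FG) (IsLocalRing.maximalIdeal_le_jacobson ⊥)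
  intro x hx
  set v := vb (fun b => (u b : Rf f)) x with hv
  have hspec := vb_spec_comp (fun b => (u b : Rf f)) hdet x
  let c : GG N → k := fun j => ev f (gr x (e j)) - ∑ b, ev f (v b) * ev f (gr (u b : Rf f) (e j))
  let a : Rf f := ∑ b, cst f (ev f (v b)) * (u b : Rf f)
  let t : Rf f := ∑ j, cst f (c j) * yv f (e j)
  have ha : a ∈ q := Ideal.sum_mem _ fun b _ => Ideal.mul_mem_left _ _ (h1 b)
  have ht : t ∈ q := Ideal.sum_mem _ fun j _ => Ideal.mul_mem_left _ _ (h2 j)
  have hga : ∀ p, ev f (gr a p) = ∑ b, ev f (v b) * ev f (gr (u b : Rf f) p) := by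
    intro p
    rw [ev_gr_sum _ _ hu0]
    exact Finset.sum_congr rfl fun b _ => by rw [ev_cst]
  have hgt : ∀ p, ev f (gr t p) = ∑ j, c j * (if p = e j then 1 else 0) := by
    intro p
    rw [ev_gr_sum _ _ (fun j => (mem_mm _).mp (yv_mem f (e j)))]
    refine Finset.sum_congr rfl fun j _ => ?_
    rw [ev_cst, gr_yv]
    split_ifs
    · rw [map_one]
    · rw [map_zero]
  have h3 : x - a - t ∈ mm f ^ (1 + 1) := by
    apply mem_pow_of_gr
    · rw [map_sub, map_sub, (mem_mm x).mp hx, map_sum, map_sum]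
      have e1 : ∑ b, ev f (cst f (ev f (v b)) * (u b : Rf f)) = 0 :=
        Finset.sum_eq_zero fun b _ => by rw [map_mul, hu0, mul_zero]
      have e2 : ∑ j, ev f (cst f (c j) * yv f (e j)) = 0 :=
        Finset.sum_eq_zero fun j _ => by rw [map_mul, (mem_mm _).mp (yv_mem f (e j)), mul_zero]
      rw [e1, e2]
      ring
    · intro p
      rw [pow_one, mem_mm]
      have h4 : gr (x - a - t) p = gr x p - gr a p - gr t p := by
        have e1 : gr (x - a - t) + gr t + gr a = gr x := by
          rw [← gr_add, ← gr_add]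
          congr 1
          ring
        rw [← e1]
        change gr (x - a - t) p = gr (x - a - t) p + gr t p + gr a p - gr a p - gr t p
        ring
      rw [h4, map_sub, map_sub, hga, hgt]
      by_cases hp : p ∈ Set.range e
      · obtain ⟨j, rfl⟩ := hp
        rw [Finset.sum_eq_single j]
        · rw [if_pos rfl, mul_one]
          change _ - _ - (ev f (gr x (e j)) - ∑ b, ev f (v b) * ev f (gr (u b : Rf f) (e j))) = 0
          ring
        · intro j' _ hj'
          rw [if_neg (fun h => hj' (he h).symm), mul_zero]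
        · simp
      · have e1 : ∑ j, c j * (if p = e j then (1 : k) else 0) = 0 := by
          apply Finset.sum_eq_zero
          intro j _
          rw [if_neg (fun h => hp ⟨j, h.symm⟩), mul_zero]
        rw [e1, sub_zero, sub_eq_zero]
        have e2 := congrArg (ev f) (hspec ⟨p, hp⟩)
        rw [map_sum] at e2
        simp only [map_mul] at e2
        exact e2
  have h5 : x = (a + t) + (x - a - t) := by ring
  rw [h5]
  refine Submodule.add_mem _ (Submodule.mem_sup_left (Ideal.add_mem _ ha ht))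
    (Submodule.mem_sup_right ?_)
  rw [Ideal.smul_eq_mul, ← pow_two]
  exact h3

/-- Lower bound for the dimension. -/
theorem le_dim (hd : 2 ≤ d) {f : Ix N d → k} (hf : NZ (tup f)) {e : GG N → Ix N d}
    (he : Function.Injective e) (u : Comp e → OO f)
    (hu0 : ∀ b, ev f (u b : Rf f) = 0)
    (hdet : ev f (jm (fun b => (u b : Rf f))).det ≠ 0) :
    ((Fintype.card (Comp e) : ℕ) : WithBot ℕ∞) ≤ ringKrullDim (OO f) := by
  classical
  have hnoeth : IsNoetherianRing (OO f) := noetherian_OO hd hf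
  obtain ⟨s, hs1, hs2⟩ := Ideal.exists_finset_card_eq_height_of_isNoetherianRing
    (IsLocalRing.maximalIdeal (OO f))
  let S : Finset (Rf f) := s.image (fun v : OO f => (v : Rf f)) ∪
    Finset.univ.image (fun j : GG N => yv f (e j))
  have hmin : mm f ∈ (Ideal.span (S : Set (Rf f))).minimalPrimes := by
    refine ⟨⟨inferInstance, ?_⟩, ?_⟩
    · rw [Ideal.span_le]
      intro x hx
      rcases Finset.mem_union.mp (Finset.mem_coe.mp hx) with h | h
      · obtain ⟨v, hv, rfl⟩ := Finset.mem_image.mp h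
        have h1 : v ∈ IsLocalRing.maximalIdeal (OO f) := hs1.1.2 (Ideal.subset_span hv)
        exact (mem_mm _).mpr ((mem_max_OO f v).mp h1)
      · obtain ⟨j, _, rfl⟩ := Finset.mem_image.mp h
        exact yv_mem f (e j)
    · rintro q ⟨hq, hSq⟩ hqm
      have hqc : (q.comap (OO f).subtype).IsPrime := Ideal.IsPrime.comap _
      have h1 : IsLocalRing.maximalIdeal (OO f) ≤ q.comap (OO f).subtype := by
        refine hs1.2 ⟨hqc, ?_⟩ ?_
        · rw [Ideal.span_le]
          intro v hv
          apply hSq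
          apply Ideal.subset_span
          apply Finset.mem_coe.mpr
          apply Finset.mem_union_left
          exact Finset.mem_image_of_mem _ hv
        · intro v hv
          rw [mem_max_OO]
          exact (mem_mm _).mp (hqm hv)
      refine mm_le he u hu0 hdet q (fun b => ?_) (fun j => ?_)
      · exact h1 ((mem_max_OO f (u b)).mpr (hu0 b))
      · apply hSq
        apply Ideal.subset_span
        apply Finset.mem_coe.mpr
        apply Finset.mem_union_right
        exact Finset.mem_image_of_mem _ (Finset.mem_univ j)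
  have h1 := Ideal.height_le_card_of_mem_minimalPrimes_span_finset hmin
  have h2 := card_le_height f
  have h3 : Fintype.card (Ix N d) ≤ S.card := by exact_mod_cast h2.trans h1
  have h4 : S.card ≤ s.card + Fintype.card (GG N) := by
    refine (Finset.card_union_le _ _).trans (add_le_add Finset.card_image_le ?_)
    exact Finset.card_image_le.trans (by rw [Finset.card_univ])
  have h5 := card_Comp he
  have h6 : Fintype.card (Comp e) ≤ s.card := by omega
  rw [← IsLocalRing.maximalIdeal_height_eq_ringKrullDim, ← hs2]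
  exact_mod_cast h6

/-- **Trivial stabiliser implies regularity.** -/
theorem regular_of_triv (hd : 2 ≤ d) {f : Ix N d → k} (hf : NZ (tup f)) (ht : Triv f) :
    IsRegularLocalRing (OO f) := by
  classical
  obtain ⟨e, u, he, hm, hu0, hdet⟩ := exists_coordinates hd hf ht
  have hnoeth : IsNoetherianRing (OO f) := noetherian_OO hd hf
  apply IsRegularLocalRing.of_spanFinrank_maximalIdeal_le
  refine le_trans ?_ (le_dim hd hf he u hu0 hdet)
  have h1 : IsLocalRing.maximalIdeal (OO f) = Ideal.span (Set.range u) := by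
    apply le_antisymm
    · intro x hx
      obtain ⟨b, hb⟩ := max_gen hd hf he hm u hu0 hdet x ((mem_max_OO f x).mp hx)
      exact Ideal.mem_span_range_iff_exists_fun.mpr ⟨b, hb.symm⟩
    · rw [Ideal.span_le]
      rintro _ ⟨b, rfl⟩
      exact (mem_max_OO f (u b)).mpr (hu0 b)
  rw [h1]
  have h2 := Submodule.spanFinrank_span_le_ncard_of_finite (R := OO f) (Set.finite_range u)
  have h3 : (Set.range u).ncard ≤ Fintype.card (Comp e) := by
    rw [← Set.image_univ]
    refine (Set.ncard_image_le Set.finite_univ).trans ?_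
    rw [Set.ncard_univ, Nat.card_eq_fintype_card]
  exact_mod_cast h2.trans h3

/-- **Regular points of the moduli space.** -/
theorem regular_iff (hN : 1 ≤ N) (hd : 2 ≤ d) (h : ¬ (N = 1 ∧ d = 2)) (F : EndTuple k N d) :
    IsRegularLocalRing (localRing (cls F)) ↔ AutTrivial F := by
  constructor
  · exact autTrivial_of_regular hN hd h F
  · intro ht
    rw [← triv_iff (by omega)] at ht
    have h1 : IsRegularLocalRing (OO (cv F)) := regular_of_triv hd (NZ_cv F) ht
    exact IsRegularLocalRing.of_ringEquiv (germEquiv (by omega) F)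

end

end Pool.Agent.TH170.SL
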