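import Pool.Agent.Helper819.DynDefs

/-!
The local rings of the moduli space `M_d^N` of endomorphisms of projective space, and the
automorphisms of an endomorphism.

`Moduli k N d` is the set of points of the geometric quotient `M_d^N = End_d^N / PGL_(N+1)` over an
algebraically closed field, with its Zariski (quotient) topology, and `cls` is the quotient map from
the space `EndTuple k N d` of maps (given by their coefficients). A function on an open subset of a
geometric quotient is regular if and only if its pullback is regular, so the local ring at a point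
`m` is the ring of germs at `m` of functions whose pullback is locally a quotient of polynomials in
the coefficients.
-/

open MvPolynomial

namespace Pool.Agent.TH170.SL

open Pool.Agent.Helper819.Dyn

noncomputable section

variable {k : Type} [Field k] {N d : ℕ}

/-- Polynomials in the coefficients of a tuple of forms in `N + 1` variables. -/
abbrev CoefPoly (k : Type) [Field k] (N : ℕ) : Type :=
  MvPolynomial (Fin (N + 1) × (Fin (N + 1) →₀ ℕ)) k

/-- The pullback of `h` to the space of maps is regular at `F`: in a Zariski neighbourhood of `F`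
it is a quotient `P / Q` of polynomials in the coefficients, and `Q` does not vanish at `F`. -/
def IsRegularAt (h : Moduli k N d → k) (F : EndTuple k N d) : Prop :=
  ∃ P Q : CoefPoly k N, eval (coords F) Q ≠ 0 ∧
    ∀ᶠ G in nhds F, h (cls G) = eval (coords G) P / eval (coords G) Q

theorem IsRegularAt.add {h h' : Moduli k N d → k} {F : EndTuple k N d} (h1 : IsRegularAt h F)
    (h2 : IsRegularAt h' F) : IsRegularAt (h + h') F := by
  obtain ⟨P, Q, hQ, h1⟩ := h1
  obtain ⟨P', Q', hQ', h2⟩ := h2
  have hopen : ∀ᶠ G in nhds F, eval (coords G) (Q * Q') ≠ 0 := by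
    have : IsOpen {G : EndTuple k N d | eval (coords G) (Q * Q') ≠ 0} :=
      TopologicalSpace.isOpen_generateFrom_of_mem ⟨_, rfl⟩
    exact this.mem_nhds (by
      change eval (coords F) (Q * Q') ≠ 0
      rw [map_mul]; exact mul_ne_zero hQ hQ')
  refine ⟨P * Q' + Q * P', Q * Q', by rw [map_mul]; exact mul_ne_zero hQ hQ', ?_⟩
  filter_upwards [h1, h2, hopen] with G e1 e2 e3
  rw [map_mul] at e3
  have e4 := left_ne_zero_of_mul e3
  have e5 := right_ne_zero_of_mul e3
  rw [Pi.add_apply, e1, e2, map_add, map_mul, map_mul, map_mul]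
  field_simp

theorem IsRegularAt.mul {h h' : Moduli k N d → k} {F : EndTuple k N d} (h1 : IsRegularAt h F)
    (h2 : IsRegularAt h' F) : IsRegularAt (h * h') F := by
  obtain ⟨P, Q, hQ, h1⟩ := h1
  obtain ⟨P', Q', hQ', h2⟩ := h2
  refine ⟨P * P', Q * Q', by rw [map_mul]; exact mul_ne_zero hQ hQ', ?_⟩
  filter_upwards [h1, h2] with G e1 e2
  rw [Pi.mul_apply, e1, e2, map_mul, map_mul, div_mul_div_comm]

theorem IsRegularAt.neg {h : Moduli k N d → k} {F : EndTuple k N d} (h1 : IsRegularAt h F) :
    IsRegularAt (-h) F := by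
  obtain ⟨P, Q, hQ, h1⟩ := h1
  refine ⟨-P, Q, hQ, ?_⟩
  filter_upwards [h1] with G e1
  rw [Pi.neg_apply, e1, map_neg, neg_div]

theorem isRegularAt_const (a : k) (F : EndTuple k N d) :
    IsRegularAt (fun _ : Moduli k N d => a) F :=
  ⟨C a, 1, by simp, Filter.Eventually.of_forall fun G => by simp⟩

/-- The local ring of `M_d^N` at the point `m`: the germs at `m` of functions which are defined on
an open neighbourhood `U` of `m` and regular there, i.e. whose pullback to the preimage of `U` in
the space of maps is regular. -/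
def localRing (m : Moduli k N d) : Subring ((nhds m).Germ k) where
  carrier := {g | ∃ (U : Set (Moduli k N d)) (h : Moduli k N d → k), IsOpen U ∧ m ∈ U ∧
    (∀ F : EndTuple k N d, cls F ∈ U → IsRegularAt h F) ∧ g = (h : (nhds m).Germ k)}
  add_mem' := by
    rintro _ _ ⟨U, h, hU, hm, hh, rfl⟩ ⟨U', h', hU', hm', hh', rfl⟩
    exact ⟨U ∩ U', h + h', hU.inter hU', ⟨hm, hm'⟩,
      fun F hF => (hh F hF.1).add (hh' F hF.2), rfl⟩
  mul_mem' := by
    rintro _ _ ⟨U, h, hU, hm, hh, rfl⟩ ⟨U', h', hU', hm', hh', rfl⟩
    exact ⟨U ∩ U', h * h', hU.inter hU', ⟨hm, hm'⟩,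
      fun F hF => (hh F hF.1).mul (hh' F hF.2), rfl⟩
  neg_mem' := by
    rintro _ ⟨U, h, hU, hm, hh, rfl⟩
    exact ⟨U, -h, hU, hm, fun F hF => (hh F hF).neg, rfl⟩
  one_mem' := ⟨Set.univ, fun _ => 1, isOpen_univ, trivial, fun F _ => isRegularAt_const 1 F, rfl⟩
  zero_mem' := ⟨Set.univ, fun _ => 0, isOpen_univ, trivial, fun F _ => isRegularAt_const 0 F, rfl⟩

/-- The singular locus of `M_d^N`: the points whose local ring is not regular. -/
def singularLocus (k : Type) [Field k] (N d : ℕ) : Set (Moduli k N d) :=
  {m | ¬ IsRegularLocalRing (localRing m)}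

/-- `Aut(f) = 1`: every `φ ∈ GL_(N+1)(k)` with `φ⁻¹ ∘ f ∘ φ = f` as a map of projective space (that
is, up to a scalar factor of the coordinate tuple) is a scalar matrix. -/
def AutTrivial (F : EndTuple k N d) : Prop :=
  ∀ (φ : GL (Fin (N + 1)) k) (c : kˣ), (F.1 = fun i => C (c : k) * conj φ F.1 i) →
    ∃ t : k, (φ : Matrix (Fin (N + 1)) (Fin (N + 1)) k) = t • 1

end

end Pool.Agent.TH170.SL
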