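import Pool.Agent.TH170.SL.LocalAlg

/-!
A Jacobian determinant which does not vanish in codimension one does not vanish.
-/

open MvPolynomial

namespace Pool.Agent.TH170.SL

open Pool.Agent.Helper819.Dyn

noncomputable section

set_option linter.unusedSectionVars false

variable {k : Type} [Field k] {ι : Type} [Fintype ι] [DecidableEq ι]

theorem exists_irreducible_factor {f : ι → k} {G : MvPolynomial ι k} (hG : G ≠ 0)
    (h : eval f G = 0) : ∃ D : MvPolynomial ι k, Irreducible D ∧ D ∣ G ∧ eval f D = 0 := by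
  obtain ⟨s, hs, u, hu⟩ := UniqueFactorizationMonoid.exists_prime_factors G hG
  have h1 : eval f s.prod = 0 := by
    have h2 : eval f s.prod * eval f (u : MvPolynomial ι k) = 0 := by rw [← map_mul, hu, h]
    refine (mul_eq_zero.mp h2).resolve_right ?_
    exact ((u.isUnit).map (eval f)).ne_zero
  rw [map_multiset_prod, Multiset.prod_eq_zero_iff, Multiset.mem_map] at h1
  obtain ⟨D, hD, hD0⟩ := h1
  refine ⟨D, (hs D hD).irreducible, ?_, hD0⟩
  exact (Multiset.dvd_prod hD).trans ⟨u, hu.symm⟩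

/-- the matrix of partial derivatives, over the field of rational functions -/
def jacK {τ : Type} (u : τ → KF k ι) (col : τ → ι) : Matrix τ τ (KF k ι) :=
  Matrix.of fun a b => pd (col b) (u a)

/-- the matrix of partial derivatives, over the local ring -/
def jac {f : ι → k} {τ : Type} (u : τ → Rf f) (col : τ → ι) : Matrix τ τ (Rf f) :=
  Matrix.of fun a b => gr (u a) (col b)

theorem jac_map {f : ι → k} {τ : Type} [Fintype τ] [DecidableEq τ] (u : τ → Rf f) (col : τ → ι) :
    ((jac u col).det : KF k ι) = (jacK (fun a => (u a : KF k ι)) col).det := by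
  have h1 := RingHom.map_det ((Rf f).val : Rf f →+* KF k ι) (jac u col)
  exact h1

theorem det_ne_zero {f : ι → k} {τ : Type} [Fintype τ] [DecidableEq τ] (col : τ → ι)
    (y : τ → Rf f)
    (h : ∀ D : MvPolynomial ι k, Irreducible D → eval f D = 0 →
      ∃ (c : ι → k) (u : τ → KF k ι) (huf : ∀ a, u a ∈ Rf f) (huc : ∀ a, u a ∈ Rf c),
        eval c D = 0 ∧ (∀ a, gr (⟨u a, huf a⟩ : Rf f) ∈
          Submodule.span (Rf f) (Set.range fun b => gr (y b))) ∧
        ev c (jac (fun a => (⟨u a, huc a⟩ : Rf c)) col).det ≠ 0) :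
    ev f (jac y col).det ≠ 0 := by
  intro h0
  obtain ⟨P, Q, hQ, hPQ⟩ := mem_Rf.mp (jac y col).det.2
  have hQ0 : am k ι Q ≠ 0 := am_ne_zero (by rintro rfl; simp at hQ)
  have hP : eval f P = 0 := by
    have h1 := ev_eq f (jac y col).det.2 hQ (P := P) (by rw [hPQ]; field_simp)
    have h2 : ev f ⟨((jac y col).det : KF k ι), (jac y col).det.2⟩ = ev f (jac y col).det := rfl
    rw [h2, h0] at h1
    rw [eq_div_iff hQ, zero_mul] at h1
    exact h1.symm
  -- an irreducible divisor through `f`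
  have hD : ∃ D : MvPolynomial ι k, Irreducible D ∧ D ∣ P ∧ eval f D = 0 := by
    by_cases hP0 : P = 0
    · by_cases hτ : IsEmpty τ
      · exfalso
        rw [Matrix.det_isEmpty, map_one] at h0
        exact one_ne_zero h0
      · rw [not_isEmpty_iff] at hτ
        obtain ⟨a⟩ := hτ
        have h1 : (X (col a) - C (f (col a)) : MvPolynomial ι k) ≠ 0 := by
          intro h1
          have h2 := congrArg (eval (fun _ => f (col a) + 1)) h1
          simp at h2
        obtain ⟨D, hD1, hD2, hD3⟩ := exists_irreducible_factor (f := f) h1 (by simp)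
        exact ⟨D, hD1, by rw [hP0]; exact dvd_zero D, hD3⟩
    · exact exists_irreducible_factor hP0 hP
  obtain ⟨D, hD, ⟨P', hP'⟩, hDf⟩ := hD
  obtain ⟨c, u, huf, huc, hDc, hspan, hdet⟩ := h D hD hDf
  -- matrix relation
  have hA : ∃ A : Matrix τ τ (Rf f), jac (fun a => (⟨u a, huf a⟩ : Rf f)) col = A * jac y col := by
    have h1 : ∀ a, ∃ w : τ → Rf f, ∑ b, w b • gr (y b) = gr (⟨u a, huf a⟩ : Rf f) := fun a =>
      (Submodule.mem_span_range_iff_exists_fun (Rf f)).mp (hspan a)
    choose A hA using h1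
    refine ⟨Matrix.of A, Matrix.ext fun a b => ?_⟩
    rw [Matrix.mul_apply]
    change gr (⟨u a, huf a⟩ : Rf f) (col b) = ∑ j, A a j * gr (y j) (col b)
    rw [← hA a, Finset.sum_apply]
    rfl
  obtain ⟨A, hA⟩ := hA
  have hδf : (jacK u col).det = (A.det : KF k ι) * (am k ι P * (am k ι Q)⁻¹) := by
    have h1 := jac_map (fun a => (⟨u a, huf a⟩ : Rf f)) col
    rw [hA, Matrix.det_mul] at h1
    rw [← hPQ]
    exact h1.symm
  have hδc : ((jac (fun a => (⟨u a, huc a⟩ : Rf c)) col).det : KF k ι) = (jacK u col).det :=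
    jac_map (fun a => (⟨u a, huc a⟩ : Rf c)) col
  obtain ⟨N, S, hS, hNS⟩ := mem_Rf.mp A.det.2
  obtain ⟨M, Q', hQ', hMQ⟩ := mem_Rf.mp (jac (fun a => (⟨u a, huc a⟩ : Rf c)) col).det.2
  have hS0 : am k ι S ≠ 0 := am_ne_zero (by rintro rfl; simp at hS)
  have hQ'0 : am k ι Q' ≠ 0 := am_ne_zero (by rintro rfl; simp at hQ')
  have hM : eval c M ≠ 0 := by
    intro hM0
    have h1 := ev_eq c (jac (fun a => (⟨u a, huc a⟩ : Rf c)) col).det.2 hQ' (P := M)
      (by rw [hMQ]; field_simp)
    have h2 : ev c ⟨((jac (fun a => (⟨u a, huc a⟩ : Rf c)) col).det : KF k ι),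
        (jac (fun a => (⟨u a, huc a⟩ : Rf c)) col).det.2⟩ =
        ev c (jac (fun a => (⟨u a, huc a⟩ : Rf c)) col).det := rfl
    rw [h2, hM0, zero_div] at h1
    exact hdet h1
  have hrel : M * (S * Q) = D * (N * P' * Q') := by
    apply am_inj
    have h1 : am k ι M * (am k ι Q')⁻¹ =
        am k ι N * (am k ι S)⁻¹ * (am k ι P * (am k ι Q)⁻¹) := by
      rw [← hMQ, hδc, hδf, hNS]
    rw [hP'] at h1
    simp only [map_mul] at h1 ⊢
    field_simp at h1
    linear_combination h1
  have hdvd : D ∣ M * (S * Q) := ⟨_, hrel⟩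
  rcases hD.prime.dvd_or_dvd hdvd with h1 | h1
  · obtain ⟨M', rfl⟩ := h1
    rw [map_mul, hDc, zero_mul] at hM
    exact hM rfl
  · rcases hD.prime.dvd_or_dvd h1 with h2 | h2
    · obtain ⟨S', rfl⟩ := h2
      rw [map_mul, hDf, zero_mul] at hS
      exact hS rfl
    · obtain ⟨S', rfl⟩ := h2
      rw [map_mul, hDf, zero_mul] at hQ
      exact hQ rfl

end

end Pool.Agent.TH170.SL
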