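import Pool.Agent.TH170.SL.Taylor

/-!
The local ring of affine space at a point has dimension at least the number of coordinates.
-/

open MvPolynomial

namespace Pool.Agent.TH170.SL

open Pool.Agent.Helper819.Dyn

noncomputable section

set_option linter.unusedSectionVars false

variable {k : Type} [Field k] {ι : Type} [Fintype ι] [DecidableEq ι]

instance Rf_regular (f : ι → k) : IsRegularLocalRing (Rf f) := by
  have h1 : IsRegularLocalRing (Localization.AtPrime (mfI f)) :=
    IsRegularRing.isRegularLocalRing_localization (mfI f)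
  exact IsRegularLocalRing.of_ringEquiv (IsLocalization.algEquiv (mfI f).primeCompl
    (Localization.AtPrime (mfI f)) (Rf f)).toRingEquiv

theorem ev_gr_sum {f : ι → k} {σ : Type} [Fintype σ] (a z : σ → Rf f) (hz : ∀ i, ev f (z i) = 0)
    (p : ι) : ev f (gr (∑ i, a i * z i) p) = ∑ i, ev f (a i) * ev f (gr (z i) p) := by
  rw [gr_sum, Finset.sum_apply, map_sum]
  refine Finset.sum_congr rfl fun i _ => ?_
  rw [gr_mul]
  change ev f (a i * gr (z i) p + z i * gr (a i) p) = _
  rw [map_add, map_mul, map_mul, hz, zero_mul, add_zero]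

theorem card_le_spanFinrank (f : ι → k) : Fintype.card ι ≤ (mm f).spanFinrank := by
  classical
  obtain ⟨s, hs1, hs2⟩ := Submodule.FG.exists_span_finset_card_eq_spanFinrank
    (IsNoetherian.noetherian (mm f) : (mm f).FG)
  rw [← hs1]
  have hz : ∀ z : s, ev f (z : Rf f) = 0 := by
    intro z
    rw [← mem_mm, ← hs2]
    exact Submodule.subset_span z.2
  have htop : (⊤ : Submodule k (ι → k)) ≤
      Submodule.span k (Set.range fun (z : s) (p : ι) => ev f (gr (z : Rf f) p)) := by
    intro v _
    have h1 : v = ∑ p, v p • (Pi.single p 1 : ι → k) := pi_eq_sum_univ' v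
    rw [h1]
    refine Submodule.sum_mem _ fun p _ => Submodule.smul_mem _ _ ?_
    have h2 : yv f p ∈ Ideal.span (Set.range fun z : s => (z : Rf f)) := by
      have h3 : yv f p ∈ Submodule.span (Rf f) (s : Set (Rf f)) := by
        rw [hs2]
        exact yv_mem f p
      refine Submodule.span_mono ?_ h3
      intro x hx
      exact ⟨⟨x, hx⟩, rfl⟩
    obtain ⟨a, ha⟩ := Ideal.mem_span_range_iff_exists_fun.mp h2
    have h4 : (Pi.single p 1 : ι → k) = ∑ z : s, ev f (a z) •
        (fun q : ι => ev f (gr (z : Rf f) q)) := by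
      funext q
      have h5 := ev_gr_sum a (fun z : s => (z : Rf f)) hz q
      rw [ha, gr_yv] at h5
      rw [Finset.sum_apply]
      simp only [Pi.smul_apply, smul_eq_mul]
      rw [← h5]
      by_cases h : q = p
      · subst h; simp
      · rw [if_neg h, Pi.single_eq_of_ne h, map_zero]
    rw [h4]
    refine Submodule.sum_mem _ fun z _ => Submodule.smul_mem _ _ ?_
    exact Submodule.subset_span ⟨z, rfl⟩
  have h1 := finrank_range_le_card (R := k) (fun (z : s) (p : ι) => ev f (gr (z : Rf f) p))
  rw [Set.finrank, top_le_iff.mp htop, finrank_top, Module.finrank_fintype_fun_eq_card,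
    Fintype.card_coe] at h1
  exact h1

theorem card_le_height (f : ι → k) : (Fintype.card ι : ℕ∞) ≤ (mm f).height := by
  have h1 := (Rf_regular f).spanFinrank_maximalIdeal
  have h2 := IsLocalRing.maximalIdeal_height_eq_ringKrullDim (R := Rf f)
  rw [← h1] at h2
  have h3 : (mm f).height = ((mm f).spanFinrank : ℕ∞) := by exact_mod_cast h2
  rw [h3]
  exact_mod_cast card_le_spanFinrank f

end

end Pool.Agent.TH170.SL
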