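import Pool.Agent.TH170.SL.Basic

/-!
Weights of diagonal matrices and the codimension count.
-/

open MvPolynomial

namespace Pool.Agent.TH170.SL

open Pool.Agent.Helper819.Apolar Pool.Agent.Helper819.Dyn

noncomputable section

set_option linter.unusedSectionVars false

variable {K : Type} [Field K] {N d : ℕ}

/-- weight of a coefficient under a diagonal matrix -/
def wt (l : Fin (N + 1) → K) (p : Ix N d) : K :=
  (∏ j ∈ Finset.univ.erase p.1, l j) * ∏ j, l j ^ p.2.1 j

theorem coeff_bind_scale (l : Fin (N + 1) → K) (F : MvPolynomial (Fin (N + 1)) K)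
    (m : Fin (N + 1) →₀ ℕ) :
    coeff m (bind₁ (fun a => C (l a) * X a) F) = (∏ j, l j ^ m j) * coeff m F := by
  classical
  induction F using MvPolynomial.induction_on' with
  | monomial m' a =>
    have h1 : bind₁ (fun a => C (l a) * X a) (monomial m' a) =
        C (∏ j, l j ^ m' j) * monomial m' a := by
      rw [bind₁_monomial]
      simp_rw [mul_pow]
      rw [Finset.prod_mul_distrib]
      have h2 : ∏ i ∈ m'.support, (C (l i) : MvPolynomial (Fin (N + 1)) K) ^ m' i =
          C (∏ j, l j ^ m' j) := by
        rw [map_prod]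
        rw [← Finset.prod_subset (Finset.subset_univ m'.support)]
        · exact Finset.prod_congr rfl fun i _ => (C_pow _ _).symm
        · intro i _ hi
          rw [Finsupp.notMem_support_iff.mp hi, pow_zero, C_1]
      rw [h2]
      conv_rhs => rw [monomial_eq]
      rw [Finsupp.prod]
      ring
    rw [h1, coeff_C_mul, coeff_monomial]
    split_ifs with h
    · rw [h]
    · ring
  | add p q hp hq => rw [map_add, coeff_add, coeff_add, hp, hq, mul_add]

theorem actT_diagonal (l : Fin (N + 1) → K) (c : Ix N d → K) (p : Ix N d) :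
    actT (Matrix.diagonal l) c p = wt l p * c p := by
  have h1 : act (Matrix.diagonal l) (tup c) p.1 =
      C (∏ j ∈ Finset.univ.erase p.1, l j) * bind₁ (fun a => C (l a) * X a) (tup c p.1) := by
    unfold act
    rw [Matrix.adjugate_diagonal, Finset.sum_eq_single p.1]
    · rw [Matrix.diagonal_apply_eq]
      congr 2
      congr 1
      funext a
      rw [Finset.sum_eq_single a]
      · rw [Matrix.diagonal_apply_eq]
      · intro b _ hb
        rw [Matrix.diagonal_apply_ne _ hb.symm, C_0, zero_mul]
      · simp
    · intro j _ hj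
      rw [Matrix.diagonal_apply_ne _ hj.symm, C_0, zero_mul]
    · simp
  unfold actT cf
  rw [h1, coeff_C_mul, coeff_bind_scale, coeff_tup]
  unfold wt
  ring

theorem wt_eq_one_iff {l : Fin (N + 1) → K} (hl : ∀ i, l i ≠ 0) (p : Ix N d) :
    wt l p = 1 ↔ l p.1 = (∏ j, l j) * ∏ j, l j ^ p.2.1 j := by
  unfold wt
  rw [← Finset.mul_prod_erase Finset.univ l (Finset.mem_univ p.1)]
  constructor
  · intro h
    rw [mul_assoc, h, mul_one]
  · intro h
    have h1 : l p.1 * ((∏ j ∈ Finset.univ.erase p.1, l j) * ∏ j, l j ^ p.2.1 j) = l p.1 * 1 := by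
      rw [mul_one, ← mul_assoc]
      exact h.symm
    exact mul_left_cancel₀ (hl _) h1

theorem card_Ex : Fintype.card (Ex N d) = (N + d).choose d := by
  rw [Fintype.card_coe, Finset.card_finsuppAntidiag_nat_eq_choose, Finset.card_univ,
    Fintype.card_fin]
  congr 1
  omega

theorem two_mul_le_card_Ex (hN : 1 ≤ N) (hd : 2 ≤ d) (h : ¬ (N = 1 ∧ d = 2)) :
    2 * (N + 1) ≤ Fintype.card (Ex N d) := by
  rw [card_Ex]
  have hmono : ∀ e, 2 ≤ e → ∀ e', e ≤ e' → (N + e).choose e ≤ (N + e').choose e' := by
    intro e _ e' he'
    have h1 : (N + e).choose N = (N + e).choose e := Nat.choose_symm_add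
    have h2 : (N + e').choose N = (N + e').choose e' := Nat.choose_symm_add
    rw [← h1, ← h2]
    exact Nat.choose_le_choose N (by omega)
  by_cases hN1 : N = 1
  · subst hN1
    have h3 : 3 ≤ d := by omega
    refine le_trans ?_ (hmono 3 (by norm_num) d h3)
    decide
  · refine le_trans ?_ (hmono 2 le_rfl d hd)
    rw [Nat.choose_two_right]
    have h2 : 2 ≤ N := by omega
    have h3 : N + 2 - 1 = N + 1 := by omega
    rw [h3]
    rw [Nat.le_div_iff_mul_le (by norm_num)]
    nlinarith

open Classical in
/-- **The codimension count.** -/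
theorem count (hN : 1 ≤ N) (hd : 2 ≤ d) (h : ¬ (N = 1 ∧ d = 2)) {l : Fin (N + 1) → K}
    (hl : ∀ i, l i ≠ 0) (hne : ∃ i j, l i ≠ l j) :
    (Finset.univ.filter fun q : Fin (N + 1) × Fin (N + 1) => l q.1 ≠ l q.2).card + 2 ≤
      (Finset.univ.filter fun p : Ix N d => wt l p ≠ 1).card := by
  -- class sizes
  let cs : Fin (N + 1) → ℕ := fun i => (Finset.univ.filter fun j => l j = l i).card
  obtain ⟨i0, _, hi0⟩ := Finset.exists_max_image (Finset.univ : Finset (Fin (N + 1))) cs
    ⟨0, Finset.mem_univ _⟩
  set M := cs i0 with hM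
  have hM1 : 1 ≤ M := Finset.card_pos.mpr ⟨i0, by simp⟩
  have hMN : M ≤ N := by
    obtain ⟨i, j, hij⟩ := hne
    have h1 : (Finset.univ.filter fun j => l j = l i0) ≠ Finset.univ := by
      intro h2
      have h3 : ∀ a, l a = l i0 := by
        intro a
        have : a ∈ (Finset.univ.filter fun j => l j = l i0) := by rw [h2]; exact Finset.mem_univ a
        simpa using this
      exact hij ((h3 i).trans (h3 j).symm)
    have h2 := Finset.card_lt_card (Finset.ssubset_univ_iff.mpr h1)
    rw [Finset.card_univ, Fintype.card_fin] at h2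
    have : M < N + 1 := h2
    omega
  -- pairs
  have hpairs : (Finset.univ.filter fun q : Fin (N + 1) × Fin (N + 1) => l q.1 ≠ l q.2).card ≤
      M * (N + 1 - M) + (N + 1 - M) * N := by
    have h1 : (Finset.univ.filter fun q : Fin (N + 1) × Fin (N + 1) => l q.1 ≠ l q.2).card =
        ∑ i, (Finset.univ.filter fun j => l i ≠ l j).card := by
      rw [Finset.card_filter, Fintype.sum_prod_type]
      exact Finset.sum_congr rfl fun i _ => (Finset.card_filter _ _).symm
    have h2 : ∀ i, (Finset.univ.filter fun j => l i ≠ l j).card = N + 1 - cs i := by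
      intro i
      have h3 := Finset.card_filter_add_card_filter_not (s := (Finset.univ : Finset (Fin (N + 1))))
        (fun j => l j = l i)
      rw [Finset.card_univ, Fintype.card_fin] at h3
      have h4 : (Finset.univ.filter fun j => l i ≠ l j).card =
          (Finset.univ.filter fun j => ¬ l j = l i).card := by
        congr 1
        ext j
        simp [eq_comm]
      have h5 : cs i + (Finset.univ.filter fun j => ¬ l j = l i).card = N + 1 := h3
      omega
    rw [h1, ← Finset.sum_filter_add_sum_filter_not Finset.univ (fun i => l i = l i0)]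
    refine add_le_add ?_ ?_
    · refine (Finset.sum_le_card_nsmul _ _ (N + 1 - M) fun i hi => ?_).trans ?_
      · have h3 : l i = l i0 := by simpa using hi
        have h4 : cs i = M := by
          change (Finset.univ.filter fun j => l j = l i).card = _
          rw [h3]
        rw [h2, h4]
      · rw [smul_eq_mul]
    · refine (Finset.sum_le_card_nsmul _ _ N fun i hi => ?_).trans ?_
      · rw [h2]
        have : 1 ≤ cs i := Finset.card_pos.mpr ⟨i, by simp⟩
        omega
      · rw [smul_eq_mul]
        apply Nat.mul_le_mul_right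
        have h3 := Finset.card_filter_add_card_filter_not
          (s := (Finset.univ : Finset (Fin (N + 1)))) (fun i => l i = l i0)
        rw [Finset.card_univ, Fintype.card_fin] at h3
        have h4 : M + (Finset.univ.filter fun i => ¬ l i = l i0).card = N + 1 := h3
        omega
  -- the weights
  have hwts : Fintype.card (Ex N d) * (N + 1 - M) ≤
      (Finset.univ.filter fun p : Ix N d => wt l p ≠ 1).card := by
    have h1 : (Finset.univ.filter fun p : Ix N d => wt l p ≠ 1).card =
        ∑ m : Ex N d, (Finset.univ.filter fun i => wt l (i, m) ≠ 1).card := by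
      rw [Finset.card_filter, Fintype.sum_prod_type_right]
      exact Finset.sum_congr rfl fun i _ => (Finset.card_filter _ _).symm
    rw [h1]
    have h2 : ∀ m : Ex N d, N + 1 - M ≤ (Finset.univ.filter fun i => wt l (i, m) ≠ 1).card := by
      intro m
      have h3 := Finset.card_filter_add_card_filter_not (s := (Finset.univ : Finset (Fin (N + 1))))
        (fun i => wt l (i, m) = 1)
      rw [Finset.card_univ, Fintype.card_fin] at h3
      have h4 : (Finset.univ.filter fun i => wt l (i, m) = 1).card ≤ M := by
        rcases (Finset.univ.filter fun i => wt l (i, m) = 1).eq_empty_or_nonempty with h5 | ⟨a, ha⟩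
        · rw [h5]; simp
        · have ha' : wt l (a, m) = 1 := by simpa using ha
          rw [wt_eq_one_iff hl] at ha'
          refine le_trans (Finset.card_le_card ?_) (hi0 a (Finset.mem_univ a))
          intro b hb
          have hb' : wt l (b, m) = 1 := by simpa using hb
          rw [wt_eq_one_iff hl] at hb'
          simp only [Finset.mem_filter, Finset.mem_univ, true_and]
          exact hb'.trans ha'.symm
      have h6 : (Finset.univ.filter fun i => wt l (i, m) ≠ 1).card =
          (Finset.univ.filter fun i => ¬ wt l (i, m) = 1).card := rfl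
      omega
    calc Fintype.card (Ex N d) * (N + 1 - M) = ∑ _m : Ex N d, (N + 1 - M) := by
          rw [Finset.sum_const, Finset.card_univ, smul_eq_mul]
      _ ≤ _ := Finset.sum_le_sum fun m _ => h2 m
  have hE := two_mul_le_card_Ex hN hd h
  obtain ⟨a, ha⟩ : ∃ a, N + 1 - M = a + 1 := ⟨N - M, by omega⟩
  have hN' : N = a + M := by omega
  refine le_trans ?_ hwts
  refine (Nat.add_le_add_right hpairs 2).trans ?_
  rw [ha]
  have h1 : 2 * (N + 1) * (a + 1) ≤ Fintype.card (Ex N d) * (a + 1) := Nat.mul_le_mul_right _ hE
  refine le_trans ?_ h1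
  rw [hN']
  nlinarith

end

end Pool.Agent.TH170.SL
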