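import Pool.Agent.TH170.SL.Span
import Pool.Agent.TH170.SL.Weights

/-!
Every irreducible hypersurface meeting the nondegenerate locus contains points with trivial
stabiliser.
-/

open MvPolynomial

namespace Pool.Agent.TH170.SL

open Pool.Agent.Helper819.Apolar Pool.Agent.Helper819.Dyn

noncomputable section

set_option linter.unusedSectionVars false

variable {k : Type} [Field k] {N d : ℕ}

/-- index of the parameters: a matrix and a coefficient vector -/
abbrev Pm (N d : ℕ) : Type := (Fin (N + 1) × Fin (N + 1)) ⊕ Ix N d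

/-- parameter ring -/
abbrev TT (k : Type) [Field k] (N d : ℕ) : Type := MvPolynomial (Pm N d) k

/-- its field of fractions -/
abbrev KT (k : Type) [Field k] (N d : ℕ) : Type := FractionRing (TT k N d)

/-- generic matrix -/
def gT (k : Type) [Field k] (N d : ℕ) : Matrix (Fin (N + 1)) (Fin (N + 1)) (TT k N d) :=
  Matrix.of fun i j => X (Sum.inl (i, j))

open Classical in
/-- generic vector supported in `S` -/
def cT (k : Type) [Field k] (S : Finset (Ix N d)) : Ix N d → TT k N d :=
  fun p => if p ∈ S then X (Sum.inr p) else 0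

/-- the family of all translates of vectors supported in `S` -/
def xT (k : Type) [Field k] (S : Finset (Ix N d)) : Ix N d → TT k N d :=
  actT (gT k N d) (cT k S)

theorem eval_xT (S : Finset (Ix N d)) (A : Matrix (Fin (N + 1)) (Fin (N + 1)) k)
    (c : Ix N d → k) (hc : ∀ p, p ∉ S → c p = 0) (p : Ix N d) :
    eval (Sum.elim (ent A) c) (xT k S p) = actT A c p := by
  unfold xT
  rw [map_actT]
  congr 1
  · ext i j
    simp [gT, ent]
  · funext q
    unfold cT
    split_ifs with h
    · simp
    · rw [map_zero, hc q h]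

theorem eval_aeval_xT (S : Finset (Ix N d)) (A : Matrix (Fin (N + 1)) (Fin (N + 1)) k)
    (c : Ix N d → k) (hc : ∀ p, p ∉ S → c p = 0) (P : SS k N d) :
    eval (Sum.elim (ent A) c) (aeval (xT k S) P) = eval (actT A c) P := by
  have h1 : eval (Sum.elim (ent A) c) (bind₁ (xT k S) P) =
      eval (fun i => eval (Sum.elim (ent A) c) (xT k S i)) P := eval₂Hom_bind₁ (RingHom.id k) _ _ _
  rw [aeval_eq_bind₁, h1]
  congr 1
  congr 1
  funext p
  exact eval_xT S A c hc p

/-- generic matrix over the field -/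
def gK (k : Type) [Field k] (N d : ℕ) : Matrix (Fin (N + 1)) (Fin (N + 1)) (KT k N d) :=
  (gT k N d).map (algebraMap (TT k N d) (KT k N d))

/-- generic vector over the field -/
def cK (k : Type) [Field k] (S : Finset (Ix N d)) : Ix N d → KT k N d :=
  fun p => algebraMap (TT k N d) (KT k N d) (cT k S p)

/-- generic point over the field -/
def xK (k : Type) [Field k] (S : Finset (Ix N d)) : Ix N d → KT k N d :=
  actT (gK k N d) (cK k S)

theorem gK_det : (gK k N d).det ≠ 0 := by
  have h1 : (gK k N d).det = algebraMap (TT k N d) (KT k N d) (gT k N d).det := by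
    rw [RingHom.map_det]; rfl
  rw [h1, Ne, FaithfulSMul.algebraMap_eq_zero_iff]
  intro h
  have h2 := congrArg (eval (Sum.elim (ent (1 : Matrix (Fin (N + 1)) (Fin (N + 1)) k))
    (fun _ => 0))) h
  rw [map_zero, RingHom.map_det] at h2
  have h3 : (eval (Sum.elim (ent (1 : Matrix (Fin (N + 1)) (Fin (N + 1)) k))
    (fun _ => 0))).mapMatrix (gT k N d) = 1 := by
    ext i j
    simp [gT, ent]
  rw [h3, Matrix.det_one] at h2
  exact one_ne_zero h2

theorem xK_eq (S : Finset (Ix N d)) (p : Ix N d) :
    xK k S p = algebraMap (TT k N d) (KT k N d) (xT k S p) := by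
  unfold xK xT
  rw [map_actT]
  rfl

theorem aeval_xK (S : Finset (Ix N d)) (P : SS k N d) :
    aeval (xK k S) P = algebraMap (TT k N d) (KT k N d) (aeval (xT k S) P) := by
  have h1 := comp_aeval_apply (xT k S) (IsScalarTower.toAlgHom k (TT k N d) (KT k N d)) P
  have h2 : (fun p => IsScalarTower.toAlgHom k (TT k N d) (KT k N d) (xT k S p)) = xK k S := by
    funext p
    exact (xK_eq S p).symm
  rw [h2] at h1
  exact h1.symm

/-- infinitesimal displacement, abstract version -/
theorem displacement' {K : Type} [Field K] [Algebra k K]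
    (M : Matrix (Fin (N + 1)) (Fin (N + 1)) K) (hM : M.det ≠ 0) (c' : Ix N d → K)
    (φ : K →+* DualNumber K) (h1 : ∀ a, (φ a).fst = a) :
    ∃ B : Matrix (Fin (N + 1)) (Fin (N + 1)) K, ∀ p, (φ (actT M c' p)).snd =
      actT M (xi B c' + fun q => (φ (c' q)).snd) p := by
  have hu : IsUnit M.det := isUnit_iff_ne_zero.mpr hM
  let B1 : Matrix (Fin (N + 1)) (Fin (N + 1)) K := Matrix.of fun i j => (φ (M i j)).snd
  have hMφ : M.map φ = (M.map (algebraMap K (DualNumber K))) *
      oneEps (DualNumber.eps : DualNumber K) (M⁻¹ * B1) := by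
    unfold oneEps
    rw [mul_add, mul_one, Matrix.mul_smul, ← Matrix.map_mul, ← mul_assoc,
      Matrix.mul_nonsing_inv _ hu, one_mul]
    refine Matrix.ext fun i j => ?_
    rw [Matrix.add_apply, Matrix.smul_apply, Matrix.map_apply, Matrix.map_apply,
      Matrix.map_apply, smul_eq_mul]
    apply TrivSqZeroExt.ext
    · rw [h1, fst_form]
    · rw [snd_form]
      rfl
  refine ⟨M * (M⁻¹ * B1) * M⁻¹, fun p => ?_⟩
  have h3 : φ (actT M c' p) = actT (M.map φ) (fun p => φ (c' p)) p := map_actT φ M _ p
  have h4 : (fun p => φ (c' p)) = (fun p => algebraMap K (DualNumber K) (c' p)) +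
      (DualNumber.eps : DualNumber K) • (fun p => algebraMap K (DualNumber K) ((φ (c' p)).snd)) := by
    funext q
    simp only [Pi.add_apply, Pi.smul_apply, smul_eq_mul]
    apply TrivSqZeroExt.ext
    · rw [h1, fst_form]
    · rw [snd_form]
  have h5 : ∀ z : Ix N d → K, actT (M.map (algebraMap K (DualNumber K)))
      (fun p => algebraMap K (DualNumber K) (z p)) =
      fun p => algebraMap K (DualNumber K) (actT M z p) := by
    intro z
    funext q
    exact (map_actT (algebraMap K (DualNumber K)) M z q).symm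
  have h6 : actT (M.map (algebraMap K (DualNumber K))) (fun p => φ (c' p)) =
      fun p => algebraMap K (DualNumber K) (actT M c' p) + DualNumber.eps *
        algebraMap K (DualNumber K) (actT M (fun q => (φ (c' q)).snd) p) := by
    rw [h4, actT_add, actT_smul, h5, h5]
    rfl
  rw [h3, hMφ, ← actT_actT, h6, actT_eps' _ DualNumber.eps_mul_eps, snd_form, xi_actT _ _ hM,
    actT_add]
  rfl

theorem xi_fixed {K : Type} [Field K] (A B : Matrix (Fin (N + 1)) (Fin (N + 1)) K)
    (hA : A.det ≠ 0) (c : Ix N d → K) (h1 : actT A c = c) (h2 : A * B = B * A) :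
    actT A (xi B c) = xi B c := by
  have h3 := xi_actT A B hA c
  rw [h1, h2, mul_assoc, Matrix.mul_nonsing_inv _ (isUnit_iff_ne_zero.mpr hA), mul_one] at h3
  exact h3.symm

theorem wt_algebraMap {K : Type} [Field K] [Algebra k K] (l : Fin (N + 1) → k) (p : Ix N d) :
    wt (fun i => algebraMap k K (l i)) p = algebraMap k K (wt l p) := by
  unfold wt
  simp only [map_mul, map_prod, map_pow]

open Classical in
/-- Tangent directions of the family. -/
theorem tangent_bound {K : Type} [Field K] [Algebra k K]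
    (M : Matrix (Fin (N + 1)) (Fin (N + 1)) K) (l : Fin (N + 1) → k)
    (hl : ∀ i, l i ≠ 0) (c' : Ix N d → K) (hc' : ∀ p, wt l p ≠ 1 → c' p = 0)
    (H : Submodule K (Ix N d → K))
    (hH : ∀ z ∈ H, ∃ (B : Matrix (Fin (N + 1)) (Fin (N + 1)) K) (c'' : Ix N d → K),
      (∀ p, wt l p ≠ 1 → c'' p = 0) ∧ z = actT M (xi B c' + c'')) :
    Module.finrank K H ≤
      (Finset.univ.filter fun q : Fin (N + 1) × Fin (N + 1) => l q.1 ≠ l q.2).card +
      (Finset.univ.filter fun p : Ix N d => ¬ wt l p ≠ 1).card := by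
  let s1 : Finset (Ix N d → K) :=
    (Finset.univ.filter fun q : Fin (N + 1) × Fin (N + 1) => l q.1 ≠ l q.2).image
      (fun q => actT M (xi (Matrix.single q.1 q.2 1) c'))
  let s2 : Finset (Ix N d → K) :=
    (Finset.univ.filter fun p : Ix N d => ¬ wt l p ≠ 1).image
      (fun p => actT M (Pi.single p 1))
  let lK : Fin (N + 1) → K := fun i => algebraMap k K (l i)
  have hlK : (Matrix.diagonal lK).det ≠ 0 := by
    rw [Matrix.det_diagonal]
    refine Finset.prod_ne_zero_iff.mpr fun i _ => ?_
    rw [Ne, map_eq_zero]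
    exact hl i
  have hfix : actT (Matrix.diagonal lK) c' = c' := by
    funext p
    rw [actT_diagonal, wt_algebraMap]
    by_cases hp : wt l p = 1
    · rw [hp, map_one, one_mul]
    · rw [hc' p hp, mul_zero]
  -- vectors supported where the weight is one
  have hsupp : ∀ c'' : Ix N d → K, (∀ p, wt l p ≠ 1 → c'' p = 0) →
      actT M c'' ∈ Submodule.span K (s1 ∪ s2 : Finset (Ix N d → K)) := by
    intro c'' hc''
    have h1 : actT M c'' = ∑ p, c'' p • actT M (Pi.single p 1) := by
      funext q
      rw [actT_eq_sum, Finset.sum_apply]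
      rfl
    rw [h1]
    refine Submodule.sum_mem _ fun p _ => ?_
    by_cases hp : wt l p = 1
    · apply Submodule.smul_mem
      apply Submodule.subset_span
      apply Finset.mem_coe.mpr
      apply Finset.mem_union_right
      apply Finset.mem_image_of_mem
      simp [hp]
    · rw [hc'' p hp, zero_smul]
      exact zero_mem _
  have hle : H ≤ Submodule.span K (s1 ∪ s2 : Finset (Ix N d → K)) := by
    intro z hz
    obtain ⟨B, c'', h1, rfl⟩ := hH z hz
    rw [actT_add]
    refine Submodule.add_mem _ ?_ (hsupp c'' h1)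
    have h2 : actT M (xi B c') = ∑ i, ∑ j, B i j • actT M (xi (Matrix.single i j 1) c') := by
      rw [xi_E_sum B c']
      change actL M _ = _
      rw [map_sum]
      refine Finset.sum_congr rfl fun i _ => ?_
      rw [map_sum]
      refine Finset.sum_congr rfl fun j _ => ?_
      rw [map_smul]
      rfl
    rw [h2]
    refine Submodule.sum_mem _ fun i _ => Submodule.sum_mem _ fun j _ => ?_
    apply Submodule.smul_mem
    by_cases hij : l i = l j
    · apply hsupp
      intro p hp
      have h3 := congrFun (xi_fixed (Matrix.diagonal lK) (Matrix.single i j 1) hlK c' hfix (by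
        ext a b
        rw [Matrix.diagonal_mul, Matrix.mul_diagonal, Matrix.single_apply]
        split_ifs with h
        · rw [← h.1, ← h.2, mul_one, one_mul]
          change algebraMap k K (l i) = algebraMap k K (l j)
          rw [hij]
        · rw [mul_zero, zero_mul])) p
      rw [actT_diagonal, wt_algebraMap] at h3
      by_contra hne
      apply hp
      have h4 := mul_right_cancel₀ hne (h3.trans (one_mul _).symm)
      exact (algebraMap k K).injective (h4.trans (map_one _).symm)
    · apply Submodule.subset_span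
      apply Finset.mem_coe.mpr
      apply Finset.mem_union_left
      exact Finset.mem_image.mpr ⟨(i, j), by simpa using hij, rfl⟩
  calc Module.finrank K H ≤ Module.finrank K (Submodule.span K
        ((s1 ∪ s2 : Finset (Ix N d → K)) : Set (Ix N d → K))) := Submodule.finrank_mono hle
    _ ≤ (s1 ∪ s2).card := finrank_span_finset_le_card _
    _ ≤ s1.card + s2.card := Finset.card_union_le _ _
    _ ≤ _ := add_le_add Finset.card_image_le Finset.card_image_le

theorem finrank_hyperplane {K ι : Type} [Field K] [Fintype ι] (g : ι → K) :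
    Fintype.card ι ≤ Module.finrank K
      (LinearMap.ker (∑ p, g p • LinearMap.proj p : (ι → K) →ₗ[K] K)) + 1 := by
  have h1 := LinearMap.finrank_range_add_finrank_ker
    (∑ p, g p • LinearMap.proj p : (ι → K) →ₗ[K] K)
  have h2 : Module.finrank K (LinearMap.range (∑ p, g p • LinearMap.proj p : (ι → K) →ₗ[K] K)) ≤
      1 := by
    have := Submodule.finrank_le (LinearMap.range
      (∑ p, g p • LinearMap.proj p : (ι → K) →ₗ[K] K))
    simpa using this
  rw [Module.finrank_fintype_fun_eq_card] at h1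
  omega

theorem deriv_cond {K : Type} [Field K] [Algebra k K] (x : Ix N d → K) (D : SS k N d)
    (hD : Irreducible D) (hker : ∀ P : SS k N d, aeval x P = 0 → D ∣ P) (z : Ix N d → K)
    (hz : ∑ p, z p * aeval x (pderiv p D) = 0) (P : SS k N d) (hP : aeval x P = 0) :
    ∑ p, z p * aeval x (pderiv p P) = 0 := by
  by_cases hD0 : aeval x D = 0
  · obtain ⟨Q, rfl⟩ := hker P hP
    have h1 : ∀ p, z p * aeval x (pderiv p (D * Q)) = aeval x Q * (z p * aeval x (pderiv p D)) := by
      intro p
      rw [Derivation.leibniz]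
      simp only [smul_eq_mul, map_add, map_mul, hD0, zero_mul, zero_add]
      ring
    simp_rw [h1]
    rw [← Finset.mul_sum, hz, mul_zero]
  · by_cases hP0 : P = 0
    · rw [hP0]; simp
    · exfalso
      obtain ⟨n, Q, hQ1, hQ2⟩ := WfDvdMonoid.max_power_factor hP0 hD
      apply hQ1
      apply hker
      rw [hQ2, map_mul, map_pow] at hP
      exact (mul_eq_zero.mp hP).resolve_left (pow_ne_zero _ hD0)

variable [IsAlgClosed k] [CharZero k]

open Classical in
/-- The closure of the translates of vectors with nonscalar automorphisms contains no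
hypersurface. -/
theorem exists_not_dvd (hN : 1 ≤ N) (hd : 2 ≤ d) (h : ¬ (N = 1 ∧ d = 2)) (D : SS k N d)
    (hD : Irreducible D) (l : Fin (N + 1) → k) (hl : ∀ i, l i ≠ 0) (hne : ∃ i j, l i ≠ l j)
    (S : Finset (Ix N d)) (hS : ∀ p, p ∈ S ↔ wt l p = 1) :
    ∃ P : SS k N d, aeval (xT k S) P = 0 ∧ ¬ D ∣ P := by
  by_contra hcon
  push Not at hcon
  have hker : ∀ P : SS k N d, aeval (xK k S) P = 0 → D ∣ P := by
    intro P hP
    apply hcon
    rw [aeval_xK, FaithfulSMul.algebraMap_eq_zero_iff] at hP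
    exact hP
  have hbound := tangent_bound (K := KT k N d) (gK k N d) l hl (cK k S) (by
    intro p hp
    unfold cK cT
    rw [if_neg (fun h => hp ((hS p).mp h)), map_zero])
    (LinearMap.ker (∑ p, aeval (xK k S) (pderiv p D) • LinearMap.proj p :
      (Ix N d → KT k N d) →ₗ[KT k N d] KT k N d)) (by
    intro z hz
    have hz' : ∑ p, z p * aeval (xK k S) (pderiv p D) = 0 := by
      rw [LinearMap.mem_ker] at hz
      rw [← hz, LinearMap.sum_apply]
      exact Finset.sum_congr rfl fun p _ => by simp [mul_comm]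
    obtain ⟨φ, hφ1, hφ2, hφ3⟩ := exists_dual_ext (k := k) (xK k S) z
      (deriv_cond (xK k S) D hD hker z hz')
    obtain ⟨B, hB⟩ := displacement' (k := k) (gK k N d) gK_det (cK k S) φ hφ1
    refine ⟨B, fun q => (φ (cK k S q)).snd, fun p hp => ?_, ?_⟩
    · have h1 : cK k S p = 0 := by
        unfold cK cT
        rw [if_neg (fun h => hp ((hS p).mp h)), map_zero]
      change TrivSqZeroExt.snd (φ (cK k S p)) = 0
      rw [h1, map_zero]
      rfl
    · funext p
      rw [← hφ3 p]
      exact hB p)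
  have hge := finrank_hyperplane (K := KT k N d) (fun p : Ix N d => aeval (xK k S) (pderiv p D))
  have hcount := count hN hd h hl hne
  have hcard := Finset.card_filter_add_card_filter_not (s := (Finset.univ : Finset (Ix N d)))
    (fun p => wt l p ≠ 1)
  rw [Finset.card_univ] at hcard
  omega

theorem dvd_of_vanish (D : SS k N d) (hD : Irreducible D) (G : SS k N d)
    (h : ∀ c : Ix N d → k, eval c D = 0 → eval c G = 0) : D ∣ G := by
  have h1 : G ∈ (Ideal.span {D}).radical := by
    rw [← vanishingIdeal_zeroLocus_eq_radical (K := k), mem_vanishingIdeal_iff]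
    intro x hx
    have h2 : aeval x D = 0 := (mem_zeroLocus_iff.mp hx) D (Ideal.subset_span rfl)
    have h3 := h x (by rw [← coe_aeval_eq_eval]; exact h2)
    rw [← coe_aeval_eq_eval] at h3
    exact h3
  obtain ⟨n, hn⟩ := h1
  rw [Ideal.mem_span_singleton] at hn
  exact hD.prime.dvd_of_dvd_pow hn

theorem scalar_of_diag {A g : Matrix (Fin (N + 1)) (Fin (N + 1)) k} {l : Fin (N + 1) → k}
    (hg : g.det ≠ 0) (h : A * g = g * Matrix.diagonal l) (hl : ∀ i j, l i = l j) :
    ∃ t : k, A = t • 1 := by
  refine ⟨l 0, ?_⟩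
  have h1 : Matrix.diagonal l = l 0 • (1 : Matrix (Fin (N + 1)) (Fin (N + 1)) k) := by
    ext i j
    rw [Matrix.smul_apply, Matrix.diagonal_apply, Matrix.one_apply]
    split_ifs with h2
    · rw [hl i 0, smul_eq_mul, mul_one]
    · rw [smul_zero]
  have h2 := congrArg (fun Y => Y * g⁻¹) h
  simp only [mul_assoc, Matrix.mul_nonsing_inv _ (isUnit_iff_ne_zero.mpr hg), mul_one, h1,
    Matrix.smul_mul, Matrix.mul_smul] at h2
  exact h2

/-- Structure of vectors with a nonscalar automorphism. -/
theorem exists_weight (hd : 2 ≤ d) {c : Ix N d → k} (hc : NZ (tup c)) (hnt : ¬ Triv c) :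
    ∃ (g : Matrix (Fin (N + 1)) (Fin (N + 1)) k) (l : Fin (N + 1) → k), g.det ≠ 0 ∧
      (∀ i, l i ≠ 0) ∧ (∃ i j, l i ≠ l j) ∧ ∀ p, wt l p ≠ 1 → actT g c p = 0 := by
  unfold Triv at hnt
  push Not at hnt
  obtain ⟨A, hA, hAc, hAs⟩ := hnt
  obtain ⟨g, l, hg, hgl⟩ := exists_diag hd hc A hA hAc
  have hl : ∀ i, l i ≠ 0 := by
    have h1 := congrArg Matrix.det hgl
    rw [Matrix.det_mul, Matrix.det_mul, Matrix.det_diagonal] at h1
    have h2 : (∏ i, l i) ≠ 0 := by
      intro h0
      rw [h0, mul_zero] at h1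
      exact mul_ne_zero hA hg h1
    intro i
    exact Finset.prod_ne_zero_iff.mp h2 i (Finset.mem_univ i)
  refine ⟨g, l, hg, hl, ?_, fun p hp => ?_⟩
  · by_contra hcon
    push Not at hcon
    obtain ⟨t, ht⟩ := scalar_of_diag hg hgl hcon
    exact hAs t ht
  · have h1 : actT (Matrix.diagonal l) (actT g c) = actT g c := by
      rw [actT_actT, ← hgl, ← actT_actT, hAc]
    have h2 := congrFun h1 p
    rw [actT_diagonal] at h2
    by_contra hne
    apply hp
    exact mul_right_cancel₀ hne (h2.trans (one_mul _).symm)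

/-- **Generic triviality on hypersurfaces.** -/
theorem exists_triv_on_divisor (hN : 1 ≤ N) (hd : 2 ≤ d) (h : ¬ (N = 1 ∧ d = 2))
    {f : Ix N d → k} (hf : NZ (tup f)) (D : SS k N d) (hD : Irreducible D) (hDf : eval f D = 0)
    (E : SS k N d) (hE : ¬ D ∣ E) :
    ∃ c : Ix N d → k, eval c D = 0 ∧ eval c E ≠ 0 ∧ NZ (tup c) ∧ Triv c := by
  classical
  obtain ⟨P1, hP1f, hP1⟩ := exists_open hf
  have hP1D : ¬ D ∣ P1 := by
    rintro ⟨Q, rfl⟩
    rw [map_mul, hDf, zero_mul] at hP1f
    exact hP1f rfl
  -- a polynomial for each support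
  have key : ∀ S : Finset (Ix N d), ∃ P : SS k N d, ¬ D ∣ P ∧
      ((∃ l : Fin (N + 1) → k, (∀ i, l i ≠ 0) ∧ (∃ i j, l i ≠ l j) ∧
        ∀ p, p ∈ S ↔ wt l p = 1) → aeval (xT k S) P = 0) := by
    intro S
    by_cases hS : ∃ l : Fin (N + 1) → k, (∀ i, l i ≠ 0) ∧ (∃ i j, l i ≠ l j) ∧
        ∀ p, p ∈ S ↔ wt l p = 1
    · obtain ⟨l, hl, hne, hSl⟩ := hS
      obtain ⟨P, hP, hPD⟩ := exists_not_dvd hN hd h D hD l hl hne S hSl
      exact ⟨P, hPD, fun _ => hP⟩
    · exact ⟨1, fun h1 => hD.not_isUnit (isUnit_of_dvd_one h1), fun h1 => absurd h1 hS⟩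
  choose P hPD hP using key
  have hprod : ¬ D ∣ (∏ S : Finset (Ix N d), P S) * (E * P1) := by
    intro hdvd
    rcases hD.prime.dvd_or_dvd hdvd with h1 | h1
    · obtain ⟨S, _, hS⟩ := (Prime.dvd_finsetProd_iff hD.prime _).mp h1
      exact hPD S hS
    · rcases hD.prime.dvd_or_dvd h1 with h2 | h2
      · exact hE h2
      · exact hP1D h2
  have hex : ∃ c : Ix N d → k, eval c D = 0 ∧
      eval c ((∏ S : Finset (Ix N d), P S) * (E * P1)) ≠ 0 := by
    by_contra hcon
    push Not at hcon
    exact hprod (dvd_of_vanish D hD _ hcon)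
  obtain ⟨c, hcD, hc⟩ := hex
  rw [map_mul, map_mul, map_prod] at hc
  have hc1 := left_ne_zero_of_mul hc
  have hc2 := left_ne_zero_of_mul (right_ne_zero_of_mul hc)
  have hc3 := right_ne_zero_of_mul (right_ne_zero_of_mul hc)
  have hNZ := hP1 c hc3
  refine ⟨c, hcD, hc2, hNZ, ?_⟩
  by_contra hnt
  obtain ⟨g, l, hg, hl, hne, hw⟩ := exists_weight hd hNZ hnt
  let S : Finset (Ix N d) := Finset.univ.filter fun p => wt l p = 1
  have hS : ∀ p, p ∈ S ↔ wt l p = 1 := fun p => by simp [S]
  have h1 := hP S ⟨l, hl, hne, hS⟩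
  have h2 := eval_aeval_xT S g⁻¹ (actT g c) (fun p hp => hw p (fun h => hp ((hS p).mpr h))) (P S)
  rw [h1, map_zero, actT_actT, Matrix.mul_nonsing_inv _ (isUnit_iff_ne_zero.mpr hg),
    actT_one] at h2
  exact Finset.prod_ne_zero_iff.mp hc1 S (Finset.mem_univ S) h2.symm

end

end Pool.Agent.TH170.SL
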