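import Pool.Agent.Helper819.Desc

/-!
Partial derivatives of rational functions, local rings of affine space at points.
-/

open MvPolynomial

namespace Pool.Agent.TH170.SL

open Pool.Agent.Helper819.Dyn

noncomputable section

set_option linter.unusedSectionVars false

variable {k : Type} [Field k] {ι : Type} [Fintype ι]

/-- rational functions -/
abbrev KF (k : Type) [Field k] (ι : Type) : Type := FractionRing (MvPolynomial ι k)

/-- polynomials as rational functions -/
abbrev am (k : Type) [Field k] (ι : Type) : MvPolynomial ι k →+* KF k ι :=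
  algebraMap (MvPolynomial ι k) (KF k ι)

theorem am_inj : Function.Injective (am k ι) :=
  IsFractionRing.injective (MvPolynomial ι k) (KF k ι)

theorem am_ne_zero {P : MvPolynomial ι k} (hP : P ≠ 0) : am k ι P ≠ 0 := by
  rw [Ne, FaithfulSMul.algebraMap_eq_zero_iff]
  exact hP

theorem derivation_ext {D D' : Derivation k (KF k ι) (KF k ι)}
    (h : ∀ p, D (am k ι (X p)) = D' (am k ι (X p))) : D = D' := by
  have h1 : ∀ P : MvPolynomial ι k, D (am k ι P) = D' (am k ι P) := by
    intro P
    induction P using MvPolynomial.induction_on with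
    | C a =>
      have e1 : am k ι (C a) = algebraMap k (KF k ι) a :=
        (IsScalarTower.algebraMap_apply k (MvPolynomial ι k) (KF k ι) a).symm
      rw [e1, D.map_algebraMap, D'.map_algebraMap]
    | add P Q hP hQ => rw [map_add, map_add, map_add, hP, hQ]
    | mul_X P i hP => rw [map_mul, D.leibniz, D'.leibniz, hP, h]
  ext u
  obtain ⟨P, Q, hQ, rfl⟩ := IsFractionRing.div_surjective (A := MvPolynomial ι k) u
  have hQ0 : am k ι Q ≠ 0 := am_ne_zero (nonZeroDivisors.ne_zero hQ)
  have h2 : ∀ D : Derivation k (KF k ι) (KF k ι), am k ι Q * D (am k ι P / am k ι Q) =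
      D (am k ι P) - (am k ι P / am k ι Q) * D (am k ι Q) := by
    intro D
    have e1 : am k ι P = am k ι Q * (am k ι P / am k ι Q) := by field_simp
    have e2 := congrArg D e1
    rw [D.leibniz, smul_eq_mul, smul_eq_mul] at e2
    rw [e2]
    ring
  have h3 := h2 D
  rw [h1 P, h1 Q, ← h2 D'] at h3
  exact mul_left_cancel₀ hQ0 h3

/-- a derivation from a homomorphism to the dual numbers -/
def derOf {K : Type} [Field K] [Algebra k K] (φ : K →+* DualNumber K) (h1 : ∀ a, (φ a).fst = a)
    (h2 : ∀ a : k, (φ (algebraMap k K a)).snd = 0) : Derivation k K K where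
  toFun a := (φ a).snd
  map_add' a b := by rw [map_add]; rfl
  map_smul' r a := by
    rw [Algebra.smul_def, map_mul, DualNumber.snd_mul, h2, h1, zero_mul, add_zero,
      RingHom.id_apply, Algebra.smul_def]
  map_one_eq_zero' := by
    change (φ 1).snd = 0
    rw [map_one]; rfl
  leibniz' a b := by
    change (φ (a * b)).snd = a • (φ b).snd + b • (φ a).snd
    rw [map_mul, DualNumber.snd_mul, h1, h1, smul_eq_mul, smul_eq_mul]
    ring

theorem derOf_apply {K : Type} [Field K] [Algebra k K] (φ : K →+* DualNumber K)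
    (h1 : ∀ a, (φ a).fst = a) (h2 : ∀ a : k, (φ (algebraMap k K a)).snd = 0) (a : K) :
    derOf φ h1 h2 a = (φ a).snd := rfl

/-- homomorphism to dual numbers attached to a vector field with polynomial argument -/
def psi0 (v : ι → KF k ι) : MvPolynomial ι k →ₐ[k] DualNumber (KF k ι) :=
  aeval (fun p => algebraMap (KF k ι) (DualNumber (KF k ι)) (am k ι (X p)) +
    DualNumber.eps * algebraMap (KF k ι) (DualNumber (KF k ι)) (v p))

theorem aeval_amX (P : MvPolynomial ι k) : aeval (fun p => am k ι (X p)) P = am k ι P := by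
  have h1 : IsScalarTower.toAlgHom k (MvPolynomial ι k) (KF k ι) =
      aeval (fun p => am k ι (X p)) := by
    apply algHom_ext
    intro p
    rw [aeval_X]
    rfl
  exact (congrArg (fun φ : MvPolynomial ι k →ₐ[k] KF k ι => φ P) h1).symm

theorem psi0_apply (v : ι → KF k ι) (P : MvPolynomial ι k) :
    psi0 v P = algebraMap (KF k ι) (DualNumber (KF k ι)) (am k ι P) +
      DualNumber.eps * algebraMap (KF k ι) (DualNumber (KF k ι))
        (∑ p, v p * am k ι (pderiv p P)) := by
  unfold psi0
  rw [aeval_dual]
  simp_rw [aeval_amX]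

theorem psi0_unit (v : ι → KF k ι) (y : nonZeroDivisors (MvPolynomial ι k)) :
    IsUnit ((psi0 v).toRingHom y) := by
  rw [TrivSqZeroExt.isUnit_iff_isUnit_fst]
  change IsUnit ((psi0 v y).fst)
  rw [psi0_apply, fst_form]
  exact isUnit_iff_ne_zero.mpr (am_ne_zero (nonZeroDivisors.ne_zero y.2))

/-- the extension to rational functions -/
def psi (v : ι → KF k ι) : KF k ι →+* DualNumber (KF k ι) :=
  IsLocalization.lift (M := nonZeroDivisors (MvPolynomial ι k)) (psi0_unit v)

theorem psi_am (v : ι → KF k ι) (P : MvPolynomial ι k) : psi v (am k ι P) = psi0 v P :=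
  IsLocalization.lift_eq (psi0_unit v) P

theorem psi_fst (v : ι → KF k ι) (u : KF k ι) : (psi v u).fst = u := by
  have h1 : (TrivSqZeroExt.fstHom (KF k ι) (KF k ι) (KF k ι)).toRingHom.comp (psi v) =
      RingHom.id _ := by
    apply IsLocalization.ringHom_ext (nonZeroDivisors (MvPolynomial ι k))
    refine RingHom.ext fun P => ?_
    change (psi v (am k ι P)).fst = am k ι P
    rw [psi_am, psi0_apply, fst_form]
  exact congrFun (congrArg DFunLike.coe h1) u

/-- directional derivative of rational functions -/
def dv (v : ι → KF k ι) : Derivation k (KF k ι) (KF k ι) :=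
  derOf (psi v) (psi_fst v) (by
    intro a
    have e1 : algebraMap k (KF k ι) a = am k ι (C a) :=
      IsScalarTower.algebraMap_apply k (MvPolynomial ι k) (KF k ι) a
    rw [e1, psi_am, psi0_apply, snd_form]
    simp)

theorem dv_am (v : ι → KF k ι) (P : MvPolynomial ι k) :
    dv v (am k ι P) = ∑ p, v p * am k ι (pderiv p P) := by
  change (psi v (am k ι P)).snd = _
  rw [psi_am, psi0_apply, snd_form]

variable [DecidableEq ι]

/-- partial derivative -/
def pd (p : ι) : Derivation k (KF k ι) (KF k ι) := dv (Pi.single p 1)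

theorem pd_am (p : ι) (P : MvPolynomial ι k) : pd p (am k ι P) = am k ι (pderiv p P) := by
  unfold pd
  rw [dv_am, Finset.sum_eq_single p]
  · simp
  · intro q _ hq
    simp [hq]
  · simp

theorem der_sum_apply {K : Type} [Field K] [Algebra k K] {σ : Type} (s : Finset σ)
    (D : σ → Derivation k K K) (u : K) : (∑ i ∈ s, D i) u = ∑ i ∈ s, D i u := by
  classical
  induction s using Finset.induction_on with
  | empty => simp
  | insert a s ha ih => rw [Finset.sum_insert ha, Finset.sum_insert ha, Derivation.add_apply, ih]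

/-- Every derivation is a combination of partial derivatives. -/
theorem derivation_eq_sum (D : Derivation k (KF k ι) (KF k ι)) (u : KF k ι) :
    D u = ∑ p, D (am k ι (X p)) * pd p u := by
  have h1 : D = ∑ p, D (am k ι (X p)) • pd p := by
    apply derivation_ext
    intro q
    rw [der_sum_apply, Finset.sum_eq_single q]
    · rw [Derivation.smul_apply, pd_am, pderiv_X_self, map_one, smul_eq_mul, mul_one]
    · intro p _ hp
      rw [Derivation.smul_apply, pd_am, pderiv_X_of_ne hp.symm, map_zero, smul_zero]
    · simp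
  conv_lhs => rw [h1]
  rw [der_sum_apply]
  rfl

theorem pd_div (p : ι) (P Q : MvPolynomial ι k) (hQ : Q ≠ 0) :
    pd p (am k ι P * (am k ι Q)⁻¹) =
      am k ι (Q * pderiv p P - P * pderiv p Q) * (am k ι (Q * Q))⁻¹ := by
  have hQ0 : am k ι Q ≠ 0 := am_ne_zero hQ
  obtain ⟨u, hu⟩ : ∃ u, u = am k ι P * (am k ι Q)⁻¹ := ⟨_, rfl⟩
  have e1 : am k ι P = am k ι Q * u := by rw [hu]; field_simp
  have e2 := congrArg (pd p) e1
  rw [(pd p).leibniz, smul_eq_mul, smul_eq_mul, pd_am, pd_am] at e2
  rw [← hu, map_sub, map_mul, map_mul, map_mul, eq_mul_inv_iff_mul_eq₀ (mul_ne_zero hQ0 hQ0)]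
  rw [e1]
  linear_combination -(am k ι Q) * e2

end

end Pool.Agent.TH170.SL
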