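import Pool.Agent.TH170.SL.Orbit

/-!
The functional `lam ∘ A⁻¹` at the generic point of the orbit and its descent.
-/

open MvPolynomial

namespace Pool.Agent.TH170.SL

open Pool.Agent.Helper819.Apolar Pool.Agent.Helper819.Dyn

noncomputable section

set_option linter.unusedSectionVars false

variable {k : Type} [Field k] {N d : ℕ}

/-- `p ↦ lam (A⁻¹ e_p)` -/
def muK {K : Type} [Field K] [Algebra k K] (lam : Ix N d → k)
    (A : Matrix (Fin (N + 1)) (Fin (N + 1)) K) (p : Ix N d) : K :=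
  ∑ q, algebraMap k K (lam q) * actT A⁻¹ (Pi.single p 1 : Ix N d → K) q

theorem actT_eq_sum {R : Type} [CommRing R] (A : Matrix (Fin (N + 1)) (Fin (N + 1)) R)
    (z : Ix N d → R) (q : Ix N d) :
    actT A z q = ∑ p, z p * actT A (Pi.single p 1 : Ix N d → R) q := by
  have h1 : z = ∑ p, z p • (Pi.single p 1 : Ix N d → R) := by
    funext q
    rw [Finset.sum_apply, Finset.sum_eq_single q]
    · simp
    · intro b _ hb
      simp [hb.symm]
    · simp
  conv_lhs => rw [h1]
  change (actL A) _ q = _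
  rw [map_sum, Finset.sum_apply]
  refine Finset.sum_congr rfl fun p _ => ?_
  rw [map_smul]
  rfl

theorem muK_apply {K : Type} [Field K] [Algebra k K] (lam : Ix N d → k)
    (A : Matrix (Fin (N + 1)) (Fin (N + 1)) K) (z : Ix N d → K) :
    ∑ p, muK lam A p * z p = ∑ q, algebraMap k K (lam q) * actT A⁻¹ z q := by
  unfold muK
  simp_rw [Finset.sum_mul]
  rw [Finset.sum_comm]
  refine Finset.sum_congr rfl fun q _ => ?_
  rw [actT_eq_sum A⁻¹ z q, Finset.mul_sum]
  exact Finset.sum_congr rfl fun p _ => by ring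

theorem muK_map {K Ω : Type} [Field K] [Algebra k K] [Field Ω] [Algebra k Ω] (σ : K →+* Ω)
    (hσ : ∀ a : k, σ (algebraMap k K a) = algebraMap k Ω a) (lam : Ix N d → k)
    (A : Matrix (Fin (N + 1)) (Fin (N + 1)) K) (hA : A.det ≠ 0) (p : Ix N d) :
    σ (muK lam A p) = muK lam (A.map σ) p := by
  unfold muK
  rw [map_sum]
  refine Finset.sum_congr rfl fun q _ => ?_
  rw [map_mul, hσ, map_actT]
  have h1 : A⁻¹.map σ = (A.map σ)⁻¹ := by
    symm
    apply Matrix.inv_eq_right_inv
    rw [← Matrix.map_mul, Matrix.mul_nonsing_inv _ (isUnit_iff_ne_zero.mpr hA)]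
    simp
  rw [h1]
  congr 2
  funext r
  by_cases h : r = p
  · subst h; simp
  · simp [h]

theorem muK_smul {K : Type} [Field K] [Algebra k K] (lam : Ix N d → k)
    (A : Matrix (Fin (N + 1)) (Fin (N + 1)) K) (t : K) (ht0 : t ≠ 0) (ht : t ^ (N + d) = 1)
    (p : Ix N d) : muK lam (t • A) p = muK lam A p := by
  unfold muK
  refine Finset.sum_congr rfl fun q _ => ?_
  have h1 : (t • A)⁻¹ = t⁻¹ • A⁻¹ := by
    by_cases hA : IsUnit A.det
    · exact Matrix.inv_smul' A (Units.mk0 t ht0) hA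
    · rw [Matrix.nonsing_inv_apply_not_isUnit _ hA, smul_zero]
      apply Matrix.nonsing_inv_apply_not_isUnit
      rw [Matrix.det_smul]
      intro h
      exact hA (isUnit_of_mul_isUnit_right h)
  rw [h1, actT_smul_mat, Pi.smul_apply, inv_pow, ht, inv_one, one_smul]

variable [IsAlgClosed k] [CharZero k]

theorem muK_fixed {c : Ix N d → k} (hc0 : c ≠ 0) (ht : Triv c) (lam : Ix N d → k)
    {Ω : Type} [Field Ω]
    [Algebra k Ω] [Algebra (LL k N) Ω] [IsScalarTower k (LL k N) Ω] (σ : LL k N →+* Ω)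
    (h1 : ∀ a : k, σ (algebraMap k (LL k N) a) = algebraMap k Ω a)
    (h2 : ∀ p, σ (xx c p) = algebraMap (LL k N) Ω (xx c p)) (p : Ix N d) :
    σ (muK lam (MM k N) p) = algebraMap (LL k N) Ω (muK lam (MM k N) p) := by
  obtain ⟨t, ht1, ht0, ht2⟩ := embedding_scalar hc0 ht σ h1 h2
  rw [muK_map σ h1 lam _ MM_det, muK_map (algebraMap (LL k N) Ω)
    (fun a => (IsScalarTower.algebraMap_apply k (LL k N) Ω a).symm) lam _ MM_det, ht2,
    muK_smul lam _ t ht0 ht1]

/-- The coordinates of the functional are rational functions on the orbit. -/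
theorem muK_mem (hd : 2 ≤ d) {c : Ix N d → k} (hc : NZ (tup c)) (ht : Triv c)
    (lam : Ix N d → k) (p : Ix N d) :
    muK lam (MM k N) p ∈ IntermediateField.adjoin k (Set.range (xx c)) := by
  have := separable hd hc
  obtain ⟨P, Q, hQ, hPQ⟩ := mem_of_embeddings (k := k) (xx c) (muK lam (MM k N) p) (by
    intro σ h1 h2
    exact muK_fixed (ne_zero_of_NZ hc) ht lam σ h1 h2 p)
  rw [IntermediateField.mem_adjoin_range_iff]
  exact ⟨P, Q, by rw [← hPQ]; field_simp⟩

/-- The set of functionals which are, up to a function not vanishing on the orbit, differentials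
of polynomials vanishing on the orbit. -/
def VV (c : Ix N d → k) :
    Submodule (IntermediateField.adjoin k (Set.range (xx c)))
      (Ix N d → IntermediateField.adjoin k (Set.range (xx c))) where
  carrier := {ν | ∃ Q P : SS k N d, aeval (xx c) Q ≠ 0 ∧ aeval (xx c) P = 0 ∧
    ∀ p, aeval (xx c) (pderiv p P) = aeval (xx c) Q * (ν p : LL k N)}
  zero_mem' := ⟨1, 0, by simp, by simp, fun p => by simp⟩
  add_mem' := by
    rintro ν ν' ⟨Q, P, hQ, hP, h⟩ ⟨Q', P', hQ', hP', h'⟩
    refine ⟨Q * Q', Q' * P + Q * P', ?_, ?_, fun p => ?_⟩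
    · rw [map_mul]; exact mul_ne_zero hQ hQ'
    · rw [map_add, map_mul, map_mul, hP, hP', mul_zero, mul_zero, add_zero]
    · rw [map_add, Derivation.leibniz, Derivation.leibniz]
      simp only [smul_eq_mul, map_add, map_mul, hP, hP', h, h', zero_mul, add_zero,
        Pi.add_apply]
      push_cast
      ring
  smul_mem' := by
    rintro a ν ⟨Q, P, hQ, hP, h⟩
    obtain ⟨R1, R2, hR⟩ := (IntermediateField.mem_adjoin_range_iff k (xx c) (a : LL k N)).mp a.2
    by_cases hR2 : aeval (xx c) R2 = 0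
    · refine ⟨1, 0, by simp, by simp, fun p => ?_⟩
      rw [hR2, div_zero] at hR
      simp [hR]
    · refine ⟨Q * R2, R1 * P, ?_, ?_, fun p => ?_⟩
      · rw [map_mul]; exact mul_ne_zero hQ hR2
      · rw [map_mul, hP, mul_zero]
      · rw [Derivation.leibniz]
        simp only [smul_eq_mul, map_add, map_mul, hP, h, zero_mul, add_zero, Pi.smul_apply]
        push_cast
        rw [hR]
        field_simp

theorem exists_dual_functional {F : Type} [Field F] {ι : Type} [Fintype ι] [DecidableEq ι]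
    (V : Submodule F (ι → F)) (μ : ι → F) (h : μ ∉ V) :
    ∃ z : ι → F, (∀ ν ∈ V, ∑ p, ν p * z p = 0) ∧ ∑ p, μ p * z p ≠ 0 := by
  obtain ⟨f, hf1, hf2⟩ := Submodule.exists_le_ker_of_notMem h
  have h1 : ∀ ν : ι → F, f ν = ∑ p, ν p * f (Pi.single p 1) := by
    intro ν
    conv_lhs => rw [pi_eq_sum_univ' ν]
    rw [map_sum]
    refine Finset.sum_congr rfl fun p _ => ?_
    rw [map_smul, smul_eq_mul]
  refine ⟨fun p => f (Pi.single p 1), fun ν hν => ?_, ?_⟩
  · rw [← h1]
    exact hf2 hν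
  · rw [← h1]
    exact hf1

/-- Key step: conormal functionals come from polynomials vanishing on the orbit. -/
theorem exists_conormal (hd : 2 ≤ d) {c : Ix N d → k} (hc : NZ (tup c)) (ht : Triv c)
    (lam : Ix N d → k)
    (hlam : ∀ B : Matrix (Fin (N + 1)) (Fin (N + 1)) k, ∑ p, lam p * xi B c p = 0) :
    ∃ Q P : SS k N d, aeval (xx c) Q ≠ 0 ∧ aeval (xx c) P = 0 ∧
      ∀ p, aeval (xx c) (pderiv p P) = aeval (xx c) Q * muK lam (MM k N) p := by
  classical
  let F := IntermediateField.adjoin k (Set.range (xx c))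
  let μ : Ix N d → F := fun p => ⟨muK lam (MM k N) p, muK_mem hd hc ht lam p⟩
  suffices hμ : μ ∈ VV c by
    obtain ⟨Q, P, h1, h2, h3⟩ := hμ
    exact ⟨Q, P, h1, h2, h3⟩
  by_contra hμ
  obtain ⟨z, hz1, hz2⟩ := exists_dual_functional (VV c) μ hμ
  have hgrad : ∀ (P : SS k N d) (p : Ix N d), aeval (xx c) P = 0 →
      aeval (xx c) (pderiv p P) ∈ F := by
    intro P p _
    rw [IntermediateField.mem_adjoin_range_iff]
    exact ⟨pderiv p P, 1, by simp⟩
  have h1 : ∀ P : SS k N d, aeval (xx c) P = 0 →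
      ∑ p, (z p : LL k N) * aeval (xx c) (pderiv p P) = 0 := by
    intro P hP
    have h2 := hz1 (fun p => ⟨aeval (xx c) (pderiv p P), hgrad P p hP⟩)
      ⟨1, P, by simp, hP, fun p => by simp⟩
    have h3 := congrArg (algebraMap F (LL k N)) h2
    rw [map_sum, map_zero] at h3
    rw [← h3]
    refine Finset.sum_congr rfl fun p _ => ?_
    rw [map_mul, mul_comm]
    rfl
  obtain ⟨φ, hφ1, hφ2, hφ3⟩ := exists_dual_ext (k := k) (xx c) (fun p => (z p : LL k N)) h1
  obtain ⟨B, hB1, _⟩ := displacement (c := c) φ hφ1 hφ2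
  have hz : ∀ p, (z p : LL k N) = xi B (xx c) p := by
    intro p
    rw [← hφ3, hB1]
  apply hz2
  apply (algebraMap F (LL k N)).injective
  rw [map_sum, map_zero]
  have h4 : ∀ p, algebraMap F (LL k N) (μ p * z p) = muK lam (MM k N) p * xi B (xx c) p := by
    intro p
    rw [map_mul, ← hz]
    rfl
  simp_rw [h4]
  rw [muK_apply]
  have h5 : actT (MM k N)⁻¹ (xi B (xx c)) =
      xi ((MM k N) * B * (MM k N)⁻¹) (bc (LL k N) c) :=
    actT_inv_xi (MM k N) B MM_det (bc (LL k N) c)
  rw [h5]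
  exact lam_ext hlam _

end

end Pool.Agent.TH170.SL
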