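import Pool.Agent.TH170.SL.Sing
import Pool.Agent.TH170.SL.Defs

/-!
The local ring of the moduli space is the ring of invariants of the local ring of the space of
coefficient vectors.
-/

open MvPolynomial

namespace Pool.Agent.TH170.SL

open Pool.Agent.Helper819.Apolar Pool.Agent.Helper819.Dyn

noncomputable section

set_option linter.unusedSectionVars false

variable {k : Type} [Field k] {N d : ℕ}

/-- coefficient vector of a map -/
def cv (F : EndTuple k N d) : Ix N d → k := cf F.1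

theorem tup_cv (F : EndTuple k N d) : tup (cv F) = F.1 := tup_cf F.2.1

/-- polynomials in the degree `d` coefficients -/
def toIx (N d : ℕ) : CoefPoly k N →ₐ[k] SS k N d :=
  aeval fun q => if h : q.2 ∈ Finset.finsuppAntidiag (Finset.univ : Finset (Fin (N + 1))) d then
    X (q.1, ⟨q.2, h⟩) else 0

/-- polynomials in all coefficients -/
def fromIx : SS k N d →ₐ[k] CoefPoly k N := rename fun p => (p.1, p.2.1)

theorem eval_fromIx (G : EndTuple k N d) (S : SS k N d) :
    eval (coords G) (fromIx S) = eval (cv G) S := by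
  unfold fromIx
  rw [eval_rename]
  rfl

theorem eval_toIx (G : EndTuple k N d) (P : CoefPoly k N) :
    eval (cv G) (toIx N d P) = eval (coords G) P := by
  unfold toIx
  rw [aeval_eq_bind₁]
  have h1 : eval (cv G) (bind₁ (fun q : Fin (N + 1) × (Fin (N + 1) →₀ ℕ) =>
      if h : q.2 ∈ Finset.finsuppAntidiag (Finset.univ : Finset (Fin (N + 1))) d then
      (X (q.1, ⟨q.2, h⟩) : SS k N d) else 0) P) =
      eval (fun q => eval (cv G) (if h : q.2 ∈ Finset.finsuppAntidiag
        (Finset.univ : Finset (Fin (N + 1))) d then (X (q.1, ⟨q.2, h⟩) : SS k N d) else 0)) P :=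
    eval₂Hom_bind₁ (RingHom.id k) _ _ _
  rw [h1]
  congr 1
  congr 1
  funext q
  split_ifs with h
  · rw [eval_X]
    rfl
  · rw [map_zero]
    symm
    change coeff q.2 (G.1 q.1) = 0
    apply (G.2.1 q.1).coeff_eq_zero
    intro hm
    exact h ((mem_Ex _).mpr hm)

theorem isOpen_S (S : SS k N d) : IsOpen {G : EndTuple k N d | eval (cv G) S ≠ 0} := by
  have h1 : {G : EndTuple k N d | eval (cv G) S ≠ 0} =
      {G | eval (coords G) (fromIx S) ≠ 0} := by
    ext G
    change eval (cv G) S ≠ 0 ↔ eval (coords G) (fromIx S) ≠ 0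
    rw [eval_fromIx]
  rw [h1]
  exact (isZar_coords k N d).isOpen_ne _

theorem exists_S {V : Set (EndTuple k N d)} (hV : IsOpen V) {F : EndTuple k N d} (hF : F ∈ V) :
    ∃ S : SS k N d, eval (cv F) S ≠ 0 ∧ ∀ G : EndTuple k N d, eval (cv G) S ≠ 0 → G ∈ V := by
  obtain ⟨_, ⟨p, rfl⟩, hFp, hpV⟩ :=
    ((isZar_coords k N d).isTopologicalBasis.mem_nhds_iff).mp (hV.mem_nhds hF)
  refine ⟨toIx N d p, by rw [eval_toIx]; exact hFp, fun G hG => hpV ?_⟩
  rw [eval_toIx] at hG
  exact hG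

variable [IsAlgClosed k] [CharZero k]

/-- the map with given nondegenerate coefficients -/
def toE (c : Ix N d → k) (hc : NZ (tup c)) : EndTuple k N d :=
  ⟨tup c, (isEnd_iff _).mpr ⟨tup_homog c, hc⟩⟩

theorem cv_toE (c : Ix N d → k) (hc : NZ (tup c)) : cv (toE c hc) = c := cf_tup c

theorem NZ_cv (F : EndTuple k N d) : NZ (tup (cv F)) := by
  rw [tup_cv]
  exact ((isEnd_iff _).mp F.2).2

theorem cv_actE (A : Matrix (Fin (N + 1)) (Fin (N + 1)) k) (hA : A.det ≠ 0) (F : EndTuple k N d) :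
    cv (actE A hA F) = actT A (cv F) := by
  change cf (act A F.1) = cf (act A (tup (cv F)))
  rw [tup_cv]

theorem zero_of_vanish (F : EndTuple k N d) {S T : SS k N d} (hS : S ≠ 0)
    (h : ∀ G : EndTuple k N d, eval (cv G) S ≠ 0 → eval (cv G) T = 0) : T = 0 := by
  have hinf : Infinite k := inferInstance
  obtain ⟨R, hR1, hR2⟩ := exists_open (NZ_cv F)
  have hR0 : R ≠ 0 := by rintro rfl; simp at hR1
  have h1 : T * (S * R) = 0 := by
    apply MvPolynomial.funext
    intro c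
    rw [map_mul, map_mul, map_zero]
    by_cases hc : eval c S = 0
    · rw [hc, zero_mul, mul_zero]
    · by_cases hc2 : eval c R = 0
      · rw [hc2, mul_zero, mul_zero]
      · have h2 := h (toE c (hR2 c hc2)) (by rw [cv_toE]; exact hc)
        rw [cv_toE] at h2
        rw [h2, zero_mul]
  exact (mul_eq_zero.mp h1).resolve_right (mul_ne_zero hS hR0)

/-! ### values of rational functions -/

open Classical in
/-- value of a rational function at a map -/
def val (u : KF k (Ix N d)) (G : EndTuple k N d) : k :=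
  if h : u ∈ Rf (cv G) then ev (cv G) ⟨u, h⟩ else 0

theorem val_mem {u : KF k (Ix N d)} {G : EndTuple k N d} (h : u ∈ Rf (cv G)) :
    val u G = ev (cv G) ⟨u, h⟩ := dif_pos h

theorem val_div {u : KF k (Ix N d)} {P Q : SS k N d}
    (h : u = am k (Ix N d) P * (am k (Ix N d) Q)⁻¹) (G : EndTuple k N d)
    (hQ : eval (cv G) Q ≠ 0) : val u G = eval (cv G) P / eval (cv G) Q := by
  have hQ0 : am k (Ix N d) Q ≠ 0 := am_ne_zero (by rintro rfl; simp at hQ)
  rw [val_mem (mem_Rf.mpr ⟨P, Q, hQ, h⟩)]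
  exact ev_eq _ _ hQ (by rw [h]; field_simp)

theorem Rf_act {u : KF k (Ix N d)} (hu : Inv u) {c : Ix N d → k} (h : u ∈ Rf c)
    (A : Matrix (Fin (N + 1)) (Fin (N + 1)) k) (hA : A.det ≠ 0) :
    ∃ h' : u ∈ Rf (actT A c), ev (actT A c) ⟨u, h'⟩ = ev c ⟨u, h⟩ := by
  have hAi : A⁻¹.det ≠ 0 := by
    rw [Matrix.det_nonsing_inv, Ring.inverse_eq_inv']
    exact inv_ne_zero hA
  obtain ⟨P, Q, hQ, hPQ⟩ := mem_Rf.mp h
  have h1 : u = am k (Ix N d) (compT A⁻¹ P) * (am k (Ix N d) (compT A⁻¹ Q))⁻¹ := by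
    rw [← actK_div A⁻¹ hAi, ← hPQ, hu A⁻¹ hAi]
  have hQ1 : eval (actT A c) (compT A⁻¹ Q) = eval c Q := by
    rw [eval_compT, actT_inv_act A hA]
  have hP1 : eval (actT A c) (compT A⁻¹ P) = eval c P := by
    rw [eval_compT, actT_inv_act A hA]
  have h2 : u ∈ Rf (actT A c) := mem_Rf.mpr ⟨_, _, by rw [hQ1]; exact hQ, h1⟩
  refine ⟨h2, ?_⟩
  have hQ0 : am k (Ix N d) Q ≠ 0 := am_ne_zero (by rintro rfl; simp at hQ)
  have hQ0' : am k (Ix N d) (compT A⁻¹ Q) ≠ 0 := am_ne_zero (by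
    intro h0
    rw [h0, map_zero] at hQ1
    exact hQ hQ1.symm)
  have e1 : ev (actT A c) ⟨u, h2⟩ =
      eval (actT A c) (compT A⁻¹ P) / eval (actT A c) (compT A⁻¹ Q) :=
    ev_eq _ _ (by rw [hQ1]; exact hQ) (by
      conv_lhs => rw [h1]
      field_simp)
  have e2 : ev c ⟨u, h⟩ = eval c P / eval c Q := ev_eq _ _ hQ (by
      conv_lhs => rw [hPQ]
      field_simp)
  rw [e1, e2, hQ1, hP1]

theorem val_rel (hNd : 0 < N + d) {u : KF k (Ix N d)} (hu : Inv u) {G G' : EndTuple k N d}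
    (h : Rel k N d G G') : (u ∈ Rf (cv G) → u ∈ Rf (cv G')) ∧ val u G = val u G' := by
  have key : ∀ {G G' : EndTuple k N d}, Rel k N d G G' → ∀ h : u ∈ Rf (cv G),
      ∃ h' : u ∈ Rf (cv G'), ev (cv G') ⟨u, h'⟩ = ev (cv G) ⟨u, h⟩ := by
    intro G G' h hG
    obtain ⟨A, hA, rfl⟩ := (rel_iff hNd G G').mp h
    rw [cv_actE]
    exact Rf_act hu hG A hA
  have hsymm : Rel k N d G' G := by
    obtain ⟨A, hA, hG'⟩ := (rel_iff hNd G G').mp h
    have hAi : A⁻¹.det ≠ 0 := by
      rw [Matrix.det_nonsing_inv, Ring.inverse_eq_inv']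
      exact inv_ne_zero hA
    refine (rel_iff hNd G' G).mpr ⟨A⁻¹, hAi, ?_⟩
    apply Subtype.ext
    have h1 : cv (actE A⁻¹ hAi G') = cv G := by
      rw [cv_actE, hG', cv_actE, actT_inv_act A hA]
    have h2 := congrArg tup h1
    rw [tup_cv, tup_cv] at h2
    exact h2.symm
  refine ⟨fun hG => (key h hG).1, ?_⟩
  by_cases hG : u ∈ Rf (cv G)
  · obtain ⟨h', h''⟩ := key h hG
    rw [val_mem hG, val_mem h', h'']
  · have hG' : u ∉ Rf (cv G') := fun h' => hG (key hsymm h').1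
    rw [val, val, dif_neg hG, dif_neg hG']

/-- the function on the moduli space attached to an invariant rational function -/
def hf (hNd : 0 < N + d) (u : KF k (Ix N d)) (hu : Inv u) : Moduli k N d → k :=
  Quot.lift (val u) fun _ _ h => (val_rel hNd hu h).2

/-- domain of definition on the moduli space -/
def dom (u : KF k (Ix N d)) : Set (Moduli k N d) := {m | ∃ G : EndTuple k N d, cls G = m ∧
  u ∈ Rf (cv G)}

theorem mem_dom_iff (hNd : 0 < N + d) {u : KF k (Ix N d)} (hu : Inv u) (G : EndTuple k N d) :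
    cls G ∈ dom u ↔ u ∈ Rf (cv G) := by
  constructor
  · rintro ⟨G', h1, h2⟩
    have h3 : Relation.EqvGen (Rel k N d) G' G := Quot.eqvGen_exact h1
    clear h1
    have h4 : ∀ {X Y : EndTuple k N d}, Relation.EqvGen (Rel k N d) X Y →
        (u ∈ Rf (cv X) ↔ u ∈ Rf (cv Y)) := by
      intro X Y h
      induction h with
      | rel X Y h =>
        refine ⟨(val_rel hNd hu h).1, fun hY => ?_⟩
        obtain ⟨A, hA, hG'⟩ := (rel_iff hNd X Y).mp h
        have hAi : A⁻¹.det ≠ 0 := by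
          rw [Matrix.det_nonsing_inv, Ring.inverse_eq_inv']
          exact inv_ne_zero hA
        have h1 : cv X = actT A⁻¹ (cv Y) := by
          rw [hG', cv_actE, actT_inv_act A hA]
        rw [h1]
        exact (Rf_act hu hY A⁻¹ hAi).1
      | refl => exact Iff.rfl
      | symm _ _ _ ih => exact ih.symm
      | trans _ _ _ _ _ ih1 ih2 => exact ih1.trans ih2
    exact (h4 h3).mp h2
  · intro h
    exact ⟨G, rfl, h⟩

theorem isOpen_dom (hNd : 0 < N + d) {u : KF k (Ix N d)} (hu : Inv u) : IsOpen (dom u) := by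
  have h1 : IsOpen ((cls : EndTuple k N d → Moduli k N d) ⁻¹' dom u) := by
    rw [isOpen_iff_forall_mem_open]
    intro G hG
    obtain ⟨P, Q, hQ, hPQ⟩ := mem_Rf.mp ((mem_dom_iff hNd hu G).mp hG)
    refine ⟨{G' | eval (cv G') Q ≠ 0}, fun G' hG' => ?_, isOpen_S Q, hQ⟩
    exact (mem_dom_iff hNd hu G').mpr (mem_Rf.mpr ⟨P, Q, hG', hPQ⟩)
  exact isQuotientMap_quot_mk.isOpen_preimage.mp h1

theorem hf_cls (hNd : 0 < N + d) (u : KF k (Ix N d)) (hu : Inv u) (G : EndTuple k N d) :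
    hf hNd u hu (cls G) = val u G := rfl

theorem regular_hf (hNd : 0 < N + d) {u : KF k (Ix N d)} (hu : Inv u) (G : EndTuple k N d)
    (hG : cls G ∈ dom u) : IsRegularAt (hf hNd u hu) G := by
  obtain ⟨P, Q, hQ, hPQ⟩ := mem_Rf.mp ((mem_dom_iff hNd hu G).mp hG)
  refine ⟨fromIx P, fromIx Q, by rw [eval_fromIx]; exact hQ, ?_⟩
  filter_upwards [(isOpen_S Q).mem_nhds hQ] with G' hG'
  rw [hf_cls, val_div hPQ G' hG', eval_fromIx, eval_fromIx]

end

end Pool.Agent.TH170.SL
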