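import Mathlib

/-!
Nonvanishing maximal minors.
-/

namespace Pool.Agent.TH170.SL

noncomputable section

set_option linter.unusedSectionVars false

variable {K : Type} [Field K] {ι γ : Type} [Fintype ι] [Fintype γ] [DecidableEq γ]

/-- A matrix with independent rows has a nonvanishing maximal minor. -/
theorem exists_minor (M : γ → ι → K) (hM : ∀ a : γ → K, (∀ p, ∑ i, a i * M i p = 0) → a = 0) :
    ∃ e : γ → ι, Function.Injective e ∧ (Matrix.of fun i j => M i (e j)).det ≠ 0 := by
  classical
  let v : ι → (γ → K) := fun p i => M i p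
  obtain ⟨κ, a, ha, hspan, hli⟩ := exists_linearIndependent' K v
  have htop : Submodule.span K (Set.range (v ∘ a)) = ⊤ := by
    rw [hspan]
    by_contra hne
    obtain ⟨f, hf1, hf2⟩ := Submodule.exists_le_ker_of_lt_top _ (lt_top_iff_ne_top.mpr hne)
    have h1 : ∀ ν : γ → K, f ν = ∑ i, f (Pi.single i 1) * ν i := by
      intro ν
      conv_lhs => rw [pi_eq_sum_univ' ν]
      rw [map_sum]
      refine Finset.sum_congr rfl fun p _ => ?_
      rw [map_smul, smul_eq_mul, mul_comm]
    have h2 := hM (fun i => f (Pi.single i 1)) (fun p => by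
      have h3 : f (v p) = 0 := hf2 (Submodule.subset_span ⟨p, rfl⟩)
      rw [← h3, h1])
    apply hf1
    ext ν
    rw [LinearMap.comp_apply, LinearMap.zero_comp, LinearMap.zero_apply]
    change f (Pi.single ν 1) = 0
    exact congrFun h2 ν
  have hfin : Finite κ := Finite.of_injective a ha
  have := Fintype.ofFinite κ
  let b : Module.Basis κ K (γ → K) := Module.Basis.mk hli htop.ge
  have hcard : Fintype.card κ = Fintype.card γ := by
    have h1 := Module.finrank_eq_card_basis b
    rw [Module.finrank_fintype_fun_eq_card] at h1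
    exact h1.symm
  let s : γ ≃ κ := (Fintype.equivOfCardEq hcard).symm
  refine ⟨fun j => a (s j), fun i j hij => s.injective (ha hij), ?_⟩
  have h3 : LinearIndependent K (fun j => v (a (s j))) := hli.comp s s.injective
  have h4 : IsUnit ((Matrix.of fun i j => M i (a (s j))) : Matrix γ γ K) := by
    rw [← Matrix.linearIndependent_cols_iff_isUnit]
    exact h3
  exact ((Matrix.isUnit_iff_isUnit_det _).mp h4).ne_zero

variable [DecidableEq ι]

/-- the complementary set of columns -/
abbrev Comp (e : γ → ι) : Type := {p : ι // p ∉ Set.range e}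

instance (e : γ → ι) : Fintype (Comp e) := Fintype.ofFinite _

theorem card_Comp {e : γ → ι} (he : Function.Injective e) :
    Fintype.card (Comp e) + Fintype.card γ = Fintype.card ι := by
  classical
  have h1 := Fintype.card_congr (Equiv.sumCompl (fun p => p ∈ Set.range e))
  rw [Fintype.card_sum] at h1
  have h2 : Fintype.card {p // p ∈ Set.range e} = Fintype.card γ :=
    Fintype.card_congr (Equiv.ofInjective e he).symm
  have h3 : Fintype.card (Comp e) = Fintype.card {p : ι // ¬ p ∈ Set.range e} :=
    Fintype.card_congr (Equiv.refl _)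
  omega

/-- splitting a sum -/
theorem sum_split {R : Type} [AddCommMonoid R] {e : γ → ι} (he : Function.Injective e)
    (F : ι → R) : ∑ p, F p = ∑ j, F (e j) + ∑ b : Comp e, F b := by
  classical
  have h1 := Fintype.sum_equiv (Equiv.sumCompl (fun p => p ∈ Set.range e)).symm F
    (fun x => F (Equiv.sumCompl (fun p => p ∈ Set.range e) x)) (fun x => by simp)
  rw [h1, Fintype.sum_sum_type]
  congr 1
  have h2 := Fintype.sum_equiv (Equiv.ofInjective e he) (fun j => F (e j))
    (fun x : Set.range e => F x) (fun x => by simp)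
  rw [h2]
  rfl

/-- Functionals vanishing on the rows of `M` are determined by their complementary entries. -/
theorem eq_zero_of_comp {M : γ → ι → K} {e : γ → ι} (he : Function.Injective e)
    (hdet : (Matrix.of fun i j => M i (e j)).det ≠ 0) (w : ι → K)
    (h1 : ∀ i, ∑ p, M i p * w p = 0) (h2 : ∀ b : Comp e, w b = 0) : w = 0 := by
  have h3 : (Matrix.of fun i j => M i (e j)).mulVec (fun j => w (e j)) = 0 := by
    funext i
    have h4 := h1 i
    rw [sum_split he] at h4
    have h5 : ∑ b : Comp e, M i b * w b = 0 :=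
      Finset.sum_eq_zero fun b _ => by rw [h2 b, mul_zero]
    rw [h5, add_zero] at h4
    exact h4
  have h4 := Matrix.eq_zero_of_mulVec_eq_zero hdet h3
  funext p
  by_cases hp : p ∈ Set.range e
  · obtain ⟨j, rfl⟩ := hp
    exact congrFun h4 j
  · exact h2 ⟨p, hp⟩

/-- Existence of the dual basis of functionals. -/
theorem exists_lam {M : γ → ι → K} {e : γ → ι} (he : Function.Injective e)
    (hdet : (Matrix.of fun i j => M i (e j)).det ≠ 0) (b : Comp e) :
    ∃ lam : ι → K, (∀ i, ∑ p, lam p * M i p = 0) ∧ ∀ b' : Comp e, lam b' = if b' = b then 1 else 0 := by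
  classical
  set N : Matrix γ γ K := Matrix.of fun i j => M i (e j) with hN
  let y : γ → K := N⁻¹.mulVec (fun i => - M i b)
  have hy : N.mulVec y = fun i => - M i b := by
    change N.mulVec (N⁻¹.mulVec _) = _
    rw [Matrix.mulVec_mulVec, Matrix.mul_nonsing_inv _ (isUnit_iff_ne_zero.mpr hdet),
      Matrix.one_mulVec]
  let lam : ι → K := fun p => if h : ∃ j, e j = p then y h.choose else
    if p = b then 1 else 0
  have hlam1 : ∀ j, lam (e j) = y j := by
    intro j
    have h : ∃ j', e j' = e j := ⟨j, rfl⟩
    change (if h : ∃ j', e j' = e j then y h.choose else _) = _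
    rw [dif_pos h]
    congr 1
    exact he h.choose_spec
  have hlam2 : ∀ b' : Comp e, lam b' = if b' = b then 1 else 0 := by
    intro b'
    have h : ¬ ∃ j', e j' = (b' : ι) := fun ⟨j, hj⟩ => b'.2 ⟨j, hj⟩
    change (if h : ∃ j', e j' = (b' : ι) then y h.choose else _) = _
    rw [dif_neg h]
    simp only [Subtype.ext_iff]
  refine ⟨lam, fun i => ?_, hlam2⟩
  rw [sum_split he]
  simp_rw [hlam1, hlam2]
  have h1 := congrFun hy i
  have h2 : (N.mulVec y) i = ∑ j, y j * M i (e j) := by
    change ∑ j, N i j * y j = _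
    exact Finset.sum_congr rfl fun j _ => by rw [mul_comm]; rfl
  rw [← h2, h1]
  simp

/-- Vectors orthogonal to a complementary family are combinations of the rows. -/
theorem exists_comb {M : γ → ι → K} {e : γ → ι} (he : Function.Injective e)
    (hdet : (Matrix.of fun i j => M i (e j)).det ≠ 0) (G : Comp e → ι → K)
    (hG : ∀ b i, ∑ p, M i p * G b p = 0)
    (hGdet : (Matrix.of fun a b : Comp e => G a b).det ≠ 0) (v : ι → K)
    (hv : ∀ b, ∑ p, v p * G b p = 0) : ∃ a : γ → K, ∀ p, v p = ∑ i, a i * M i p := by
  classical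
  set N : Matrix γ γ K := Matrix.of fun i j => M i (e j) with hN
  let a : γ → K := (N.transpose)⁻¹.mulVec (fun j => v (e j))
  have hNt : IsUnit N.transpose.det := by
    rw [Matrix.det_transpose]
    exact isUnit_iff_ne_zero.mpr hdet
  have ha : N.transpose.mulVec a = fun j => v (e j) := by
    change N.transpose.mulVec (N.transpose⁻¹.mulVec _) = _
    rw [Matrix.mulVec_mulVec, Matrix.mul_nonsing_inv _ hNt, Matrix.one_mulVec]
  let w : ι → K := fun p => v p - ∑ i, a i * M i p
  have hw1 : ∀ j, w (e j) = 0 := by
    intro j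
    have h1 := congrFun ha j
    have h2 : (N.transpose.mulVec a) j = ∑ i, a i * M i (e j) := by
      change ∑ i, N.transpose j i * a i = _
      exact Finset.sum_congr rfl fun i _ => by rw [mul_comm]; rfl
    rw [h2] at h1
    change v (e j) - _ = 0
    rw [h1, sub_self]
  have hw2 : ∀ b, ∑ p, w p * G b p = 0 := by
    intro b
    simp only [w, sub_mul, Finset.sum_sub_distrib, hv b, zero_sub, neg_eq_zero, Finset.sum_mul]
    rw [Finset.sum_comm]
    apply Finset.sum_eq_zero
    intro i _
    simp_rw [mul_assoc]
    rw [← Finset.mul_sum, hG b i, mul_zero]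
  have hw3 : (Matrix.of fun a b : Comp e => G a b).mulVec (fun b : Comp e => w b) = 0 := by
    funext b
    have h1 := hw2 b
    rw [sum_split he] at h1
    simp_rw [hw1, zero_mul, Finset.sum_const_zero, zero_add] at h1
    change ∑ b' : Comp e, G b b' * w b' = 0
    rw [← h1]
    exact Finset.sum_congr rfl fun b' _ => mul_comm _ _
  have hw4 := Matrix.eq_zero_of_mulVec_eq_zero hGdet hw3
  refine ⟨a, fun p => ?_⟩
  have hwp : w p = 0 := by
    by_cases hp : p ∈ Set.range e
    · obtain ⟨j, rfl⟩ := hp
      exact hw1 j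
    · exact congrFun hw4 ⟨p, hp⟩
  exact sub_eq_zero.mp hwp

end

end Pool.Agent.TH170.SL
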