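import Pool.Agent.TH170.SL.DetArg
import Pool.Agent.TH170.SL.Minor
import Pool.Agent.TH170.SL.Divisor

/-!
Invariant rational functions on the space of coefficient vectors.
-/

open MvPolynomial

namespace Pool.Agent.TH170.SL

open Pool.Agent.Helper819.Apolar Pool.Agent.Helper819.Dyn

noncomputable section

set_option linter.unusedSectionVars false

variable {k : Type} [Field k] {N d : ℕ}

section alg

variable [Infinite k]

theorem compT_inv (A : Matrix (Fin (N + 1)) (Fin (N + 1)) k) (hA : A.det ≠ 0) (P : SS k N d) :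
    compT A⁻¹ (compT A P) = P := by
  apply MvPolynomial.funext
  intro c
  rw [eval_compT, eval_compT, actT_act_inv A hA]

theorem compT_inv' (A : Matrix (Fin (N + 1)) (Fin (N + 1)) k) (hA : A.det ≠ 0) (P : SS k N d) :
    compT A (compT A⁻¹ P) = P := by
  apply MvPolynomial.funext
  intro c
  rw [eval_compT, eval_compT, actT_inv_act A hA]

theorem compT_injective (A : Matrix (Fin (N + 1)) (Fin (N + 1)) k) (hA : A.det ≠ 0) :
    Function.Injective (compT A : SS k N d → SS k N d) := by
  intro P Q h
  rw [← compT_inv A hA P, h, compT_inv A hA]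

theorem compT_ne_zero (A : Matrix (Fin (N + 1)) (Fin (N + 1)) k) (hA : A.det ≠ 0) {P : SS k N d}
    (hP : P ≠ 0) : compT A P ≠ 0 := by
  intro h
  apply hP
  apply compT_injective A hA
  rw [h, map_zero]

/-- The action on polynomials, with values in rational functions. -/
def actP (A : Matrix (Fin (N + 1)) (Fin (N + 1)) k) : SS k N d →+* KF k (Ix N d) :=
  (am k (Ix N d)).comp (compT A).toRingHom

theorem actP_inj (A : Matrix (Fin (N + 1)) (Fin (N + 1)) k) (hA : A.det ≠ 0) :
    Function.Injective (actP A : SS k N d →+* KF k (Ix N d)) := by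
  intro P Q h
  exact compT_injective A hA (am_inj h)

/-- The action on rational functions. -/
def actK (A : Matrix (Fin (N + 1)) (Fin (N + 1)) k) (hA : A.det ≠ 0) :
    KF k (Ix N d) →+* KF k (Ix N d) :=
  IsFractionRing.lift (A := SS k N d) (actP_inj A hA)

theorem actK_am (A : Matrix (Fin (N + 1)) (Fin (N + 1)) k) (hA : A.det ≠ 0) (P : SS k N d) :
    actK A hA (am k (Ix N d) P) = am k (Ix N d) (compT A P) :=
  IsFractionRing.lift_algebraMap (actP_inj A hA) P

theorem actK_div (A : Matrix (Fin (N + 1)) (Fin (N + 1)) k) (hA : A.det ≠ 0) (P Q : SS k N d) :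
    actK A hA (am k (Ix N d) P * (am k (Ix N d) Q)⁻¹) =
      am k (Ix N d) (compT A P) * (am k (Ix N d) (compT A Q))⁻¹ := by
  rw [map_mul, map_inv₀, actK_am, actK_am]

/-- Invariance of a rational function under all coordinate changes (and, since scalar matrices
scale coefficient vectors, under scaling). -/
def Inv (u : KF k (Ix N d)) : Prop :=
  ∀ (A : Matrix (Fin (N + 1)) (Fin (N + 1)) k) (hA : A.det ≠ 0), actK A hA u = u

/-- Invariant elements of the local ring at `f`. -/
def OO (f : Ix N d → k) : Subring (Rf f) where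
  carrier := {u | Inv (u : KF k (Ix N d))}
  mul_mem' := by
    intro u v hu hv A hA
    change actK A hA ((u : KF k (Ix N d)) * (v : KF k (Ix N d))) = _
    rw [map_mul, hu A hA, hv A hA]
    rfl
  one_mem' := by
    intro A hA
    change actK A hA (1 : KF k (Ix N d)) = _
    rw [map_one]
    rfl
  add_mem' := by
    intro u v hu hv A hA
    change actK A hA ((u : KF k (Ix N d)) + (v : KF k (Ix N d))) = _
    rw [map_add, hu A hA, hv A hA]
    rfl
  zero_mem' := by
    intro A hA
    change actK A hA (0 : KF k (Ix N d)) = _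
    rw [map_zero]
    rfl
  neg_mem' := by
    intro u hu A hA
    change actK A hA (-(u : KF k (Ix N d))) = _
    rw [map_neg, hu A hA]
    rfl

theorem mem_OO {f : Ix N d → k} {u : Rf f} : u ∈ OO f ↔ Inv (u : KF k (Ix N d)) := Iff.rfl

theorem cst_mem (f : Ix N d → k) (a : k) : cst f a ∈ OO f := by
  intro A hA
  change actK A hA (am k (Ix N d) (C a)) = am k (Ix N d) (C a)
  rw [actK_am, algHom_C]
  rfl

theorem inv_of_semi {w : ℕ} {P Q : SS k N d} (hP : IsSemi w P) (hQ : IsSemi w Q) :
    Inv (am k (Ix N d) P * (am k (Ix N d) Q)⁻¹) := by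
  intro A hA
  have key : ∀ R : SS k N d, IsSemi w R → compT A R = C (A.det ^ w) * R := by
    intro R hR
    apply MvPolynomial.funext
    intro c
    rw [eval_compT, map_mul, eval_C, hR A c]
  rw [actK_div, key P hP, key Q hQ, map_mul, map_mul, mul_inv]
  have h1 : am k (Ix N d) (C (A.det ^ w)) ≠ 0 := by
    apply am_ne_zero
    rw [Ne, C_eq_zero]
    exact pow_ne_zero _ hA
  field_simp

theorem inv_rel {P Q : SS k N d} (hQ : Q ≠ 0)
    (h : Inv (am k (Ix N d) P * (am k (Ix N d) Q)⁻¹))
    (A : Matrix (Fin (N + 1)) (Fin (N + 1)) k) (hA : A.det ≠ 0) :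
    compT A P * Q = P * compT A Q := by
  have h1 := h A hA
  rw [actK_div] at h1
  apply am_inj
  rw [map_mul, map_mul]
  have h2 : am k (Ix N d) Q ≠ 0 := am_ne_zero hQ
  have h3 : am k (Ix N d) (compT A Q) ≠ 0 := am_ne_zero (compT_ne_zero A hA hQ)
  field_simp at h1
  linear_combination h1

theorem inv_orb {P Q : SS k N d} (hQ : Q ≠ 0)
    (h : Inv (am k (Ix N d) P * (am k (Ix N d) Q)⁻¹)) (c : Ix N d → k) :
    aeval (orb c) P * C (eval c Q) = C (eval c P) * aeval (orb c) Q := by
  apply poly_ext
  intro A hA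
  have h1 := congrArg (eval c) (inv_rel hQ h A hA)
  rw [map_mul, map_mul, eval_compT, eval_compT] at h1
  rw [map_mul, map_mul, eval_aeval_orb, eval_aeval_orb, eval_C, eval_C]
  exact h1

theorem inv_lie {P Q : SS k N d} (hQ : Q ≠ 0)
    (h : Inv (am k (Ix N d) P * (am k (Ix N d) Q)⁻¹)) (c : Ix N d → k)
    (B : Matrix (Fin (N + 1)) (Fin (N + 1)) k) :
    dd P c (xi B c) * eval c Q = eval c P * dd Q c (xi B c) := by
  have h1 := congrArg (aeval (ent (oneEps (DualNumber.eps : DualNumber k) B))) (inv_orb hQ h c)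
  rw [map_mul, map_mul, aeval_aeval_orb_S, aeval_aeval_orb_S, algHom_C, algHom_C] at h1
  have h2 : actT (oneEps (DualNumber.eps : DualNumber k) B)
      (fun p => algebraMap k (DualNumber k) (c p)) = fun p => algebraMap k (DualNumber k) (c p) +
        DualNumber.eps * algebraMap k (DualNumber k) (xi B c p) := by
    funext p
    exact actT_eps _ DualNumber.eps_mul_eps B c p
  rw [h2, eval_eps _ DualNumber.eps_mul_eps, eval_eps _ DualNumber.eps_mul_eps] at h1
  have e1 : (algebraMap k (DualNumber k) (eval c P) + DualNumber.eps *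
      algebraMap k (DualNumber k) (∑ p, xi B c p * eval c (pderiv p P))) *
      algebraMap k (DualNumber k) (eval c Q) = algebraMap k (DualNumber k) (eval c P * eval c Q) +
        DualNumber.eps * algebraMap k (DualNumber k)
          ((∑ p, xi B c p * eval c (pderiv p P)) * eval c Q) := by
    rw [map_mul _ (eval c P) (eval c Q), map_mul _ (∑ p, xi B c p * eval c (pderiv p P))]
    ring
  have e2 : algebraMap k (DualNumber k) (eval c P) * (algebraMap k (DualNumber k) (eval c Q) +
      DualNumber.eps * algebraMap k (DualNumber k) (∑ p, xi B c p * eval c (pderiv p Q))) =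
      algebraMap k (DualNumber k) (eval c P * eval c Q) +
        DualNumber.eps * algebraMap k (DualNumber k)
          (eval c P * (∑ p, xi B c p * eval c (pderiv p Q))) := by
    rw [map_mul _ (eval c P) (eval c Q), map_mul _ (eval c P)
      (∑ p, xi B c p * eval c (pderiv p Q))]
    ring
  rw [e1, e2] at h1
  have h3 := congrArg TrivSqZeroExt.snd h1
  rw [snd_form, snd_form] at h3
  exact h3

/-- the vector field of the infinitesimal action, with polynomial coefficients -/
def xiX (B : Matrix (Fin (N + 1)) (Fin (N + 1)) k) (p : Ix N d) : SS k N d :=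
  xi (B.map C) X p

theorem eval_xiX (B : Matrix (Fin (N + 1)) (Fin (N + 1)) k) (c : Ix N d → k) (p : Ix N d) :
    eval c (xiX B p) = xi B c p := by
  unfold xiX
  rw [map_xi]
  congr 1
  · ext i j
    simp only [Matrix.map_apply, eval_C]
  · funext q
    exact eval_X q

theorem inv_pd {u : KF k (Ix N d)} (h : Inv u) (B : Matrix (Fin (N + 1)) (Fin (N + 1)) k) :
    ∑ p, am k (Ix N d) (xiX B p) * pd p u = 0 := by
  obtain ⟨P, Q, hQ, rfl⟩ := IsFractionRing.div_surjective (A := SS k N d) u
  have hQ0 : Q ≠ 0 := nonZeroDivisors.ne_zero hQ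
  rw [div_eq_mul_inv] at h ⊢
  have h1 : ∑ p, xiX B p * (Q * pderiv p P - P * pderiv p Q) = 0 := by
    apply MvPolynomial.funext
    intro c
    have h2 := inv_lie hQ0 h c B
    unfold dd at h2
    rw [map_zero, map_sum]
    simp_rw [map_mul, map_sub, map_mul, eval_xiX, mul_sub]
    rw [Finset.sum_sub_distrib, sub_eq_zero]
    rw [Finset.sum_mul, Finset.mul_sum] at h2
    refine Eq.trans ?_ (h2.trans ?_)
    · exact Finset.sum_congr rfl fun p _ => by ring
    · exact Finset.sum_congr rfl fun p _ => by ring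
  have h2 := congrArg (am k (Ix N d)) h1
  rw [map_zero, map_sum] at h2
  have h3 : ∀ p, am k (Ix N d) (xiX B p) * pd p (am k (Ix N d) P * (am k (Ix N d) Q)⁻¹) =
      am k (Ix N d) (xiX B p * (Q * pderiv p P - P * pderiv p Q)) * (am k (Ix N d) (Q * Q))⁻¹ := by
    intro p
    rw [pd_div p P Q hQ0, map_mul (am k (Ix N d)) (xiX B p)]
    ring
  simp_rw [h3]
  rw [← Finset.sum_mul, h2, zero_mul]

/-- The gradient at the point is orthogonal to the orbit. -/
theorem inv_gr {f : Ix N d → k} {u : Rf f} (h : Inv (u : KF k (Ix N d)))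
    (B : Matrix (Fin (N + 1)) (Fin (N + 1)) k) : ∑ p, xi B f p * ev f (gr u p) = 0 := by
  have h1 : ∑ p, (⟨am k (Ix N d) (xiX B p), am_mem f _⟩ : Rf f) * gr u p = 0 := by
    apply Subtype.ext
    rw [AddSubmonoidClass.coe_finsetSum]
    exact inv_pd h B
  have h2 := congrArg (ev f) h1
  rw [map_sum, map_zero] at h2
  rw [← h2]
  refine Finset.sum_congr rfl fun p _ => ?_
  rw [map_mul, ev_am, eval_xiX]

end alg

end

end Pool.Agent.TH170.SL
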