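import Mathlib

/-!
The Krull dimension of a domain over a field is bounded by the size of algebraically independent
families.
-/

namespace Pool.Agent.TH170.SL

open MvPolynomial

theorem transcendental_of_quot {k : Type} [Field k] {A : Type} [CommRing A] [IsDomain A]
    [Algebra k A] (p : Ideal A) {ι : Type} (x : ι → A)
    (hx : AlgebraicIndependent k (fun i => Ideal.Quotient.mk p (x i))) (a : A) (ha : a ∈ p)
    (ha0 : a ≠ 0) : Transcendental (Algebra.adjoin k (Set.range x)) a := by
  have hinj : ∀ b : Algebra.adjoin k (Set.range x), Ideal.Quotient.mk p (b : A) = 0 → b = 0 := by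
    rintro ⟨b, hb⟩ h
    rw [Algebra.adjoin_range_eq_range_aeval] at hb
    obtain ⟨P, rfl⟩ := hb
    have h1 : aeval (fun i => Ideal.Quotient.mk p (x i)) P = 0 := by
      rw [← h]
      exact (comp_aeval_apply x (Ideal.Quotient.mkₐ k p) P).symm
    have h2 := hx.eq_zero_of_aeval_eq_zero P h1
    apply Subtype.ext
    change aeval x P = 0
    rw [h2, map_zero]
  have key : ∀ n : ℕ, ∀ q : Polynomial (Algebra.adjoin k (Set.range x)), q.natDegree ≤ n →
      Polynomial.aeval a q = 0 → q = 0 := by
    intro n
    induction n with
    | zero =>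
      intro q hq hqa
      have h1 := Polynomial.eq_C_of_natDegree_le_zero hq
      rw [h1, Polynomial.aeval_C] at hqa
      have h2 : q.coeff 0 = 0 := Subtype.ext hqa
      rw [h1, h2, map_zero]
    | succ n ih =>
      intro q hq hqa
      have h0 := Polynomial.divX_mul_X_add q
      rw [← h0, map_add, map_mul, Polynomial.aeval_X, Polynomial.aeval_C] at hqa
      have h1 : q.coeff 0 = 0 := by
        apply hinj
        have h2 := congrArg (Ideal.Quotient.mk p) hqa
        rw [map_add, map_mul, Ideal.Quotient.eq_zero_iff_mem.mpr ha, mul_zero, zero_add,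
          map_zero] at h2
        exact h2
      rw [h1, map_zero, add_zero] at hqa
      have h3 := (mul_eq_zero.mp hqa).resolve_right ha0
      have h4 := ih q.divX (by rw [Polynomial.natDegree_divX_eq_natDegree_tsub_one]; omega) h3
      rw [← h0, h4, h1, zero_mul, map_zero, add_zero]
  intro ⟨q, hq0, hq⟩
  exact hq0 (key _ q le_rfl hq)

theorem exists_indep {k : Type} [Field k] (s : ℕ) : ∀ (A : Type) [CommRing A] [IsDomain A]
    [Algebra k A] (p : ℕ → Ideal A), (∀ i ≤ s, (p i).IsPrime) → (∀ i < s, p i < p (i + 1)) →
    ∃ (ι : Type) (_ : Fintype ι), Fintype.card ι = s ∧ ∃ x : ι → A,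
      AlgebraicIndependent k x := by
  induction s with
  | zero =>
    intro A _ _ _ p _ _
    refine ⟨Empty, inferInstance, rfl, Empty.elim, ?_⟩
    exact algebraicIndependent_empty_type
  | succ s ih =>
    intro A _ _ _ p hp hlt
    have hp1 := hp 1 (by omega)
    have hle : ∀ i, i + 1 ≤ s + 1 → p 1 ≤ p (i + 1) := by
      intro i
      induction i with
      | zero => intro _; exact le_rfl
      | succ i ihi =>
        intro hi
        exact (ihi (by omega)).trans (hlt (i + 1) (by omega)).le
    have hsurj : Function.Surjective (Ideal.Quotient.mk (p 1)) := Ideal.Quotient.mk_surjective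
    have hcomap : ∀ i, i + 1 ≤ s + 1 → Ideal.comap (Ideal.Quotient.mk (p 1))
        (Ideal.map (Ideal.Quotient.mk (p 1)) (p (i + 1))) = p (i + 1) := by
      intro i hi
      rw [Ideal.comap_map_of_surjective _ hsurj, ← RingHom.ker_eq_comap_bot, Ideal.mk_ker]
      exact sup_eq_left.mpr (hle i hi)
    obtain ⟨ι, _, hι, x', hx'⟩ := ih (A ⧸ p 1)
      (fun i => Ideal.map (Ideal.Quotient.mk (p 1)) (p (i + 1))) (by
        intro i hi
        have := hp (i + 1) (by omega)
        exact Ideal.map_isPrime_of_surjective hsurj (by
          rw [Ideal.mk_ker]; exact hle i (by omega))) (by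
        intro i hi
        refine lt_of_le_of_ne (Ideal.map_mono (hlt (i + 1) (by omega)).le) ?_
        intro h
        have h1 := congrArg (Ideal.comap (Ideal.Quotient.mk (p 1))) h
        rw [hcomap i (by omega), hcomap (i + 1) (by omega)] at h1
        exact (hlt (i + 1) (by omega)).ne h1)
    choose x hx using fun i => hsurj (x' i)
    obtain ⟨a, ha1, ha0⟩ := SetLike.exists_of_lt (hlt 0 (by omega))
    have hxx : AlgebraicIndependent k (fun i => Ideal.Quotient.mk (p 1) (x i)) := by
      have : (fun i => Ideal.Quotient.mk (p 1) (x i)) = x' := funext hx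
      rw [this]
      exact hx'
    have hxi : AlgebraicIndependent k x :=
      AlgebraicIndependent.of_comp (Ideal.Quotient.mkₐ k (p 1)) hxx
    have ha : a ≠ 0 := by
      rintro rfl
      exact ha0 (zero_mem _)
    have htr := transcendental_of_quot (p 1) x hxx a ha1 ha
    refine ⟨Option ι, inferInstance, by rw [Fintype.card_option, hι], fun o => o.elim a x, ?_⟩
    exact (hxi.option_iff_transcendental a).mpr htr

/-- bound for the Krull dimension -/
theorem ringKrullDim_le_of_indep {k : Type} [Field k] {A : Type} [CommRing A] [IsDomain A]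
    [Algebra k A] (r : ℕ) (h : ∀ (ι : Type) [Fintype ι] (x : ι → A), AlgebraicIndependent k x →
      Fintype.card ι ≤ r) : ringKrullDim A ≤ r := by
  unfold ringKrullDim
  refine iSup_le fun l => ?_
  obtain ⟨ι, _, hι, x, hx⟩ := exists_indep (k := k) l.length A
    (fun i => if hi : i < l.length + 1 then (l ⟨i, hi⟩).asIdeal else ⊥) (by
      intro i hi
      simp only [Nat.lt_succ_of_le hi, dif_pos]
      exact (l _).isPrime) (by
      intro i hi
      have h1 : i < l.length + 1 := by omega
      have h2 : i + 1 < l.length + 1 := by omega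
      simp only [h1, h2, dif_pos]
      have := l.step ⟨i, hi⟩
      exact this)
  have := h ι x hx
  rw [hι] at this
  exact_mod_cast this

end Pool.Agent.TH170.SL
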