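import Pool.Agent.TH170.SL.Inv
import Pool.Agent.TH170.SL.Krull

/-!
Regularity of the ring of invariants at `f` forces enough invariant differentials at `f`.
-/

open MvPolynomial

namespace Pool.Agent.TH170.SL

open Pool.Agent.Helper819.Apolar Pool.Agent.Helper819.Dyn

noncomputable section

set_option linter.unusedSectionVars false

variable {k : Type} [Field k] {N d : ℕ}

/-- pairs of indices -/
abbrev GG (N : ℕ) : Type := Fin (N + 1) × Fin (N + 1)

/-- the basic tangent vectors of the orbit -/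
def xs {K : Type} [Field K] (c : Ix N d → K) (i : GG N) (p : Ix N d) : K :=
  xi (Matrix.single i.1 i.2 1) c p

theorem xi_eq_xs {K : Type} [Field K] (B : Matrix (Fin (N + 1)) (Fin (N + 1)) K) (c : Ix N d → K)
    (p : Ix N d) : xi B c p = ∑ i : GG N, B i.1 i.2 * xs c i p := by
  rw [xi_E_sum, Finset.sum_apply, Fintype.sum_prod_type]
  refine Finset.sum_congr rfl fun i _ => ?_
  rw [Finset.sum_apply]
  rfl

variable [IsAlgClosed k] [CharZero k]

theorem xi_inj (hd : 2 ≤ d) {c : Ix N d → k} (hc : NZ (tup c))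
    (B : Matrix (Fin (N + 1)) (Fin (N + 1)) k) (h : xi B c = 0) : B = 0 :=
  xi_inj_ext (K := k) hd hc B h

theorem xs_indep (hd : 2 ≤ d) {c : Ix N d → k} (hc : NZ (tup c)) (a : GG N → k)
    (h : ∀ p, ∑ i, a i * xs c i p = 0) : a = 0 := by
  have h1 := xi_inj hd hc (Matrix.of fun i j => a (i, j)) (by
    funext p
    rw [xi_eq_xs]
    exact h p)
  funext i
  exact congrFun (congrFun h1 i.1) i.2

/-- the minor of the orbit directions, as a polynomial -/
def mnr (e : GG N → Ix N d) : SS k N d :=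
  (Matrix.of fun i j => xiX (Matrix.single (i : GG N).1 i.2 1) (e j)).det

theorem eval_mnr (e : GG N → Ix N d) (c : Ix N d → k) :
    eval c (mnr e) = (Matrix.of fun i j => xs c i (e j)).det := by
  unfold mnr
  rw [RingHom.map_det]
  congr 1
  ext i j
  exact eval_xiX _ _ _

theorem am_mnr (e : GG N → Ix N d) : am k (Ix N d) (mnr e) =
    (Matrix.of fun i j => am k (Ix N d) (xiX (Matrix.single (i : GG N).1 i.2 1) (e j))).det := by
  unfold mnr
  rw [RingHom.map_det]
  rfl

theorem exists_cols (hd : 2 ≤ d) {f : Ix N d → k} (hf : NZ (tup f)) :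
    ∃ e : GG N → Ix N d, Function.Injective e ∧ eval f (mnr e) ≠ 0 := by
  obtain ⟨e, he, hdet⟩ := exists_minor (xs f) (xs_indep hd hf)
  exact ⟨e, he, by rw [eval_mnr]; exact hdet⟩

/-- A semi-invariant which is nonzero only at nondegenerate points has positive weight. -/
theorem weight_ne_zero (hd : 2 ≤ d) {f : Ix N d → k} {w : ℕ} {R : SS k N d} (hR : IsSemi w R)
    (hRf : eval f R ≠ 0) (hRNZ : ∀ c, eval c R ≠ 0 → NZ (tup c)) : w ≠ 0 := by
  rintro rfl
  have h1 := hR ((0 : k) • 1) f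
  rw [actT_scalar, pow_zero, one_mul, zero_pow (by omega), zero_smul] at h1
  have h2 := hRNZ 0 (by rw [h1]; exact hRf)
  exact ne_zero_of_NZ h2 rfl

/-- Invariant functions with prescribed conormal gradient at a point with trivial stabiliser. -/
theorem exists_inv_at (hd : 2 ≤ d) {f c : Ix N d → k} (hc : NZ (tup c)) (ht : Triv c)
    {w0 : ℕ} (hw0 : w0 ≠ 0) {R : SS k N d} (hR : IsSemi w0 R) (hRf : eval f R ≠ 0)
    (hRc : eval c R ≠ 0) (lam : Ix N d → k)
    (hlam : ∀ B : Matrix (Fin (N + 1)) (Fin (N + 1)) k, ∑ p, lam p * xi B c p = 0) :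
    ∃ (u : KF k (Ix N d)) (_ : u ∈ Rf f) (huc : u ∈ Rf c), Inv u ∧ ev c ⟨u, huc⟩ = 0 ∧
      ∃ κ : k, κ ≠ 0 ∧ ∀ p, ev c (gr (⟨u, huc⟩ : Rf c) p) = κ * lam p := by
  obtain ⟨w, P, Q, hP, hQ, hQc, hPc, hdd⟩ := span_at hd hc ht lam hlam
  have hN1 : IsSemi (w * w0) (P * Q ^ (w0 - 1)) := by
    have h1 := hP.mul (hQ.pow (w0 - 1))
    have h2 : w + w * (w0 - 1) = w * w0 := by
      obtain ⟨m, rfl⟩ := Nat.exists_eq_succ_of_ne_zero hw0
      simp only [Nat.succ_eq_add_one, Nat.add_sub_cancel]
      ring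
    rwa [h2] at h1
  have hD1 : IsSemi (w * w0) (R ^ w) := by
    have h1 := hR.pow w
    rwa [mul_comm] at h1
  have hRfw : eval f (R ^ w) ≠ 0 := by rw [map_pow]; exact pow_ne_zero _ hRf
  have hRcw : eval c (R ^ w) ≠ 0 := by rw [map_pow]; exact pow_ne_zero _ hRc
  refine ⟨_, mem_Rf.mpr ⟨P * Q ^ (w0 - 1), R ^ w, hRfw, rfl⟩,
    mem_Rf.mpr ⟨P * Q ^ (w0 - 1), R ^ w, hRcw, rfl⟩, inv_of_semi hN1 hD1, ?_,
    eval c Q ^ w0 / eval c (R ^ w), ?_, fun p => ?_⟩
  · have hR0 : am k (Ix N d) (R ^ w) ≠ 0 := am_ne_zero (by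
      intro h0
      exact hRcw (by rw [h0, map_zero]))
    rw [ev_eq c _ hRcw (P := P * Q ^ (w0 - 1)) (by field_simp), map_mul (eval c) P, hPc, zero_mul,
      zero_div]
  · exact div_ne_zero (pow_ne_zero _ hQc) hRcw
  · have hN0 : eval c (P * Q ^ (w0 - 1)) = 0 := by rw [map_mul, hPc, zero_mul]
    have hder : eval c (pderiv p (P * Q ^ (w0 - 1))) =
        eval c Q ^ (w0 - 1) * eval c (pderiv p P) := by
      rw [Derivation.leibniz, smul_eq_mul, smul_eq_mul, map_add, map_mul (eval c) P, hPc,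
        zero_mul, zero_add, map_mul, map_pow]
    rw [ev_gr _ hRcw rfl p, hN0, hder, zero_mul, sub_zero]
    have h1 : eval c (pderiv p P) = eval c Q * lam p := by
      have h2 := hdd (Pi.single p 1)
      unfold dd at h2
      rw [Finset.sum_eq_single p (by
        intro b _ hb
        simp [hb]) (by simp), Finset.sum_eq_single p (by
        intro b _ hb
        simp [hb]) (by simp)] at h2
      simpa using h2
    rw [h1]
    have h3 : eval c Q ^ w0 = eval c Q ^ (w0 - 1) * eval c Q := by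
      rw [← pow_succ, Nat.sub_add_cancel (Nat.one_le_iff_ne_zero.mpr hw0)]
    rw [h3]
    field_simp

/-- The set of good invariants on each hypersurface through `f`. -/
theorem exists_good (hN : 1 ≤ N) (hd : 2 ≤ d) (h : ¬ (N = 1 ∧ d = 2)) {f : Ix N d → k}
    (hf : NZ (tup f)) {e : GG N → Ix N d} (he : Function.Injective e)
    (hef : eval f (mnr e) ≠ 0) (D : SS k N d) (hD : Irreducible D) (hDf : eval f D = 0) :
    ∃ (c : Ix N d → k) (u : Comp e → KF k (Ix N d)) (huf : ∀ a, u a ∈ Rf f)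
      (huc : ∀ a, u a ∈ Rf c), eval c D = 0 ∧ (∀ a, (⟨u a, huf a⟩ : Rf f) ∈ OO f) ∧
        ev c (jac (fun a => (⟨u a, huc a⟩ : Rf c)) (fun b : Comp e => (b : Ix N d))).det ≠ 0 := by
  classical
  obtain ⟨w0, R, hR, hRf, hRNZ⟩ := exists_semi_NZ hd hf
  have hw0 := weight_ne_zero hd hR hRf hRNZ
  have hE : ¬ D ∣ R * mnr e := by
    rintro ⟨Q, hQ⟩
    have h1 := congrArg (eval f) hQ
    rw [map_mul, map_mul, hDf, zero_mul] at h1
    exact mul_ne_zero hRf hef h1
  obtain ⟨c, hcD, hcE, hcNZ, hct⟩ := exists_triv_on_divisor hN hd h hf D hD hDf _ hE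
  rw [map_mul] at hcE
  have hRc := left_ne_zero_of_mul hcE
  have hmc := right_ne_zero_of_mul hcE
  rw [eval_mnr] at hmc
  have key : ∀ b : Comp e, ∃ (u : KF k (Ix N d)) (_ : u ∈ Rf f) (huc : u ∈ Rf c), Inv u ∧
      ∃ κ : k, κ ≠ 0 ∧ ∀ b' : Comp e, ev c (gr (⟨u, huc⟩ : Rf c) b') =
        κ * if b' = b then 1 else 0 := by
    intro b
    obtain ⟨lam, h1, h2⟩ := exists_lam (M := xs c) he hmc b
    obtain ⟨u, huf, huc, hu, _, κ, hκ, hgr⟩ := exists_inv_at hd hcNZ hct hw0 hR hRf hRc lam (by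
      intro B
      simp_rw [xi_eq_xs, Finset.mul_sum]
      rw [Finset.sum_comm]
      apply Finset.sum_eq_zero
      intro i _
      have h3 : ∀ p, lam p * (B i.1 i.2 * xs c i p) = B i.1 i.2 * (lam p * xs c i p) :=
        fun p => by ring
      simp_rw [h3]
      rw [← Finset.mul_sum, h1, mul_zero])
    exact ⟨u, huf, huc, hu, κ, hκ, fun b' => by rw [hgr, h2]⟩
  choose u huf huc hu κ hκ hgr using key
  refine ⟨c, u, huf, huc, hcD, fun a => hu a, ?_⟩
  have h1 : ev c (jac (fun a => (⟨u a, huc a⟩ : Rf c)) (fun b : Comp e => (b : Ix N d))).det =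
      (Matrix.diagonal κ).det := by
    rw [RingHom.map_det]
    congr 1
    refine Matrix.ext fun a b => ?_
    rw [Matrix.diagonal_apply]
    change ev c (gr (⟨u a, huc a⟩ : Rf c) b) = _
    rw [hgr a b]
    by_cases hab : a = b
    · subst hab; simp
    · rw [if_neg hab, if_neg (fun h => hab h.symm), mul_zero]
  rw [h1, Matrix.det_diagonal]
  exact Finset.prod_ne_zero_iff.mpr fun a _ => hκ a

/-- Algebraically independent invariants. -/
theorem indep_card_le {e : GG N → Ix N d} (he : Function.Injective e)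
    (hm : (mnr e : SS k N d) ≠ 0) {σ : Type} [Fintype σ] (u : σ → KF k (Ix N d))
    (hu : ∀ i, Inv (u i)) (hind : AlgebraicIndependent k u) :
    Fintype.card σ ≤ Fintype.card (Comp e) := by
  classical
  -- dual derivations
  have key : ∀ j : σ, ∃ D : Derivation k (KF k (Ix N d)) (KF k (Ix N d)),
      ∀ i, D (u i) = if i = j then 1 else 0 := by
    intro j
    obtain ⟨φ, h1, h2, h3⟩ := exists_dual_ext (k := k) u (fun i => if i = j then 1 else 0) (by
      intro P hP
      rw [(algebraicIndependent_iff.mp hind) P hP]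
      simp)
    refine ⟨derOf φ h1 (fun a => by
      rw [h2]
      rfl), fun i => ?_⟩
    rw [derOf_apply]
    exact h3 i
  choose D hD using key
  have hli : LinearIndependent (KF k (Ix N d)) (fun (i : σ) (b : Comp e) => pd (b : Ix N d) (u i)) := by
    rw [Fintype.linearIndependent_iff]
    intro a ha j
    have hw : (fun p => ∑ i, a i * pd p (u i)) = (0 : Ix N d → KF k (Ix N d)) := by
      refine eq_zero_of_comp (M := fun (i : GG N) p =>
        am k (Ix N d) (xiX (Matrix.single i.1 i.2 1) p)) he ?_ _ ?_ ?_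
      · rw [← am_mnr]
        exact am_ne_zero hm
      · intro i
        simp_rw [Finset.mul_sum]
        rw [Finset.sum_comm]
        apply Finset.sum_eq_zero
        intro s _
        have h3 : ∀ p, am k (Ix N d) (xiX (Matrix.single i.1 i.2 1) p) * (a s * pd p (u s)) =
          a s * (am k (Ix N d) (xiX (Matrix.single i.1 i.2 1) p) * pd p (u s)) := fun p => by ring
        simp_rw [h3]
        rw [← Finset.mul_sum, inv_pd (hu s), mul_zero]
      · intro b
        have h4 := congrFun ha b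
        rw [Finset.sum_apply] at h4
        exact h4
    have h5 : ∑ i, a i * D j (u i) = 0 := by
      have h6 : ∀ i, a i * D j (u i) = ∑ p, D j (am k (Ix N d) (X p)) * (a i * pd p (u i)) := by
        intro i
        rw [derivation_eq_sum (D j) (u i), Finset.mul_sum]
        exact Finset.sum_congr rfl fun p _ => by ring
      simp_rw [h6]
      rw [Finset.sum_comm]
      apply Finset.sum_eq_zero
      intro p _
      rw [← Finset.mul_sum]
      have h7 := congrFun hw p
      simp only [Pi.zero_apply] at h7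
      rw [h7, mul_zero]
    simp_rw [hD j] at h5
    simpa using h5
  have h1 := hli.fintype_card_le_finrank
  rwa [Module.finrank_fintype_fun_eq_card] at h1

end

end Pool.Agent.TH170.SL
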