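import Pool.Agent.TH170.SL.Frac

/-!
The local ring of affine space at a point, as a ring of rational functions.
-/

open MvPolynomial

namespace Pool.Agent.TH170.SL

open Pool.Agent.Helper819.Dyn

noncomputable section

set_option linter.unusedSectionVars false

variable {k : Type} [Field k] {ι : Type} [Fintype ι]

/-- the maximal ideal of a point -/
def mfI (f : ι → k) : Ideal (MvPolynomial ι k) := RingHom.ker (eval f)

instance mfI_prime (f : ι → k) : (mfI f).IsPrime := RingHom.ker_isPrime (eval f)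

theorem mem_mfI (f : ι → k) (P : MvPolynomial ι k) : P ∈ mfI f ↔ eval f P = 0 := RingHom.mem_ker

theorem primeCompl_le (f : ι → k) : (mfI f).primeCompl ≤ nonZeroDivisors (MvPolynomial ι k) := by
  intro P hP
  rw [mem_nonZeroDivisors_iff_ne_zero]
  rintro rfl
  exact hP ((mem_mfI f 0).mpr (map_zero _))

/-- rational functions regular at `f` -/
def Rf (f : ι → k) : Subalgebra (MvPolynomial ι k) (KF k ι) :=
  Localization.subalgebra.ofField (KF k ι) (mfI f).primeCompl (primeCompl_le f)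

instance (f : ι → k) : IsLocalization (mfI f).primeCompl (Rf f) :=
  Localization.subalgebra.isLocalization_ofField _ _ _

instance (f : ι → k) : IsLocalization.AtPrime (Rf f) (mfI f) :=
  inferInstanceAs (IsLocalization (mfI f).primeCompl (Rf f))

theorem mem_Rf {f : ι → k} {u : KF k ι} : u ∈ Rf f ↔
    ∃ P Q : MvPolynomial ι k, eval f Q ≠ 0 ∧ u = am k ι P * (am k ι Q)⁻¹ := by
  constructor
  · rintro ⟨P, Q, hQ, rfl⟩
    exact ⟨P, Q, fun h => hQ ((mem_mfI f Q).mpr h), rfl⟩
  · rintro ⟨P, Q, hQ, rfl⟩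
    exact ⟨P, Q, fun h => hQ ((mem_mfI f Q).mp h), rfl⟩

instance (f : ι → k) : IsNoetherianRing (Rf f) :=
  IsLocalization.isNoetherianRing (mfI f).primeCompl (Rf f) inferInstance

instance (f : ι → k) : IsLocalRing (Rf f) :=
  IsLocalization.AtPrime.isLocalRing (Rf f) (mfI f)

theorem ev_unit (f : ι → k) (y : (mfI f).primeCompl) : IsUnit (eval f (y : MvPolynomial ι k)) :=
  isUnit_iff_ne_zero.mpr fun h => y.2 ((mem_mfI f y).mpr h)

/-- value at the point -/
def ev (f : ι → k) : Rf f →+* k := IsLocalization.lift (M := (mfI f).primeCompl) (ev_unit f)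

theorem am_mem (f : ι → k) (P : MvPolynomial ι k) : am k ι P ∈ Rf f :=
  mem_Rf.mpr ⟨P, 1, by simp, by simp⟩

theorem ev_am (f : ι → k) (P : MvPolynomial ι k) : ev f ⟨am k ι P, am_mem f P⟩ = eval f P :=
  IsLocalization.lift_eq (ev_unit f) P

theorem ev_eq (f : ι → k) {u : KF k ι} (hu : u ∈ Rf f) {P Q : MvPolynomial ι k}
    (hQ : eval f Q ≠ 0) (h : u * am k ι Q = am k ι P) : ev f ⟨u, hu⟩ = eval f P / eval f Q := by
  have h1 : (⟨u, hu⟩ : Rf f) * ⟨am k ι Q, am_mem f Q⟩ = ⟨am k ι P, am_mem f P⟩ := Subtype.ext h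
  have h2 := congrArg (ev f) h1
  rw [map_mul, ev_am, ev_am] at h2
  rw [← h2]
  field_simp

theorem ev_eq_zero_iff (f : ι → k) (u : Rf f) : ev f u = 0 ↔ u ∈ IsLocalRing.maximalIdeal (Rf f) := by
  rw [IsLocalRing.mem_maximalIdeal, mem_nonunits_iff]
  constructor
  · intro h hu
    have := hu.map (ev f)
    rw [h] at this
    exact not_isUnit_zero this
  · intro h
    by_contra hne
    apply h
    obtain ⟨u, hu⟩ := u
    obtain ⟨P, Q, hQ, rfl⟩ := mem_Rf.mp hu
    have hQ0 : am k ι Q ≠ 0 := am_ne_zero (by rintro rfl; simp at hQ)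
    have h1 := ev_eq f hu hQ (P := P) (by field_simp)
    rw [h1] at hne
    have hP : eval f P ≠ 0 := by
      intro h0
      rw [h0, zero_div] at hne
      exact hne rfl
    have hP0 : am k ι P ≠ 0 := am_ne_zero (by rintro rfl; simp at hP)
    refine IsUnit.of_mul_eq_one ⟨am k ι Q * (am k ι P)⁻¹, mem_Rf.mpr ⟨Q, P, hP, rfl⟩⟩ ?_
    apply Subtype.ext
    change am k ι P * (am k ι Q)⁻¹ * (am k ι Q * (am k ι P)⁻¹) = 1
    field_simp

variable [DecidableEq ι]

theorem pd_mem {f : ι → k} {u : KF k ι} (hu : u ∈ Rf f) (p : ι) : pd p u ∈ Rf f := by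
  obtain ⟨P, Q, hQ, rfl⟩ := mem_Rf.mp hu
  have hQ0 : Q ≠ 0 := by rintro rfl; simp at hQ
  rw [pd_div p P Q hQ0]
  exact mem_Rf.mpr ⟨_, _, by rw [map_mul]; exact mul_ne_zero hQ hQ, rfl⟩

/-- gradient -/
def gr {f : ι → k} (u : Rf f) : ι → Rf f := fun p => ⟨pd p (u : KF k ι), pd_mem u.2 p⟩

theorem gr_add {f : ι → k} (u v : Rf f) : gr (u + v) = gr u + gr v := by
  funext p
  apply Subtype.ext
  change pd p ((u : KF k ι) + (v : KF k ι)) = pd p (u : KF k ι) + pd p (v : KF k ι)
  rw [map_add]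

theorem gr_mul {f : ι → k} (u v : Rf f) : gr (u * v) = u • gr v + v • gr u := by
  funext p
  apply Subtype.ext
  change pd p ((u : KF k ι) * (v : KF k ι)) =
    (u : KF k ι) * pd p (v : KF k ι) + (v : KF k ι) * pd p (u : KF k ι)
  rw [(pd p).leibniz, smul_eq_mul, smul_eq_mul]

theorem gr_zero {f : ι → k} : gr (0 : Rf f) = 0 := by
  funext p
  apply Subtype.ext
  change pd p (0 : KF k ι) = 0
  rw [map_zero]

theorem gr_sum {f : ι → k} {σ : Type} (s : Finset σ) (u : σ → Rf f) :
    gr (∑ i ∈ s, u i) = ∑ i ∈ s, gr (u i) := by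
  classical
  induction s using Finset.induction_on with
  | empty => simp [gr_zero]
  | insert a s ha ih => rw [Finset.sum_insert ha, Finset.sum_insert ha, gr_add, ih]

/-- constants -/
def cst (f : ι → k) (a : k) : Rf f := ⟨am k ι (C a), am_mem f (C a)⟩

theorem gr_cst {f : ι → k} (a : k) : gr (cst f a) = 0 := by
  funext p
  apply Subtype.ext
  change pd p (am k ι (C a)) = 0
  rw [pd_am, pderiv_C, map_zero]

theorem ev_cst (f : ι → k) (a : k) : ev f (cst f a) = a := by
  change ev f ⟨am k ι (C a), am_mem f (C a)⟩ = a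
  rw [ev_am, eval_C]

/-- value of the gradient -/
theorem ev_gr {f : ι → k} (u : Rf f) {P Q : MvPolynomial ι k} (hQ : eval f Q ≠ 0)
    (h : (u : KF k ι) = am k ι P * (am k ι Q)⁻¹) (p : ι) :
    ev f (gr u p) = (eval f Q * eval f (pderiv p P) - eval f P * eval f (pderiv p Q)) /
      (eval f Q * eval f Q) := by
  have hQ0 : Q ≠ 0 := by rintro rfl; simp at hQ
  have h1 : pd p (u : KF k ι) = am k ι (Q * pderiv p P - P * pderiv p Q) * (am k ι (Q * Q))⁻¹ := by
    rw [h, pd_div p P Q hQ0]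
  have h2 := ev_eq f (gr u p).2 (P := Q * pderiv p P - P * pderiv p Q) (Q := Q * Q)
    (by rw [map_mul]; exact mul_ne_zero hQ hQ) (by
      change pd p (u : KF k ι) * _ = _
      rw [h1]
      have : am k ι (Q * Q) ≠ 0 := am_ne_zero (mul_ne_zero hQ0 hQ0)
      field_simp)
  rw [map_sub, map_mul, map_mul, map_mul] at h2
  exact h2

/-- **Differentials of elements of a subring whose maximal ideal is generated by `y`.** -/
theorem gr_mem_span {f : ι → k} {τ : Type} [Fintype τ] (O : Subring (Rf f))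
    (y : τ → Rf f) (hy0 : ∀ b, ev f (y b) = 0)
    (hc : ∀ a : k, cst f a ∈ O)
    (hgen : ∀ u ∈ O, ev f u = 0 → ∃ w : τ → Rf f, (∀ b, w b ∈ O) ∧ u = ∑ b, w b * y b)
    (u : Rf f) (hu : u ∈ O) : gr u ∈ Submodule.span (Rf f) (Set.range fun b => gr (y b)) := by
  set N := Submodule.span (Rf f) (Set.range fun b => gr (y b)) with hN
  set 𝔪 := IsLocalRing.maximalIdeal (Rf f) with hm
  have key : ∀ s : ℕ, ∀ u ∈ O, gr u ∈ N ⊔ (𝔪 ^ s • (⊤ : Submodule (Rf f) (ι → Rf f))) := by
    intro s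
    induction s with
    | zero =>
      intro u _
      rw [pow_zero, Ideal.one_eq_top, Submodule.top_smul, sup_top_eq]
      trivial
    | succ s ih =>
      intro u hu
      obtain ⟨w, hw, hw2⟩ := hgen (u - cst f (ev f u)) (O.sub_mem hu (hc _)) (by
        rw [map_sub, ev_cst, sub_self])
      have h1 : u = cst f (ev f u) + ∑ b, w b * y b := by rw [← hw2]; ring
      rw [h1, gr_add, gr_cst, zero_add, gr_sum]
      refine Submodule.sum_mem _ fun b _ => ?_
      rw [gr_mul]
      refine Submodule.add_mem _ ?_ ?_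
      · apply Submodule.mem_sup_left
        exact Submodule.smul_mem _ _ (Submodule.subset_span ⟨b, rfl⟩)
      · obtain ⟨n, hn, z, hz, hnz⟩ := Submodule.mem_sup.mp (ih (w b) (hw b))
        rw [← hnz, smul_add]
        refine Submodule.add_mem _ (Submodule.mem_sup_left (Submodule.smul_mem _ _ hn))
          (Submodule.mem_sup_right ?_)
        rw [pow_succ', mul_smul]
        exact Submodule.smul_mem_smul ((ev_eq_zero_iff f (y b)).mp (hy0 b)) hz
  have h2 : N.mkQ (gr u) ∈ (⨅ i : ℕ, 𝔪 ^ i • (⊤ : Submodule (Rf f) ((ι → Rf f) ⧸ N))) := by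
    rw [Submodule.mem_iInf]
    intro s
    have h3 := Submodule.mem_map_of_mem (f := N.mkQ) (key s u hu)
    rw [Submodule.map_sup, Submodule.map_smul''] at h3
    rw [Submodule.mkQ_map_self, bot_sup_eq] at h3
    exact Submodule.smul_mono le_rfl le_top h3
  rw [Ideal.iInf_pow_smul_eq_bot_of_isLocalRing 𝔪 (Ideal.IsPrime.ne_top inferInstance)] at h2
  rw [Submodule.mem_bot] at h2
  have h3 : gr u ∈ LinearMap.ker N.mkQ := h2
  rwa [Submodule.ker_mkQ] at h3

end

end Pool.Agent.TH170.SL
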