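import Pool.Agent.TH170.SL.Basic

/-!
The generic point of an orbit with trivial stabiliser: descent of functionals.
-/

open MvPolynomial

namespace Pool.Agent.TH170.SL

open Pool.Agent.Helper819.Apolar Pool.Agent.Helper819.Dyn

noncomputable section

set_option linter.unusedSectionVars false

variable {k : Type} [Field k] {N d : ℕ}

/-- function field of the space of matrices -/
abbrev LL (k : Type) [Field k] (N : ℕ) : Type := FractionRing (KA k N)

/-- the generic matrix over the function field -/
def MM (k : Type) [Field k] (N : ℕ) : Matrix (Fin (N + 1)) (Fin (N + 1)) (LL k N) :=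
  Matrix.of fun i j => algebraMap (KA k N) (LL k N) (X (i, j))

/-- the generic point of the orbit -/
def xx (c : Ix N d → k) : Ix N d → LL k N := actT (MM k N) (bc (LL k N) c)

theorem toAlgHom_eq (q : KA k N) :
    algebraMap (KA k N) (LL k N) q = aeval (ent (MM k N)) q := by
  have h1 : IsScalarTower.toAlgHom k (KA k N) (LL k N) = aeval (ent (MM k N)) := by
    apply algHom_ext
    intro p
    rw [aeval_X]
    rfl
  exact congrArg (fun φ : KA k N →ₐ[k] LL k N => φ q) h1

theorem LL_inj : Function.Injective (algebraMap (KA k N) (LL k N)) :=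
  IsFractionRing.injective (KA k N) (LL k N)

theorem MM_det : (MM k N).det ≠ 0 := by
  rw [← aeval_dt_S (k := k), ← toAlgHom_eq, Ne, FaithfulSMul.algebraMap_eq_zero_iff]
  exact Matrix.det_mvPolynomialX_ne_zero _ _

theorem MM_unit : IsUnit (MM k N).det := isUnit_iff_ne_zero.mpr MM_det

theorem alg_orb (c : Ix N d → k) (p : Ix N d) :
    algebraMap (KA k N) (LL k N) (orb c p) = xx c p := by
  rw [toAlgHom_eq, aeval_orb_S]
  rfl

theorem alg_aeval_orb (c : Ix N d → k) (P : SS k N d) :
    algebraMap (KA k N) (LL k N) (aeval (orb c) P) = aeval (xx c) P := by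
  have h1 := comp_aeval_apply (orb c) (IsScalarTower.toAlgHom k (KA k N) (LL k N)) P
  have h2 : (fun p => IsScalarTower.toAlgHom k (KA k N) (LL k N) (orb c p)) = xx c := by
    funext p
    exact alg_orb c p
  rw [h2] at h1
  exact h1

/-- infinitesimal displacement of the generic point -/
theorem displacement {c : Ix N d → k} (φ : LL k N →+* DualNumber (LL k N))
    (h1 : ∀ a, (φ a).fst = a)
    (h2 : ∀ a : k, φ (algebraMap k (LL k N) a) = algebraMap k (DualNumber (LL k N)) a) :
    ∃ B : Matrix (Fin (N + 1)) (Fin (N + 1)) (LL k N),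
      (∀ p, (φ (xx c p)).snd = xi B (xx c) p) ∧
      ∀ i j, (φ (MM k N i j)).snd = ((MM k N) * B) i j := by
  set M := MM k N
  let B1 : Matrix (Fin (N + 1)) (Fin (N + 1)) (LL k N) := Matrix.of fun i j => (φ (M i j)).snd
  have hM : M.map φ = (M.map (algebraMap (LL k N) (DualNumber (LL k N)))) *
      oneEps (DualNumber.eps : DualNumber (LL k N)) (M⁻¹ * B1) := by
    unfold oneEps
    rw [mul_add, mul_one, Matrix.mul_smul, ← Matrix.map_mul, ← mul_assoc,
      Matrix.mul_nonsing_inv _ MM_unit, one_mul]
    refine Matrix.ext fun i j => ?_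
    rw [Matrix.add_apply, Matrix.smul_apply, Matrix.map_apply, Matrix.map_apply,
      Matrix.map_apply, smul_eq_mul]
    apply TrivSqZeroExt.ext
    · rw [h1, fst_form]
    · rw [snd_form]
      rfl
  refine ⟨M⁻¹ * B1, ?_, ?_⟩
  · intro p
    have h3 : φ (xx c p) = actT (M.map φ) (fun p => φ (bc (LL k N) c p)) p := map_actT φ M _ p
    have h4 : (fun p => φ (bc (LL k N) c p)) =
        (fun p => algebraMap (LL k N) (DualNumber (LL k N)) (bc (LL k N) c p)) := by
      funext q
      change φ (algebraMap k (LL k N) (c q)) = _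
      rw [h2]
      exact IsScalarTower.algebraMap_apply k (LL k N) (DualNumber (LL k N)) (c q)
    rw [h3, hM, ← actT_actT, h4]
    have h5 : actT (M.map (algebraMap (LL k N) (DualNumber (LL k N))))
        (fun p => algebraMap (LL k N) (DualNumber (LL k N)) (bc (LL k N) c p)) =
        fun p => algebraMap (LL k N) (DualNumber (LL k N)) (xx c p) := by
      funext q
      exact (map_actT (algebraMap (LL k N) (DualNumber (LL k N))) M (bc (LL k N) c) q).symm
    rw [h5, actT_eps _ DualNumber.eps_mul_eps, snd_form]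
  · intro i j
    rw [← mul_assoc, Matrix.mul_nonsing_inv _ MM_unit, one_mul]
    rfl

variable [IsAlgClosed k] [CharZero k]

/-- The infinitesimal stabiliser vanishes over extensions. -/
theorem xi_inj_ext (hd : 2 ≤ d) {K : Type} [Field K] [Algebra k K] {c : Ix N d → k}
    (hc : NZ (tup c)) (B : Matrix (Fin (N + 1)) (Fin (N + 1)) K)
    (h : xi B (bc K c) = 0) : B = 0 := by
  have : CharZero K := charZero_of_injective_algebraMap (algebraMap k K).injective
  let Ω := AlgebraicClosure K
  have hcΩ : NZ (tup (bc Ω c)) := by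
    have h1 := NZ_map (K := Ω) hc
    convert h1 using 1
    funext i
    exact (map_tup (algebraMap k Ω) c i).symm
  have h1 : xi (B.map (algebraMap K Ω)) (bc Ω c) = 0 := by
    funext p
    have h2 := map_xi (algebraMap K Ω) B (bc K c) p
    rw [h] at h2
    have h3 : (fun p => algebraMap K Ω (bc K c p)) = bc Ω c := by
      funext q
      exact (IsScalarTower.algebraMap_apply k K Ω (c q)).symm
    rw [h3] at h2
    rw [← h2]
    simp
  have h2 := lie_inj hd hcΩ (B.map (algebraMap K Ω)) (by
    intro i
    have h3 := congrFun (tup_xi (by omega : 1 ≤ d) (B.map (algebraMap K Ω)) (bc Ω c)) i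
    rw [h1] at h3
    have h4 : (tup (0 : Ix N d → Ω) i) = 0 := by simp [tup]
    rw [h4] at h3
    unfold lieT at h3
    linear_combination -h3)
  ext i j
  have h3 := congrFun (congrFun h2 i) j
  rw [Matrix.map_apply] at h3
  exact (map_eq_zero (algebraMap K Ω)).mp h3

theorem separable (hd : 2 ≤ d) {c : Ix N d → k} (hc : NZ (tup c)) :
    Algebra.IsSeparable (IntermediateField.adjoin k (Set.range (xx c))) (LL k N) := by
  apply sep_of_unram
  intro φ h1 h2 h3
  obtain ⟨B, hB1, hB2⟩ := displacement (c := c) φ h1 h2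
  have h4 : xi B (xx c) = 0 := by
    funext p
    rw [← hB1, h3]
    rfl
  have h5 : xi ((MM k N) * B * (MM k N)⁻¹) (bc (LL k N) c) = 0 :=
    xi_conj_zero (MM k N) B MM_det (bc (LL k N) c) h4
  have h6 := xi_inj_ext hd hc _ h5
  have h7 : B = 0 := conj_eq_zero (MM k N) B MM_det h6
  -- the derivation vanishes on the generators
  have h8 : ∀ q : KA k N, φ (algebraMap (KA k N) (LL k N) q) =
      algebraMap (LL k N) (DualNumber (LL k N)) (algebraMap (KA k N) (LL k N) q) := by
    intro q
    induction q using MvPolynomial.induction_on with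
    | C a =>
      have e1 : algebraMap (KA k N) (LL k N) (C a) = algebraMap k (LL k N) a :=
        (IsScalarTower.algebraMap_apply k (KA k N) (LL k N) a).symm
      rw [e1, h2]
      exact IsScalarTower.algebraMap_apply k (LL k N) (DualNumber (LL k N)) a
    | add p q hp hq => rw [map_add, map_add, map_add, hp, hq]
    | mul_X p i hp =>
      rw [map_mul, map_mul, map_mul, hp]
      congr 1
      apply TrivSqZeroExt.ext
      · rw [h1]; rfl
      · have e1 := hB2 i.1 i.2
        rw [h7, mul_zero] at e1
        exact e1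
  intro a
  obtain ⟨p, q, hq, rfl⟩ := IsFractionRing.div_surjective (A := KA k N) a
  have hq0 : algebraMap (KA k N) (LL k N) q ≠ 0 := by
    rw [Ne, FaithfulSMul.algebraMap_eq_zero_iff]
    exact nonZeroDivisors.ne_zero hq
  have h9 : φ (algebraMap (KA k N) (LL k N) p / algebraMap (KA k N) (LL k N) q) *
      algebraMap (LL k N) (DualNumber (LL k N)) (algebraMap (KA k N) (LL k N) q) =
      algebraMap (LL k N) (DualNumber (LL k N)) (algebraMap (KA k N) (LL k N) p) := by
    rw [← h8, ← h8, ← map_mul, div_mul_cancel₀ _ hq0]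
  have h10 := congrArg TrivSqZeroExt.snd h9
  rw [DualNumber.snd_mul] at h10
  simp only [TrivSqZeroExt.algebraMap_eq_inl, TrivSqZeroExt.snd_inl, TrivSqZeroExt.fst_inl,
    mul_zero, zero_add] at h10
  exact (mul_eq_zero.mp h10).resolve_right hq0

/-- Embeddings fixing the generic point of the orbit scale the generic matrix by a root of unity. -/
theorem embedding_scalar {c : Ix N d → k} (hc0 : c ≠ 0) (ht : Triv c) {Ω : Type} [Field Ω]
    [Algebra k Ω] [Algebra (LL k N) Ω] [IsScalarTower k (LL k N) Ω] (σ : LL k N →+* Ω)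
    (h1 : ∀ a : k, σ (algebraMap k (LL k N) a) = algebraMap k Ω a)
    (h2 : ∀ p, σ (xx c p) = algebraMap (LL k N) Ω (xx c p)) :
    ∃ t : Ω, t ^ (N + d) = 1 ∧ t ≠ 0 ∧
      (MM k N).map (algebraMap (LL k N) Ω) = t • (MM k N).map σ := by
  set M1 := (MM k N).map σ with hM1
  set M2 := (MM k N).map (algebraMap (LL k N) Ω) with hM2
  have hd1 : M1.det ≠ 0 := by
    have : M1.det = σ (MM k N).det := by rw [RingHom.map_det]; rfl
    rw [this]
    exact (map_ne_zero σ).mpr MM_det
  have hd2 : M2.det ≠ 0 := by
    have : M2.det = algebraMap (LL k N) Ω (MM k N).det := by rw [RingHom.map_det]; rfl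
    rw [this]
    exact (map_ne_zero _).mpr MM_det
  have e1 : ∀ p, σ (xx c p) = actT M1 (bc Ω c) p := by
    intro p
    have h3 : σ (xx c p) = actT M1 (fun p => σ (bc (LL k N) c p)) p := map_actT σ _ _ p
    rw [h3]
    congr 1
    funext q
    exact h1 (c q)
  have e2 : ∀ p, algebraMap (LL k N) Ω (xx c p) = actT M2 (bc Ω c) p := by
    intro p
    have h3 : algebraMap (LL k N) Ω (xx c p) =
        actT M2 (fun p => algebraMap (LL k N) Ω (bc (LL k N) c p)) p := map_actT _ _ _ p
    rw [h3]
    congr 1
    funext q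
    exact (IsScalarTower.algebraMap_apply k (LL k N) Ω (c q)).symm
  have e3 : actT M1 (bc Ω c) = actT M2 (bc Ω c) := by
    funext p
    rw [← e1, ← e2, h2]
  have hu1 : IsUnit M1.det := isUnit_iff_ne_zero.mpr hd1
  have e4 : actT (M2 * M1⁻¹) (bc Ω c) = bc Ω c := by
    rw [← actT_actT, ← e3, actT_actT, Matrix.mul_nonsing_inv _ hu1, actT_one]
  obtain ⟨t, ht1⟩ := triv_ext ht (M2 * M1⁻¹) (by
    rw [Matrix.det_mul, Matrix.det_nonsing_inv, Ring.inverse_eq_inv']
    exact mul_ne_zero hd2 (inv_ne_zero hd1)) e4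
  have hbc0 : (bc Ω c) ≠ 0 := by
    obtain ⟨p, hp⟩ := Function.ne_iff.mp hc0
    intro h
    apply hp
    exact (map_eq_zero (algebraMap k Ω)).mp (congrFun h p)
  have e5 : t ^ (N + d) = 1 := scalar_pow hbc0 t (by rw [← ht1]; exact e4)
  have e6 : M2 = t • M1 := by
    have := congrArg (fun Y => Y * M1) ht1
    simp only [mul_assoc, Matrix.nonsing_inv_mul _ hu1, mul_one, Matrix.smul_mul, one_mul] at this
    exact this
  refine ⟨t, e5, ?_, e6⟩
  rintro rfl
  apply hd2
  rw [e6, zero_smul]
  exact Matrix.det_zero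

end

end Pool.Agent.TH170.SL
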