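import Pool.Agent.TH170.SL.Loc

/-!
If the ring of invariants at `f` is a regular local ring then `f` has only scalar automorphisms.
-/

open MvPolynomial

namespace Pool.Agent.TH170.SL

open Pool.Agent.Helper819.Apolar Pool.Agent.Helper819.Dyn

noncomputable section

set_option linter.unusedSectionVars false

variable {k : Type} [Field k] {N d : ℕ}

section loc

variable [Infinite k]

/-- the value homomorphism on invariants -/
def evO (f : Ix N d → k) : OO f →+* k := (ev f).comp (OO f).subtype

theorem evO_apply (f : Ix N d → k) (u : OO f) : evO f u = ev f (u : Rf f) := rfl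

theorem isUnit_iff_ev (f : Ix N d → k) (u : OO f) : IsUnit u ↔ evO f u ≠ 0 := by
  constructor
  · intro h
    exact (h.map (evO f)).ne_zero
  · intro h
    have h1 : IsUnit (u : Rf f) := by
      by_contra hn
      have h2 := (ev_eq_zero_iff f (u : Rf f)).mpr
        ((IsLocalRing.mem_maximalIdeal _).mpr (mem_nonunits_iff.mpr hn))
      exact h h2
    obtain ⟨v, hv⟩ := h1.exists_right_inv
    have hv' : ((u : Rf f) : KF k (Ix N d)) * (v : KF k (Ix N d)) = 1 :=
      congrArg (Subtype.val) hv
    have hvO : v ∈ OO f := by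
      intro A hA
      have h3 := congrArg (actK A hA) hv'
      rw [map_mul, map_one, u.2 A hA] at h3
      have h4 : ((u : Rf f) : KF k (Ix N d)) ≠ 0 := left_ne_zero_of_mul_eq_one hv'
      exact mul_left_cancel₀ h4 (h3.trans hv'.symm)
    exact IsUnit.of_mul_eq_one (⟨v, hvO⟩ : OO f) (Subtype.ext hv)

instance (f : Ix N d → k) : Nontrivial (OO f) := inferInstance

instance OO_isLocalRing (f : Ix N d → k) : IsLocalRing (OO f) := by
  apply IsLocalRing.of_nonunits_add
  intro a b ha hb
  rw [mem_nonunits_iff, isUnit_iff_ev, not_not] at ha hb ⊢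
  rw [map_add, ha, hb, add_zero]

theorem mem_max_OO (f : Ix N d → k) (u : OO f) :
    u ∈ IsLocalRing.maximalIdeal (OO f) ↔ evO f u = 0 := by
  rw [IsLocalRing.mem_maximalIdeal, mem_nonunits_iff, isUnit_iff_ev, not_not]

/-- constants -/
def cstO (f : Ix N d → k) : k →+* OO f where
  toFun a := ⟨cst f a, cst_mem f a⟩
  map_one' := by
    apply Subtype.ext
    apply Subtype.ext
    change am k (Ix N d) (C 1) = 1
    rw [map_one, map_one]
  map_mul' a b := by
    apply Subtype.ext
    apply Subtype.ext
    change am k (Ix N d) (C (a * b)) = am k (Ix N d) (C a) * am k (Ix N d) (C b)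
    rw [map_mul, map_mul]
  map_zero' := by
    apply Subtype.ext
    apply Subtype.ext
    change am k (Ix N d) (C 0) = 0
    rw [map_zero, map_zero]
  map_add' a b := by
    apply Subtype.ext
    apply Subtype.ext
    change am k (Ix N d) (C (a + b)) = am k (Ix N d) (C a) + am k (Ix N d) (C b)
    rw [map_add, map_add]

/-- the invariants form an algebra over the base field -/
instance (f : Ix N d → k) : Algebra k (OO f) := (cstO f).toAlgebra

/-- inclusion into the rational functions -/
def inclO (f : Ix N d → k) : OO f →ₐ[k] KF k (Ix N d) where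
  toFun u := ((u : Rf f) : KF k (Ix N d))
  map_one' := rfl
  map_mul' _ _ := rfl
  map_zero' := rfl
  map_add' _ _ := rfl
  commutes' a := (IsScalarTower.algebraMap_apply k (SS k N d) (KF k (Ix N d)) a).symm

theorem inclO_inj (f : Ix N d → k) : Function.Injective (inclO f) := by
  intro u v h
  exact Subtype.ext (Subtype.ext h)

end loc

variable [IsAlgClosed k] [CharZero k]

theorem dim_le {f : Ix N d → k} {e : GG N → Ix N d}
    (he : Function.Injective e) (hm : (mnr e : SS k N d) ≠ 0) :
    ringKrullDim (OO f) ≤ (Fintype.card (Comp e) : ℕ) := by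
  apply ringKrullDim_le_of_indep (k := k)
  intro ι _ x hx
  have h1 : AlgebraicIndependent k (fun i => inclO f (x i)) := hx.map' (inclO_inj f)
  exact indep_card_le he hm (fun i => inclO f (x i)) (fun i => (x i).2) h1

/-- generators of the maximal ideal of a regular ring of invariants -/
theorem exists_gen {f : Ix N d → k} {e : GG N → Ix N d}
    (he : Function.Injective e) (hm : (mnr e : SS k N d) ≠ 0) (hreg : IsRegularLocalRing (OO f)) :
    ∃ y : Comp e → OO f, (∀ b, evO f (y b) = 0) ∧
      ∀ u : OO f, evO f u = 0 → ∃ w : Comp e → OO f, u = ∑ b, w b * y b := by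
  classical
  have hfg : (IsLocalRing.maximalIdeal (OO f)).FG := IsNoetherian.noetherian _
  obtain ⟨s, hs1, hs2⟩ := Submodule.FG.exists_span_finset_card_eq_spanFinrank hfg
  have hcard : s.card ≤ Fintype.card (Comp e) := by
    have h1 := hreg.spanFinrank_maximalIdeal
    have h2 := dim_le he hm (f := f)
    rw [← h1] at h2
    rw [hs1]
    exact_mod_cast h2
  have hne : Nonempty (s ↪ Comp e) := by
    apply Function.Embedding.nonempty_of_card_le
    rwa [Fintype.card_coe]
  obtain ⟨j⟩ := hne
  let y : Comp e → OO f := fun b => if h : ∃ x : s, j x = b then (h.choose : OO f) else 0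
  have hyj : ∀ x : s, y (j x) = x := by
    intro x
    have h : ∃ x' : s, j x' = j x := ⟨x, rfl⟩
    change (if h : ∃ x' : s, j x' = j x then (h.choose : OO f) else 0) = _
    rw [dif_pos h]
    exact congrArg Subtype.val (j.injective h.choose_spec)
  have hymem : ∀ b, y b ∈ IsLocalRing.maximalIdeal (OO f) := by
    intro b
    change (if h : ∃ x' : s, j x' = b then (h.choose : OO f) else 0) ∈ _
    split_ifs with h
    · rw [← hs2]
      exact Submodule.subset_span h.choose.2
    · exact zero_mem _
  refine ⟨y, fun b => (mem_max_OO f _).mp (hymem b), fun u hu => ?_⟩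
  have h1 : u ∈ Ideal.span (Set.range y) := by
    have h2 : u ∈ Submodule.span (OO f) (s : Set (OO f)) := by
      rw [hs2]
      exact (mem_max_OO f u).mpr hu
    refine Submodule.span_mono ?_ h2
    intro x hx
    exact ⟨j ⟨x, hx⟩, hyj ⟨x, hx⟩⟩
  obtain ⟨w, hw⟩ := Ideal.mem_span_range_iff_exists_fun.mp h1
  exact ⟨w, hw.symm⟩

/-- **Key consequence of regularity.** -/
theorem jac_of_regular (hN : 1 ≤ N) (hd : 2 ≤ d) (h : ¬ (N = 1 ∧ d = 2)) {f : Ix N d → k}
    (hf : NZ (tup f)) (hreg : IsRegularLocalRing (OO f)) :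
    ∃ (e : GG N → Ix N d) (y : Comp e → OO f), Function.Injective e ∧ eval f (mnr e) ≠ 0 ∧
      ev f (jac (fun a => (y a : Rf f)) (fun b : Comp e => (b : Ix N d))).det ≠ 0 := by
  classical
  obtain ⟨e, he, hef⟩ := exists_cols hd hf
  have hm : (mnr e : SS k N d) ≠ 0 := by
    intro h0
    rw [h0, map_zero] at hef
    exact hef rfl
  obtain ⟨y, hy0, hgen⟩ := exists_gen he hm hreg
  refine ⟨e, y, he, hef, ?_⟩
  apply det_ne_zero
  intro D hD hDf
  obtain ⟨c, u, huf, huc, hcD, hO, hdet⟩ := exists_good hN hd h hf he hef D hD hDf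
  refine ⟨c, u, huf, huc, hcD, fun a => ?_, hdet⟩
  refine gr_mem_span (OO f) (fun b => (y b : Rf f)) (fun b => hy0 b) (cst_mem f) ?_ _ (hO a)
  intro v hv hv0
  obtain ⟨w, hw⟩ := hgen ⟨v, hv⟩ hv0
  refine ⟨fun b => (w b : Rf f), fun b => (w b).2, ?_⟩
  have h1 := congrArg (Subtype.val) hw
  rw [AddSubmonoidClass.coe_finsetSum] at h1
  exact h1

end

end Pool.Agent.TH170.SL
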