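import Pool.Agent.TH170.SL.Reg

/-!
Invariant rational functions as quotients of semi-invariants, and the Reynolds property of the ring
of invariants at `f`.
-/

open MvPolynomial

namespace Pool.Agent.TH170.SL

open Pool.Agent.Helper819.Apolar Pool.Agent.Helper819.Dyn

noncomputable section

set_option linter.unusedSectionVars false

variable {k : Type} [Field k] {N d : ℕ}

/-- The product of a semi-invariant with an invariant is a semi-invariant if it is a polynomial. -/
theorem semi_of_mul [Infinite k] {w : ℕ} {S T : SS k N d} {u : KF k (Ix N d)} (hS : IsSemi w S)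
    (hu : Inv u) (h : am k (Ix N d) T = am k (Ix N d) S * u) : IsSemi w T := by
  have h1 : ∀ (A : Matrix (Fin (N + 1)) (Fin (N + 1)) k), A.det ≠ 0 →
      compT A T = C (A.det ^ w) * T := by
    intro A hA
    have h2 : compT A S = C (A.det ^ w) * S := by
      apply MvPolynomial.funext
      intro c
      rw [eval_compT, map_mul, eval_C, hS A c]
    apply am_inj
    have h3 := congrArg (actK A hA) h
    rw [map_mul, actK_am, actK_am, hu A hA, h2] at h3
    rw [h3, map_mul, map_mul, h, mul_assoc]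
  intro A c
  have h2 : aeval (orb c) T = dt (N + 1) k ^ w * C (eval c T) := by
    apply poly_ext
    intro A hA
    rw [eval_aeval_orb, map_mul, map_pow, eval_dt, eval_C, ← eval_compT, h1 A hA, map_mul, eval_C]
  have h3 := congrArg (eval (ent A)) h2
  rw [eval_aeval_orb, map_mul, map_pow, eval_dt, eval_C] at h3
  exact h3

theorem IsSemi_prod {σ : Type} (s : Finset σ) {w : σ → ℕ} {Q : σ → SS k N d}
    (h : ∀ i ∈ s, IsSemi (w i) (Q i)) : IsSemi (∑ i ∈ s, w i) (∏ i ∈ s, Q i) := by
  classical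
  induction s using Finset.induction_on with
  | empty => simpa using (IsSemi.one : IsSemi 0 (1 : SS k N d))
  | insert a s ha ih =>
    rw [Finset.sum_insert ha, Finset.prod_insert ha]
    exact (h a (Finset.mem_insert_self a s)).mul
      (ih fun i hi => h i (Finset.mem_insert_of_mem hi))

/-- Denominators of a representation. -/
def denId {σ : Type} [Fintype σ] (u : KF k (Ix N d)) (x : σ → KF k (Ix N d)) : Ideal (SS k N d) where
  carrier := {S | ∃ A : σ → SS k N d, am k (Ix N d) S * u = ∑ i, am k (Ix N d) (A i) * x i}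
  add_mem' := by
    rintro S S' ⟨A, h⟩ ⟨A', h'⟩
    refine ⟨A + A', ?_⟩
    rw [map_add, add_mul, h, h', ← Finset.sum_add_distrib]
    exact Finset.sum_congr rfl fun i _ => by rw [Pi.add_apply, map_add, add_mul]
  zero_mem' := ⟨0, by simp⟩
  smul_mem' := by
    rintro R S ⟨A, h⟩
    refine ⟨fun i => R * A i, ?_⟩
    rw [smul_eq_mul, map_mul, mul_assoc, h, Finset.mul_sum]
    exact Finset.sum_congr rfl fun i _ => by rw [map_mul, mul_assoc]

theorem denId_compT [Infinite k] {σ : Type} [Fintype σ] {u : KF k (Ix N d)}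
    {x : σ → KF k (Ix N d)} (hu : Inv u) (hx : ∀ i, Inv (x i))
    (B : Matrix (Fin (N + 1)) (Fin (N + 1)) k) (hB : B.det ≠ 0) {S : SS k N d}
    (hS : S ∈ denId u x) : compT B S ∈ denId u x := by
  obtain ⟨A, h⟩ := hS
  refine ⟨fun i => compT B (A i), ?_⟩
  have h1 := congrArg (actK B hB) h
  rw [map_mul, actK_am, hu B hB, map_sum] at h1
  rw [h1]
  exact Finset.sum_congr rfl fun i _ => by rw [map_mul, actK_am, hx i B hB]

variable [IsAlgClosed k] [CharZero k]

theorem exists_semi_den (hd : 2 ≤ d) {f : Ix N d → k} (hf : NZ (tup f)) {σ : Type} [Fintype σ]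
    {u : KF k (Ix N d)} {x : σ → KF k (Ix N d)} (hu : Inv u) (hx : ∀ i, Inv (x i))
    (hmem : ∃ D ∈ denId u x, eval f D ≠ 0) :
    ∃ (w : ℕ) (S : SS k N d), IsSemi w S ∧ eval f S ≠ 0 ∧ S ∈ denId u x := by
  let Z : Set (Ix N d → k) := {z | ∀ Q ∈ denId u x, eval z Q = 0}
  obtain ⟨w, R, hR, hRf, hRZ⟩ := exists_semi hd hf Z (by
    intro z hz Q hQ
    apply hz
    intro y hy
    exact hy Q hQ) (by
    intro A hA z hz Q hQ
    rw [← eval_compT]
    exact hz _ (denId_compT hu hx A hA hQ)) (by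
    intro hfZ
    obtain ⟨D, hD, hDf⟩ := hmem
    exact hDf (hfZ D hD))
  have hrad : R ∈ (denId u x).radical := by
    rw [← vanishingIdeal_zeroLocus_eq_radical (K := k), mem_vanishingIdeal_iff]
    intro z hz
    have h1 : z ∈ Z := by
      intro Q hQ
      have := (mem_zeroLocus_iff.mp hz) Q hQ
      rw [← coe_aeval_eq_eval]
      exact this
    have h2 := hRZ z h1
    rw [← coe_aeval_eq_eval] at h2
    exact h2
  obtain ⟨m, hm⟩ := hrad
  exact ⟨w * m, R ^ m, hR.pow m, by rw [map_pow]; exact pow_ne_zero _ hRf, hm⟩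

/-- Invariants are quotients of semi-invariants with denominator not vanishing at the point. -/
theorem exists_semi_quot (hd : 2 ≤ d) {f : Ix N d → k} (hf : NZ (tup f)) {u : KF k (Ix N d)}
    (hu : Inv u) (hmem : u ∈ Rf f) :
    ∃ (w : ℕ) (P Q : SS k N d), IsSemi w P ∧ IsSemi w Q ∧ eval f Q ≠ 0 ∧
      am k (Ix N d) P = am k (Ix N d) Q * u := by
  obtain ⟨P, Q, hQ, hPQ⟩ := mem_Rf.mp hmem
  have hQ0 : am k (Ix N d) Q ≠ 0 := am_ne_zero (by rintro rfl; simp at hQ)
  obtain ⟨w, S, hS, hSf, A, hA⟩ := exists_semi_den hd hf hu (σ := Unit) (x := fun _ => 1)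
    (fun _ B hB => map_one _) ⟨Q, ⟨fun _ => P, by
      rw [hPQ]
      simp only [Finset.univ_unique, Finset.sum_const, Finset.card_singleton, one_smul, mul_one]
      field_simp⟩, hQ⟩
  have hA' : am k (Ix N d) (A ()) = am k (Ix N d) S * u := by
    rw [hA]
    simp
  exact ⟨w, A (), S, semi_of_mul hS hu hA', hS, hSf, hA'⟩

theorem sharp_semi {w : ℕ} {P : SS k N d} (hP : IsSemi w P) : sharp w P = P := by
  have hinf : Infinite k := inferInstance
  apply MvPolynomial.funext
  intro c
  have h2 : aeval (orb c) P = C (eval c P) * dt (N + 1) k ^ w := by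
    apply poly_ext
    intro A _
    rw [eval_aeval_orb, map_mul, map_pow, eval_dt, eval_C, mul_comm]
    exact hP A c
  rw [eval_sharp, h2, rho_smul, rho_dt, mul_one]

theorem sharp_mul_comm {w W : ℕ} (A : SS k N d) {P Q : SS k N d} (hP : IsSemi W P)
    (hQ : IsSemi W Q) : sharp w (A * P) * Q = P * sharp w (A * Q) := by
  have hinf : Infinite k := inferInstance
  apply MvPolynomial.funext
  intro c
  have key : ∀ P : SS k N d, IsSemi W P → aeval (orb c) (A * P) =
      C (eval c P) * (aeval (orb c) A * dt (N + 1) k ^ W) := by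
    intro P hP
    apply poly_ext
    intro B _
    rw [eval_aeval_orb, map_mul, map_mul, map_mul, eval_aeval_orb, map_pow, eval_dt, eval_C,
      hP B c]
    ring
  rw [map_mul, map_mul, eval_sharp, eval_sharp, key P hP, key Q hQ, rho_smul, rho_smul]
  ring

theorem sharp_sum {w : ℕ} {σ : Type} (s : Finset σ) (P : σ → SS k N d) :
    sharp w (∑ i ∈ s, P i) = ∑ i ∈ s, sharp w (P i) := by
  have hinf : Infinite k := inferInstance
  apply MvPolynomial.funext
  intro c
  rw [eval_sharp, map_sum, rho_sum, map_sum]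
  exact Finset.sum_congr rfl fun i _ => (eval_sharp w c (P i)).symm

/-- **Reynolds property.** -/
theorem reynolds (hd : 2 ≤ d) {f : Ix N d → k} (hf : NZ (tup f)) {σ : Type} [Fintype σ]
    (u : OO f) (x : σ → OO f)
    (h : ∃ a : σ → Rf f, (u : Rf f) = ∑ i, a i * (x i : Rf f)) :
    ∃ b : σ → OO f, u = ∑ i, b i * x i := by
  classical
  obtain ⟨a, ha⟩ := h
  -- a denominator
  have hD : ∃ D ∈ denId (k := k) (N := N) (d := d) (u : Rf f) (fun i => ((x i : Rf f) : KF k (Ix N d))),
      eval f D ≠ 0 := by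
    have h1 : ∀ i, ∃ P Q : SS k N d, eval f Q ≠ 0 ∧ ((a i : Rf f) : KF k (Ix N d)) =
        am k (Ix N d) P * (am k (Ix N d) Q)⁻¹ := fun i => mem_Rf.mp (a i).2
    choose P Q hQ hPQ using h1
    refine ⟨∏ j, Q j, ⟨fun i => P i * ∏ j ∈ Finset.univ.erase i, Q j, ?_⟩, ?_⟩
    · have h2 : ((u : Rf f) : KF k (Ix N d)) = ∑ i, ((a i : Rf f) : KF k (Ix N d)) *
          ((x i : Rf f) : KF k (Ix N d)) := by
        have h3 : ((u : Rf f) : KF k (Ix N d)) =
            ((∑ i, a i * (x i : Rf f) : Rf f) : KF k (Ix N d)) :=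
          congrArg (fun z : Rf f => (z : KF k (Ix N d))) ha
        rw [h3, AddSubmonoidClass.coe_finsetSum]
        rfl
      rw [h2, Finset.mul_sum]
      refine Finset.sum_congr rfl fun i _ => ?_
      have h3 : am k (Ix N d) (Q i) ≠ 0 := am_ne_zero (by
        intro h0
        exact hQ i (by rw [h0, map_zero]))
      rw [hPQ i, ← Finset.mul_prod_erase Finset.univ Q (Finset.mem_univ i), map_mul, map_mul]
      field_simp
    · rw [map_prod]
      exact Finset.prod_ne_zero_iff.mpr fun i _ => hQ i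
  obtain ⟨wS, S, hS, hSf, A, hA⟩ := exists_semi_den hd hf u.2 (fun i => (x i).2) hD
  obtain ⟨wu, Pu, Qu, hPu, hQu, hQuf, hu⟩ := exists_semi_quot hd hf u.2 u.1.2
  have h1 := fun i => exists_semi_quot hd hf (x i).2 (x i).1.2
  choose w P Q hP hQ hQf hPQ using h1
  -- common denominator
  set W := ∑ i, w i with hW
  set Qa := ∏ i, Q i with hQa
  have hQas : IsSemi W Qa := IsSemi_prod _ fun i _ => hQ i
  have hQaf : eval f Qa ≠ 0 := by
    rw [hQa, map_prod]
    exact Finset.prod_ne_zero_iff.mpr fun i _ => hQf i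
  let P' : σ → SS k N d := fun i => P i * ∏ j ∈ Finset.univ.erase i, Q j
  have hP' : ∀ i, am k (Ix N d) (P' i) = am k (Ix N d) Qa * ((x i : Rf f) : KF k (Ix N d)) := by
    intro i
    change am k (Ix N d) (P i * ∏ j ∈ Finset.univ.erase i, Q j) = _
    rw [hQa, ← Finset.mul_prod_erase Finset.univ Q (Finset.mem_univ i), map_mul, map_mul, hPQ i]
    ring
  have hP's : ∀ i, IsSemi W (P' i) := fun i => semi_of_mul hQas (x i).2 (hP' i)
  set wT := wS + wu + W with hwT
  set T := S * Pu * Qa with hT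
  have hTs : IsSemi wT T := (hS.mul hPu).mul hQas
  have hTeq : T = ∑ i, Qu * A i * P' i := by
    apply am_inj
    rw [hT, map_mul, map_mul, hu, map_sum]
    have e1 : ∀ i, am k (Ix N d) (Qu * A i * P' i) = am k (Ix N d) Qu * am k (Ix N d) Qa *
        (am k (Ix N d) (A i) * ((x i : Rf f) : KF k (Ix N d))) := by
      intro i
      rw [map_mul, map_mul, hP' i]
      ring
    simp_rw [e1]
    rw [← Finset.mul_sum, ← hA]
    ring
  let B : σ → SS k N d := fun i => sharp wT (Qu * A i * Qa)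
  have hB : ∀ i, IsSemi wT (B i) := fun i => isSemi_sharp wT _
  have hTB : T * Qa = ∑ i, P' i * B i := by
    have e1 : T = ∑ i, sharp wT (Qu * A i * P' i) := by
      rw [← sharp_sum, ← hTeq, sharp_semi hTs]
    conv_lhs => rw [e1]
    rw [Finset.sum_mul]
    exact Finset.sum_congr rfl fun i _ => sharp_mul_comm (Qu * A i) (hP's i) hQas
  -- the coefficients
  have hDen : IsSemi wT (S * Qu * Qa) := (hS.mul hQu).mul hQas
  have hDenf : eval f (S * Qu * Qa) ≠ 0 := by
    rw [map_mul, map_mul]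
    exact mul_ne_zero (mul_ne_zero hSf hQuf) hQaf
  let b : σ → OO f := fun i => ⟨⟨am k (Ix N d) (B i) * (am k (Ix N d) (S * Qu * Qa))⁻¹,
    mem_Rf.mpr ⟨_, _, hDenf, rfl⟩⟩, inv_of_semi (hB i) hDen⟩
  refine ⟨b, ?_⟩
  apply inclO_inj f
  rw [map_sum]
  simp_rw [map_mul]
  change ((u : Rf f) : KF k (Ix N d)) = ∑ i, am k (Ix N d) (B i) *
    (am k (Ix N d) (S * Qu * Qa))⁻¹ * ((x i : Rf f) : KF k (Ix N d))
  have n1 : am k (Ix N d) Qa ≠ 0 := am_ne_zero (by
    intro h0
    exact hQaf (by rw [h0, map_zero]))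
  have n2 : am k (Ix N d) (S * Qu * Qa) ≠ 0 := am_ne_zero (by
    intro h0
    exact hDenf (by rw [h0, map_zero]))
  have e2 : ∀ i, am k (Ix N d) (B i) * (am k (Ix N d) (S * Qu * Qa))⁻¹ *
      ((x i : Rf f) : KF k (Ix N d)) = (am k (Ix N d) (S * Qu * Qa))⁻¹ * (am k (Ix N d) Qa)⁻¹ *
        am k (Ix N d) (P' i * B i) := by
    intro i
    rw [map_mul (am k (Ix N d)) (P' i), hP' i]
    field_simp
  simp_rw [e2]
  rw [← Finset.mul_sum, ← map_sum, ← hTB, hT]
  have e3 : am k (Ix N d) (S * Pu * Qa * Qa) = am k (Ix N d) (S * Qu * Qa) * am k (Ix N d) Qa *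
      ((u : Rf f) : KF k (Ix N d)) := by
    simp only [map_mul]
    rw [hu]
    ring
  rw [e3]
  field_simp

/-- The ring of invariants is Noetherian. -/
theorem noetherian_OO (hd : 2 ≤ d) {f : Ix N d → k} (hf : NZ (tup f)) :
    IsNoetherianRing (OO f) := by
  classical
  rw [isNoetherianRing_iff_ideal_fg]
  intro I
  have h1 : (Ideal.map (OO f).subtype I).FG := IsNoetherian.noetherian _
  unfold Ideal.map at h1
  obtain ⟨s, hs1, hs2⟩ := Submodule.fg_span_iff_fg_span_finset_subset _ |>.mp h1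
  have h2 : ∀ z : s, ∃ x ∈ I, (x : Rf f) = z := by
    intro z
    obtain ⟨x, hx, hxz⟩ := hs1 z.2
    exact ⟨x, hx, hxz⟩
  choose x hxI hxz using h2
  refine ⟨Finset.univ.image x, le_antisymm ?_ ?_⟩
  · rw [Submodule.span_le]
    intro y hy
    obtain ⟨z, _, rfl⟩ := Finset.mem_image.mp (Finset.mem_coe.mp hy)
    exact hxI z
  · intro u hu
    have h3 : (u : Rf f) ∈ Submodule.span (Rf f) (s : Set (Rf f)) := by
      rw [← hs2]
      exact Submodule.subset_span ⟨u, hu, rfl⟩
    have h4 : (u : Rf f) ∈ Ideal.span (Set.range fun z : s => (x z : Rf f)) := by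
      refine Submodule.span_mono ?_ h3
      intro z hz
      exact ⟨⟨z, hz⟩, hxz ⟨z, hz⟩⟩
    obtain ⟨a, ha⟩ := Ideal.mem_span_range_iff_exists_fun.mp h4
    obtain ⟨b, hb⟩ := reynolds hd hf u x ⟨a, ha.symm⟩
    rw [hb]
    refine Submodule.sum_mem _ fun z _ => ?_
    rw [← smul_eq_mul]
    apply Submodule.smul_mem
    apply Submodule.subset_span
    exact Finset.mem_coe.mpr (Finset.mem_image_of_mem _ (Finset.mem_univ z))

end

end Pool.Agent.TH170.SL
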