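import Pool.Agent.TH170.SL.Reg

/-!
If the ring of invariants at `f` is a regular local ring then `f` has only scalar automorphisms.
-/

open MvPolynomial

namespace Pool.Agent.TH170.SL

open Pool.Agent.Helper819.Apolar Pool.Agent.Helper819.Dyn

noncomputable section

set_option linter.unusedSectionVars false

variable {k : Type} [Field k] {N d : ℕ}

theorem dd_mul (P Q : SS k N d) (c v : Ix N d → k) :
    dd (P * Q) c v = eval c P * dd Q c v + eval c Q * dd P c v := by
  unfold dd
  rw [Finset.mul_sum, Finset.mul_sum, ← Finset.sum_add_distrib]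
  refine Finset.sum_congr rfl fun p _ => ?_
  rw [Derivation.leibniz, smul_eq_mul, smul_eq_mul, map_add, map_mul, map_mul]
  ring

theorem dd_sub_right (P : SS k N d) (c v w : Ix N d → k) :
    dd P c (v - w) = dd P c v - dd P c w := by
  unfold dd
  rw [← Finset.sum_sub_distrib]
  exact Finset.sum_congr rfl fun p _ => by rw [Pi.sub_apply, sub_mul]

theorem sum_ev_gr {f : Ix N d → k} (u : Rf f) {P Q : SS k N d} (hQ : eval f Q ≠ 0)
    (h : (u : KF k (Ix N d)) = am k (Ix N d) P * (am k (Ix N d) Q)⁻¹) (v : Ix N d → k) :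
    (∑ p, v p * ev f (gr u p)) * (eval f Q * eval f Q) =
      eval f Q * dd P f v - eval f P * dd Q f v := by
  unfold dd
  rw [Finset.sum_mul, Finset.mul_sum, Finset.mul_sum, ← Finset.sum_sub_distrib]
  refine Finset.sum_congr rfl fun p _ => ?_
  rw [ev_gr u hQ h p]
  field_simp

/-- Invariance of the gradient under the stabiliser. -/
theorem gr_stab [Infinite k] {f : Ix N d → k} (u : Rf f) (hu : Inv (u : KF k (Ix N d)))
    (A : Matrix (Fin (N + 1)) (Fin (N + 1)) k) (hA : A.det ≠ 0) (hAf : actT A f = f)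
    (v : Ix N d → k) : ∑ p, (actT A v - v) p * ev f (gr u p) = 0 := by
  obtain ⟨P, Q, hQ, hPQ⟩ := mem_Rf.mp u.2
  have hQ0 : Q ≠ 0 := by rintro rfl; simp at hQ
  have h1 := inv_rel hQ0 (by rw [← hPQ]; exact hu) A hA
  have h2 : dd (compT A P * Q) f v = dd (P * compT A Q) f v := by rw [h1]
  rw [dd_mul, dd_mul, dd_compT, dd_compT, eval_compT, eval_compT, hAf] at h2
  have h3 := sum_ev_gr u hQ hPQ (actT A v - v)
  rw [dd_sub_right, dd_sub_right] at h3
  have h4 : (∑ p, (actT A v - v) p * ev f (gr u p)) * (eval f Q * eval f Q) = 0 := by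
    rw [h3]
    linear_combination h2
  exact (mul_eq_zero.mp h4).resolve_right (mul_ne_zero hQ hQ)

variable [IsAlgClosed k] [CharZero k]

/-- The stabiliser acts trivially on the normal space. -/
theorem normal_triv (hN : 1 ≤ N) (hd : 2 ≤ d) (h : ¬ (N = 1 ∧ d = 2)) {f : Ix N d → k}
    (hf : NZ (tup f)) (hreg : IsRegularLocalRing (OO f))
    (A : Matrix (Fin (N + 1)) (Fin (N + 1)) k) (hA : A.det ≠ 0) (hAf : actT A f = f)
    (v : Ix N d → k) :
    ∃ B : Matrix (Fin (N + 1)) (Fin (N + 1)) k, actT A v - v = xi B f := by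
  classical
  obtain ⟨e, y, he, hef, hdet⟩ := jac_of_regular hN hd h hf hreg
  rw [eval_mnr] at hef
  rw [RingHom.map_det] at hdet
  obtain ⟨a, ha⟩ := exists_comb (M := xs f) he hef
    (fun b p => ev f (gr (y b : Rf f) p)) (by
      intro b i
      exact inv_gr (y b).2 (Matrix.single i.1 i.2 1)) hdet (actT A v - v) (by
      intro b
      exact gr_stab (y b : Rf f) (y b).2 A hA hAf v)
  refine ⟨Matrix.of fun i j => a (i, j), ?_⟩
  funext p
  rw [xi_eq_xs]
  exact ha p

theorem actT_sub' (A : Matrix (Fin (N + 1)) (Fin (N + 1)) k) (c c' : Ix N d → k) :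
    actT A (c - c') = actT A c - actT A c' := by
  have h1 := actT_add A (c - c') c'
  rw [sub_add_cancel] at h1
  rw [h1, add_sub_cancel_right]

open Classical in
/-- **A regular point has trivial automorphism group.** -/
theorem triv_of_regular (hN : 1 ≤ N) (hd : 2 ≤ d) (h : ¬ (N = 1 ∧ d = 2)) {f : Ix N d → k}
    (hf : NZ (tup f)) (hreg : IsRegularLocalRing (OO f)) : Triv f := by
  by_contra hnt
  obtain ⟨g, l, hg, hl, hne, hw⟩ := exists_weight hd hf hnt
  have hL : (Matrix.diagonal l).det ≠ 0 := by
    rw [Matrix.det_diagonal]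
    exact Finset.prod_ne_zero_iff.mpr fun i _ => hl i
  have hgu : IsUnit g.det := isUnit_iff_ne_zero.mpr hg
  have hgi : g⁻¹.det ≠ 0 := by
    rw [Matrix.det_nonsing_inv, Ring.inverse_eq_inv']
    exact inv_ne_zero hg
  set f' := actT g f with hf'
  have hfix : actT (Matrix.diagonal l) f' = f' := by
    funext p
    rw [actT_diagonal]
    by_cases hp : wt l p = 1
    · rw [hp, one_mul]
    · rw [hw p hp, mul_zero]
  set A := g * Matrix.diagonal l * g⁻¹ with hAdef
  have hA : A.det ≠ 0 := by
    rw [hAdef, Matrix.det_mul, Matrix.det_mul]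
    exact mul_ne_zero (mul_ne_zero hg hL) hgi
  have hAf : actT A f = f := by
    rw [hAdef, ← actT_actT, ← actT_actT, ← hf', hfix, hf', actT_inv_act g hg]
  -- coordinate vectors of nontrivial weight are tangent to the orbit
  have key : ∀ p : Ix N d, wt l p ≠ 1 → ∃ B : Matrix (Fin (N + 1)) (Fin (N + 1)) k,
      (Pi.single p 1 : Ix N d → k) = xi B f' := by
    intro p hp
    obtain ⟨B, hB⟩ := normal_triv hN hd h hf hreg A hA hAf (actT g⁻¹ (Pi.single p 1))
    have h1 : actT A (actT g⁻¹ (Pi.single p 1)) =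
        actT g⁻¹ (actT (Matrix.diagonal l) (Pi.single p 1 : Ix N d → k)) := by
      rw [actT_actT, actT_actT, hAdef]
      congr 1
      rw [← mul_assoc, ← mul_assoc, Matrix.nonsing_inv_mul _ hgu, one_mul]
    have h2 : actT (Matrix.diagonal l) (Pi.single p 1 : Ix N d → k) =
        wt l p • (Pi.single p 1 : Ix N d → k) := by
      funext q
      rw [actT_diagonal, Pi.smul_apply, smul_eq_mul]
      by_cases hq : q = p
      · subst hq; rfl
      · rw [Pi.single_eq_of_ne hq, mul_zero, mul_zero]
    rw [h1, h2, actT_smul] at hB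
    have h3 := congrArg (actT g) hB
    rw [actT_sub', actT_smul, actT_act_inv g hg] at h3
    have h4 : xi (g⁻¹ * B * g) f' = actT g (xi B f) := by
      rw [hf', xi_actT g _ hg]
      congr 2
      rw [← mul_assoc, ← mul_assoc, Matrix.mul_nonsing_inv _ hgu, one_mul, mul_assoc,
        Matrix.mul_nonsing_inv _ hgu, mul_one]
    rw [← h4] at h3
    have hw1 : wt l p - 1 ≠ 0 := sub_ne_zero.mpr hp
    refine ⟨(wt l p - 1)⁻¹ • (g⁻¹ * B * g), ?_⟩
    rw [xi_smul, ← h3]
    funext q
    simp only [Pi.smul_apply, Pi.sub_apply, smul_eq_mul]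
    field_simp
  choose! B hB using key
  -- the matrices are supported on pairs with different eigenvalues
  have hf'NZ : NZ (tup f') := by
    rw [hf', tup_actT]
    exact NZ_act hf g hg
  have hsupp : ∀ p : Ix N d, wt l p ≠ 1 → ∀ i j, l i = l j → B p i j = 0 := by
    intro p hp i j hij
    have h1 : actT (Matrix.diagonal l) (Pi.single p 1 : Ix N d → k) =
        wt l p • (Pi.single p 1 : Ix N d → k) := by
      funext q
      rw [actT_diagonal, Pi.smul_apply, smul_eq_mul]
      by_cases hq : q = p
      · subst hq; rfl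
      · rw [Pi.single_eq_of_ne hq, mul_zero, mul_zero]
    rw [hB p hp] at h1
    have hLu : IsUnit (Matrix.diagonal l).det := isUnit_iff_ne_zero.mpr hL
    have h2 := xi_actT (Matrix.diagonal l) ((Matrix.diagonal l)⁻¹ * B p * Matrix.diagonal l) hL f'
    have h3 : Matrix.diagonal l * ((Matrix.diagonal l)⁻¹ * B p * Matrix.diagonal l) *
        (Matrix.diagonal l)⁻¹ = B p := by
      rw [← mul_assoc, ← mul_assoc, Matrix.mul_nonsing_inv _ hLu, one_mul, mul_assoc,
        Matrix.mul_nonsing_inv _ hLu, mul_one]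
    rw [h3, hfix, h1, ← xi_smul] at h2
    have h4 : xi ((Matrix.diagonal l)⁻¹ * B p * Matrix.diagonal l + (-1 : k) • (wt l p • B p)) f' = 0 := by
      rw [xi_add, xi_smul, h2, xi_smul]
      funext q
      simp
    have h5 := xi_inj hd hf'NZ _ h4
    have h6 : B p * Matrix.diagonal l = wt l p • (Matrix.diagonal l * B p) := by
      have h7 := congrArg (fun Y => Matrix.diagonal l * Y) h5
      simp only [mul_add, mul_zero, ← mul_assoc, Matrix.mul_nonsing_inv _ hLu, one_mul,
        Matrix.mul_smul] at h7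
      have h8 := eq_neg_of_add_eq_zero_left h7
      rw [h8]
      simp
    have h7 := congrFun (congrFun h6 i) j
    rw [Matrix.mul_diagonal, Matrix.smul_apply, Matrix.diagonal_mul, smul_eq_mul, hij] at h7
    have h8 : (wt l p - 1) * (l j * B p i j) = 0 := by linear_combination -h7
    have h9 := (mul_eq_zero.mp h8).resolve_left (sub_ne_zero.mpr hp)
    exact (mul_eq_zero.mp h9).resolve_left (hl j)
  -- dimension count
  let T : Finset (GG N) := Finset.univ.filter fun q => l q.1 ≠ l q.2
  let W : Finset (Ix N d) := Finset.univ.filter fun p => wt l p ≠ 1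
  have hli : LinearIndependent k (fun (p : W) (q : T) => B p (q : GG N).1 (q : GG N).2) := by
    rw [Fintype.linearIndependent_iff]
    intro a ha p0
    have h1 : ∑ p : W, a p • B (p : Ix N d) = 0 := by
      ext i j
      rw [Matrix.sum_apply, Matrix.zero_apply]
      by_cases hij : l i = l j
      · apply Finset.sum_eq_zero
        intro p _
        rw [Matrix.smul_apply, hsupp p (Finset.mem_filter.mp p.2).2 i j hij, smul_zero]
      · have h2 := congrFun ha ⟨(i, j), by simpa [T] using hij⟩
        rw [Finset.sum_apply] at h2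
        exact h2
    have h2 : (∑ p : W, a p • (Pi.single (p : Ix N d) 1 : Ix N d → k)) = 0 := by
      have h3 : ∀ p : W, a p • (Pi.single (p : Ix N d) 1 : Ix N d → k) =
          xiL f' (a p • B (p : Ix N d)) := by
        intro p
        rw [map_smul, hB p (Finset.mem_filter.mp p.2).2]
        rfl
      simp_rw [h3]
      rw [← map_sum, h1, map_zero]
    have h3 := congrFun h2 (p0 : Ix N d)
    rw [Finset.sum_apply, Finset.sum_eq_single p0] at h3
    · simpa using h3
    · intro p _ hp
      have : (p0 : Ix N d) ≠ (p : Ix N d) := fun h => hp (Subtype.ext h.symm)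
      simp [this]
    · simp
  have h1 := hli.fintype_card_le_finrank
  rw [Module.finrank_fintype_fun_eq_card, Fintype.card_coe, Fintype.card_coe] at h1
  have h2 := count hN hd h hl hne
  change T.card + 2 ≤ W.card at h2
  omega

end

end Pool.Agent.TH170.SL
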