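import Pool.Agent.TH170.SL.Func

/-!
At a point with trivial stabiliser the differentials of invariants fill the conormal space.
-/

open MvPolynomial

namespace Pool.Agent.TH170.SL

open Pool.Agent.Helper819.Apolar Pool.Agent.Helper819.Dyn

noncomputable section

set_option linter.unusedSectionVars false

variable {k : Type} [Field k] [IsAlgClosed k] [CharZero k] {N d : ℕ}

/-- The ideal of denominators. -/
def JJ (c lam : Ix N d → k) : Ideal (SS k N d) where
  carrier := {Q | ∃ P : SS k N d,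
    (∀ A : Matrix (Fin (N + 1)) (Fin (N + 1)) k, A.det ≠ 0 → eval (actT A c) P = 0) ∧
    ∀ (A : Matrix (Fin (N + 1)) (Fin (N + 1)) k), A.det ≠ 0 → ∀ u : Ix N d → k,
      dd P (actT A c) (actT A u) = eval (actT A c) Q * ∑ p, lam p * u p}
  add_mem' := by
    rintro Q Q' ⟨P, h1, h2⟩ ⟨P', h1', h2'⟩
    refine ⟨P + P', fun A hA => ?_, fun A hA u => ?_⟩
    · rw [map_add, h1 A hA, h1' A hA, add_zero]
    · rw [map_add, add_mul, ← h2 A hA u, ← h2' A hA u]
      unfold dd
      rw [← Finset.sum_add_distrib]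
      refine Finset.sum_congr rfl fun p _ => ?_
      rw [map_add, map_add, mul_add]
  zero_mem' := ⟨0, fun A _ => map_zero _, fun A _ u => by simp [dd]⟩
  smul_mem' := by
    rintro R Q ⟨P, h1, h2⟩
    refine ⟨R * P, fun A hA => ?_, fun A hA u => ?_⟩
    · rw [map_mul, h1 A hA, mul_zero]
    · rw [smul_eq_mul, map_mul, mul_assoc, ← h2 A hA u]
      unfold dd
      rw [Finset.mul_sum]
      refine Finset.sum_congr rfl fun p _ => ?_
      rw [Derivation.leibniz]
      simp only [smul_eq_mul, map_add, map_mul, h1 A hA, zero_mul, add_zero]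
      ring

theorem JJ_compT (c lam : Ix N d → k) (B : Matrix (Fin (N + 1)) (Fin (N + 1)) k) (hB : B.det ≠ 0)
    {Q : SS k N d} (hQ : Q ∈ JJ c lam) : compT B Q ∈ JJ c lam := by
  obtain ⟨P, h1, h2⟩ := hQ
  refine ⟨compT B P, fun A hA => ?_, fun A hA u => ?_⟩
  · rw [eval_compT, actT_actT]
    exact h1 _ (by rw [Matrix.det_mul]; exact mul_ne_zero hA hB)
  · rw [dd_compT, eval_compT, actT_actT, actT_actT]
    exact h2 _ (by rw [Matrix.det_mul]; exact mul_ne_zero hA hB) u

theorem exists_mem_JJ (hd : 2 ≤ d) {c : Ix N d → k} (hc : NZ (tup c)) (ht : Triv c)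
    (lam : Ix N d → k)
    (hlam : ∀ B : Matrix (Fin (N + 1)) (Fin (N + 1)) k, ∑ p, lam p * xi B c p = 0) :
    ∃ Q ∈ JJ c lam, eval c Q ≠ 0 := by
  have hinf : Infinite k := inferInstance
  obtain ⟨Q, P, hQ, hP, hPQ⟩ := exists_conormal hd hc ht lam hlam
  have hP0 : aeval (orb c) P = 0 := by
    apply LL_inj
    rw [alg_aeval_orb, hP, map_zero]
  have hqq : ∀ u : Ix N d → k, qq c u P = aeval (orb c) Q * C (∑ p, lam p * u p) := by
    intro u
    apply LL_inj
    have e0 : algebraMap (KA k N) (LL k N) (C (∑ p, lam p * u p)) =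
        algebraMap k (LL k N) (∑ p, lam p * u p) :=
      (IsScalarTower.algebraMap_apply k (KA k N) (LL k N) _).symm
    rw [map_mul, alg_aeval_orb, e0]
    unfold qq
    rw [map_sum]
    have e1 : ∀ p, algebraMap (KA k N) (LL k N) (orb u p * aeval (orb c) (pderiv p P)) =
        aeval (xx c) Q * (muK lam (MM k N) p * xx u p) := by
      intro p
      rw [map_mul, alg_orb, alg_aeval_orb, hPQ]
      ring
    simp_rw [e1]
    rw [← Finset.mul_sum, muK_apply]
    congr 1
    have e2 : actT (MM k N)⁻¹ (xx u) = bc (LL k N) u := actT_inv_act (MM k N) MM_det _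
    rw [e2, map_sum]
    exact Finset.sum_congr rfl fun p _ => (map_mul _ _ _).symm
  have hJ : Q ∈ JJ c lam := by
    refine ⟨P, fun A _ => ?_, fun A _ u => ?_⟩
    · rw [← eval_aeval_orb, hP0, map_zero]
    · rw [← eval_qq, hqq, map_mul, eval_C, eval_aeval_orb]
  -- a translate does not vanish at `c`
  have hex : ∃ A : Matrix (Fin (N + 1)) (Fin (N + 1)) k, A.det ≠ 0 ∧ eval (actT A c) Q ≠ 0 := by
    by_contra hcon
    push Not at hcon
    apply hQ
    rw [← alg_aeval_orb]
    have h0 : aeval (orb c) Q = 0 := by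
      apply poly_ext
      intro A hA
      rw [eval_aeval_orb, hcon A hA, map_zero]
    rw [h0, map_zero]
  obtain ⟨A, hA, hAQ⟩ := hex
  exact ⟨compT A Q, JJ_compT c lam A hA hJ, by rw [eval_compT]; exact hAQ⟩

/-- **Infinitesimal separation.** -/
theorem span_at (hd : 2 ≤ d) {c : Ix N d → k} (hc : NZ (tup c)) (ht : Triv c)
    (lam : Ix N d → k)
    (hlam : ∀ B : Matrix (Fin (N + 1)) (Fin (N + 1)) k, ∑ p, lam p * xi B c p = 0) :
    ∃ (w : ℕ) (P Q : SS k N d), IsSemi w P ∧ IsSemi w Q ∧ eval c Q ≠ 0 ∧ eval c P = 0 ∧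
      ∀ v, dd P c v = eval c Q * ∑ p, lam p * v p := by
  have hinf : Infinite k := inferInstance
  let Z : Set (Ix N d → k) := {z | ∀ Q ∈ JJ c lam, eval z Q = 0}
  obtain ⟨w, R, hR, hRc, hRZ⟩ := exists_semi hd hc Z (by
    intro z hz Q hQ
    apply hz
    intro y hy
    exact hy Q hQ) (by
    intro A hA z hz Q hQ
    rw [← eval_compT]
    exact hz _ (JJ_compT c lam A hA hQ)) (by
    intro hcZ
    obtain ⟨Q, hQ, hQc⟩ := exists_mem_JJ hd hc ht lam hlam
    exact hQc (hcZ Q hQ))
  have hrad : R ∈ (JJ c lam).radical := by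
    rw [← vanishingIdeal_zeroLocus_eq_radical (K := k), mem_vanishingIdeal_iff]
    intro x hx
    have h1 : x ∈ Z := by
      intro Q hQ
      have := (mem_zeroLocus_iff.mp hx) Q hQ
      rw [← coe_aeval_eq_eval]
      exact this
    have h2 := hRZ x h1
    rw [← coe_aeval_eq_eval] at h2
    exact h2
  obtain ⟨m, P, hP1, hP2⟩ := hrad
  have e1 : aeval (orb c) P = 0 := by
    apply poly_ext
    intro A hA
    rw [eval_aeval_orb, hP1 A hA, map_zero]
  have e2 : ∀ v : Ix N d → k, qq c v P =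
      C (eval c (R ^ m) * ∑ p, lam p * v p) * dt (N + 1) k ^ (w * m) := by
    intro v
    apply poly_ext
    intro A hA
    have e3 : eval (ent A) (dt (N + 1) k ^ (w * m)) = A.det ^ (w * m) := by
      rw [map_pow, eval_dt]
    rw [eval_qq, hP2 A hA, hR.pow m A c, map_mul, eval_C, e3]
    ring
  refine ⟨w * m, sharp (w * m) P, R ^ m, isSemi_sharp _ _, hR.pow m, ?_, ?_, fun v => ?_⟩
  · rw [map_pow]
    exact pow_ne_zero _ hRc
  · rw [eval_sharp, e1, rho_zero]
  · rw [dd_sharp, e2, rho_smul, rho_dt, mul_one]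

end

end Pool.Agent.TH170.SL
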