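import Pool.Agent.TH170.SL.LocalAlg

/-!
Gradients and powers of the maximal ideal in the local ring of affine space at a point.
-/

open MvPolynomial

namespace Pool.Agent.TH170.SL

open Pool.Agent.Helper819.Dyn

noncomputable section

set_option linter.unusedSectionVars false

variable {k : Type} [Field k] {ι : Type} [Fintype ι] [DecidableEq ι]

/-- maximal ideal -/
abbrev mm (f : ι → k) : Ideal (Rf f) := IsLocalRing.maximalIdeal (Rf f)

theorem mem_mm {f : ι → k} (u : Rf f) : u ∈ mm f ↔ ev f u = 0 := (ev_eq_zero_iff f u).symm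

theorem gr_pow {f : ι → k} (n : ℕ) : ∀ x : Rf f, x ∈ mm f ^ (n + 1) → ∀ p, gr x p ∈ mm f ^ n := by
  induction n with
  | zero =>
    intro x _ p
    rw [pow_zero, Ideal.one_eq_top]
    trivial
  | succ n ih =>
    intro x hx p
    rw [pow_succ'] at hx
    refine Submodule.mul_induction_on hx ?_ ?_
    · intro a ha b hb
      rw [gr_mul]
      change a * gr b p + b * gr a p ∈ _
      refine Ideal.add_mem _ ?_ ?_
      · rw [pow_succ']
        exact Ideal.mul_mem_mul ha (ih b hb p)
      · exact Ideal.mul_mem_right _ _ hb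
    · intro a b ha hb
      rw [gr_add]
      exact Ideal.add_mem _ ha hb

/-- local coordinates -/
def yv (f : ι → k) (p : ι) : Rf f := ⟨am k ι (X p - C (f p)), am_mem f _⟩

theorem yv_mem (f : ι → k) (p : ι) : yv f p ∈ mm f := by
  rw [mem_mm]
  change ev f ⟨am k ι (X p - C (f p)), am_mem f _⟩ = 0
  rw [ev_am]
  simp

theorem gr_yv (f : ι → k) (p q : ι) : gr (yv f p) q = if q = p then 1 else 0 := by
  apply Subtype.ext
  change pd q (am k ι (X p - C (f p))) = _
  rw [pd_am, map_sub, pderiv_C, sub_zero, pderiv_X]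
  by_cases h : q = p
  · subst h; simp
  · rw [if_neg h, Pi.single_eq_of_ne (Ne.symm h)]
    simp

/-- Euler operator -/
def EE {f : ι → k} (x : Rf f) : Rf f := ∑ p, yv f p * gr x p

theorem EE_add {f : ι → k} (x y : Rf f) : EE (x + y) = EE x + EE y := by
  unfold EE
  rw [gr_add, ← Finset.sum_add_distrib]
  exact Finset.sum_congr rfl fun p _ => by rw [Pi.add_apply, mul_add]

theorem EE_mul {f : ι → k} (x y : Rf f) : EE (x * y) = x * EE y + y * EE x := by
  unfold EE
  rw [gr_mul, Finset.mul_sum, Finset.mul_sum, ← Finset.sum_add_distrib]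
  refine Finset.sum_congr rfl fun p _ => ?_
  change yv f p * (x * gr y p + y * gr x p) = _
  ring

theorem EE_mem {f : ι → k} (x : Rf f) : EE x ∈ mm f :=
  Ideal.sum_mem _ fun p _ => Ideal.mul_mem_right _ _ (yv_mem f p)

theorem EE_cst {f : ι → k} (a : k) : EE (cst f a) = 0 := by
  unfold EE
  rw [gr_cst]
  simp

theorem cst_add (f : ι → k) (a b : k) : cst f (a + b) = cst f a + cst f b := by
  apply Subtype.ext
  change am k ι (C (a + b)) = am k ι (C a) + am k ι (C b)
  rw [map_add, map_add]

theorem cst_mul (f : ι → k) (a b : k) : cst f (a * b) = cst f a * cst f b := by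
  apply Subtype.ext
  change am k ι (C (a * b)) = am k ι (C a) * am k ι (C b)
  rw [map_mul, map_mul]

theorem cst_zero (f : ι → k) : cst f 0 = 0 := by
  apply Subtype.ext
  change am k ι (C 0) = 0
  rw [map_zero, map_zero]

/-- defect of the Euler relation -/
def de {f : ι → k} (x : Rf f) : Rf f := EE x - (x - cst f (ev f x))

theorem de_add {f : ι → k} (x y : Rf f) : de (x + y) = de x + de y := by
  unfold de
  rw [EE_add, map_add, cst_add]
  ring

theorem de_mul {f : ι → k} (x y : Rf f) : de (x * y) = x * de y + y * de x +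
    (x - cst f (ev f x)) * (y - cst f (ev f y)) := by
  unfold de
  rw [EE_mul, map_mul, cst_mul]
  ring

theorem sub_cst_mem {f : ι → k} (x : Rf f) : x - cst f (ev f x) ∈ mm f := by
  rw [mem_mm, map_sub, ev_cst, sub_self]

theorem de_mem {f : ι → k} (x : Rf f) : de x ∈ mm f ^ 2 := by
  have hprod : ∀ x y : Rf f, (x - cst f (ev f x)) * (y - cst f (ev f y)) ∈ mm f ^ 2 := by
    intro x y
    rw [pow_two]
    exact Ideal.mul_mem_mul (sub_cst_mem x) (sub_cst_mem y)
  have hpoly : ∀ P : MvPolynomial ι k, de (⟨am k ι P, am_mem f P⟩ : Rf f) ∈ mm f ^ 2 := by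
    intro P
    induction P using MvPolynomial.induction_on with
    | C a =>
      have h1 : (⟨am k ι (C a), am_mem f (C a)⟩ : Rf f) = cst f a := rfl
      rw [h1]
      unfold de
      rw [EE_cst, ev_cst, sub_self, sub_zero]
      exact zero_mem _
    | add P Q hP hQ =>
      have h1 : (⟨am k ι (P + Q), am_mem f (P + Q)⟩ : Rf f) =
          ⟨am k ι P, am_mem f P⟩ + ⟨am k ι Q, am_mem f Q⟩ := Subtype.ext (map_add _ P Q)
      rw [h1, de_add]
      exact Ideal.add_mem _ hP hQ
    | mul_X P i hP =>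
      have h1 : (⟨am k ι (P * X i), am_mem f (P * X i)⟩ : Rf f) =
          ⟨am k ι P, am_mem f P⟩ * ⟨am k ι (X i), am_mem f (X i)⟩ := Subtype.ext (map_mul _ P _)
      rw [h1, de_mul]
      have h2 : de (⟨am k ι (X i), am_mem f (X i)⟩ : Rf f) = 0 := by
        have h3 : (⟨am k ι (X i), am_mem f (X i)⟩ : Rf f) = yv f i + cst f (f i) := by
          apply Subtype.ext
          change am k ι (X i) = am k ι (X i - C (f i)) + am k ι (C (f i))
          rw [← map_add, sub_add_cancel]
        rw [h3]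
        unfold de
        rw [EE_add, EE_cst, map_add, (mem_mm _).mp (yv_mem f i), ev_cst, zero_add]
        have h4 : EE (yv f i) = yv f i := by
          unfold EE
          rw [Finset.sum_eq_single i]
          · rw [gr_yv, if_pos rfl, mul_one]
          · intro b _ hb
            rw [gr_yv, if_neg hb, mul_zero]
          · simp
        rw [h4]
        ring
      rw [h2, mul_zero, zero_add]
      exact Ideal.add_mem _ (Ideal.mul_mem_left _ _ hP) (hprod _ _)
  obtain ⟨P, Q, hQ, hPQ⟩ := mem_Rf.mp x.2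
  have hQ0 : am k ι Q ≠ 0 := am_ne_zero (by rintro rfl; simp at hQ)
  have h1 : (⟨am k ι Q, am_mem f Q⟩ : Rf f) * x = ⟨am k ι P, am_mem f P⟩ := by
    apply Subtype.ext
    change am k ι Q * (x : KF k ι) = am k ι P
    rw [hPQ]
    field_simp
  have h2 := hpoly P
  rw [← h1, de_mul] at h2
  have h3 : (⟨am k ι Q, am_mem f Q⟩ : Rf f) * de x ∈ mm f ^ 2 := by
    have h4 := Ideal.sub_mem _ (Ideal.sub_mem _ h2 (hprod ⟨am k ι Q, am_mem f Q⟩ x))
      (Ideal.mul_mem_left _ x (hpoly Q))
    have h5 : (⟨am k ι Q, am_mem f Q⟩ : Rf f) * de x + x * de (⟨am k ι Q, am_mem f Q⟩ : Rf f) +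
        ((⟨am k ι Q, am_mem f Q⟩ : Rf f) - cst f (ev f ⟨am k ι Q, am_mem f Q⟩)) *
          (x - cst f (ev f x)) - ((⟨am k ι Q, am_mem f Q⟩ : Rf f) -
            cst f (ev f ⟨am k ι Q, am_mem f Q⟩)) * (x - cst f (ev f x)) -
          x * de (⟨am k ι Q, am_mem f Q⟩ : Rf f) = (⟨am k ι Q, am_mem f Q⟩ : Rf f) * de x := by
      ring
    rwa [h5] at h4
  have hu : IsUnit (⟨am k ι Q, am_mem f Q⟩ : Rf f) := by
    by_contra hn
    have h4 := (mem_mm _).mp ((IsLocalRing.mem_maximalIdeal _).mpr (mem_nonunits_iff.mpr hn))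
    rw [ev_am] at h4
    exact hQ h4
  exact (Ideal.unit_mul_mem_iff_mem _ hu).mp h3

theorem EE_pow {f : ι → k} (n : ℕ) : ∀ z : Rf f, z ∈ mm f ^ n → EE z - n * z ∈ mm f ^ (n + 1) := by
  induction n with
  | zero =>
    intro z _
    rw [Nat.cast_zero, zero_mul, sub_zero, zero_add, pow_one]
    exact EE_mem z
  | succ n ih =>
    intro z hz
    rw [pow_succ'] at hz
    refine Submodule.mul_induction_on hz ?_ ?_
    · intro a ha b hb
      have h1 : EE (a * b) - ((n + 1 : ℕ) : Rf f) * (a * b) =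
          a * (EE b - n * b) + b * (EE a - a) := by
        rw [EE_mul]
        push_cast
        ring
      rw [h1]
      refine Ideal.add_mem _ ?_ ?_
      · rw [pow_succ' _ (n + 1)]
        exact Ideal.mul_mem_mul ha (ih b hb)
      · have h2 : EE a - a = de a := by
          unfold de
          rw [(mem_mm a).mp ha, cst_zero, sub_zero]
        rw [h2]
        have h3 : mm f ^ (n + 1 + 1) = mm f ^ n * mm f ^ 2 := by rw [← pow_add]
        rw [h3]
        exact Ideal.mul_mem_mul hb (de_mem a)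
    · intro a b ha hb
      have h1 : EE (a + b) - ((n + 1 : ℕ) : Rf f) * (a + b) =
          (EE a - ((n + 1 : ℕ) : Rf f) * a) + (EE b - ((n + 1 : ℕ) : Rf f) * b) := by
        rw [EE_add]
        ring
      rw [h1]
      exact Ideal.add_mem _ ha hb

variable [CharZero k]

theorem natCast_isUnit {f : ι → k} (n : ℕ) (hn : n ≠ 0) : IsUnit ((n : Rf f)) := by
  by_contra hcon
  have h4 := (mem_mm _).mp ((IsLocalRing.mem_maximalIdeal _).mpr (mem_nonunits_iff.mpr hcon))
  rw [map_natCast] at h4
  exact hn (by exact_mod_cast h4)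

/-- A function vanishing at the point whose gradient has order `n` has order `n + 1`. -/
theorem mem_pow_of_gr {f : ι → k} (n : ℕ) : ∀ x : Rf f, ev f x = 0 →
    (∀ p, gr x p ∈ mm f ^ n) → x ∈ mm f ^ (n + 1) := by
  induction n with
  | zero =>
    intro x hx _
    rw [zero_add, pow_one, mem_mm]
    exact hx
  | succ n ih =>
    intro x hx hgr
    have h1 : x ∈ mm f ^ (n + 1) := ih x hx fun p => Ideal.pow_le_pow_right (Nat.le_succ n) (hgr p)
    have h2 := EE_pow (n + 1) x h1
    have h3 : EE x ∈ mm f ^ (n + 1 + 1) := by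
      unfold EE
      refine Ideal.sum_mem _ fun p _ => ?_
      rw [pow_succ' _ (n + 1)]
      exact Ideal.mul_mem_mul (yv_mem f p) (hgr p)
    have h4 : ((n + 1 : ℕ) : Rf f) * x ∈ mm f ^ (n + 1 + 1) := by
      have h5 := Ideal.sub_mem _ h3 h2
      rwa [sub_sub_cancel] at h5
    exact (Ideal.unit_mul_mem_iff_mem _ (natCast_isUnit (n + 1) (Nat.succ_ne_zero n))).mp h4

end

end Pool.Agent.TH170.SL
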