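import Pool.Agent.TH170.SL.Reyn2
import Pool.Agent.TH170.SL.Dim

/-!
Partial derivatives of invariants with respect to a system of invariants with independent
differentials are again invariant.
-/

open MvPolynomial

namespace Pool.Agent.TH170.SL

open Pool.Agent.Helper819.Apolar Pool.Agent.Helper819.Dyn

noncomputable section

set_option linter.unusedSectionVars false

variable {k : Type} [Field k] {N d : ℕ}

section alg

variable [Infinite k]

theorem actK_inv (A : Matrix (Fin (N + 1)) (Fin (N + 1)) k) (hA : A.det ≠ 0)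
    (hAi : A⁻¹.det ≠ 0) (u : KF k (Ix N d)) : actK A hA (actK A⁻¹ hAi u) = u := by
  obtain ⟨P, Q, hQ, rfl⟩ := IsFractionRing.div_surjective (A := SS k N d) u
  rw [div_eq_mul_inv, actK_div, actK_div, compT_inv' A hA, compT_inv' A hA]

/-- conjugated derivation -/
def cder (A : Matrix (Fin (N + 1)) (Fin (N + 1)) k) (hA : A.det ≠ 0) (hAi : A⁻¹.det ≠ 0)
    (h : ∀ u : KF k (Ix N d), actK A⁻¹ hAi (actK A hA u) = u) (p : Ix N d) :
    Derivation k (KF k (Ix N d)) (KF k (Ix N d)) where
  toFun u := actK A⁻¹ hAi (pd p (actK A hA u))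
  map_add' u v := by rw [map_add, map_add, map_add]
  map_smul' r u := by
    have h1 : ∀ (B : Matrix (Fin (N + 1)) (Fin (N + 1)) k) (hB : B.det ≠ 0)
        (v : KF k (Ix N d)), actK B hB (r • v) = r • actK B hB v := by
      intro B hB v
      rw [Algebra.smul_def, Algebra.smul_def, map_mul]
      congr 1
      have e1 : algebraMap k (KF k (Ix N d)) r = am k (Ix N d) (C r) :=
        IsScalarTower.algebraMap_apply k (SS k N d) (KF k (Ix N d)) r
      rw [e1, actK_am, algHom_C]
      rfl
    rw [h1, (pd p).map_smul, h1]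
    rfl
  map_one_eq_zero' := by
    change actK A⁻¹ hAi (pd p (actK A hA 1)) = 0
    rw [map_one, Derivation.map_one_eq_zero, map_zero]
  leibniz' u v := by
    change actK A⁻¹ hAi (pd p (actK A hA (u * v))) =
      u • actK A⁻¹ hAi (pd p (actK A hA v)) + v • actK A⁻¹ hAi (pd p (actK A hA u))
    rw [map_mul, (pd p).leibniz, map_add, smul_eq_mul, smul_eq_mul, map_mul, map_mul, h, h]
    rfl

theorem inv_det_ne {A : Matrix (Fin (N + 1)) (Fin (N + 1)) k} (hA : A.det ≠ 0) :
    A⁻¹.det ≠ 0 := by
  rw [Matrix.det_nonsing_inv, Ring.inverse_eq_inv']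
  exact inv_ne_zero hA

theorem actK_inv' (A : Matrix (Fin (N + 1)) (Fin (N + 1)) k) (hA : A.det ≠ 0)
    (hAi : A⁻¹.det ≠ 0) (u : KF k (Ix N d)) : actK A⁻¹ hAi (actK A hA u) = u := by
  obtain ⟨P, Q, hQ, rfl⟩ := IsFractionRing.div_surjective (A := SS k N d) u
  rw [div_eq_mul_inv, actK_div, actK_div, compT_inv A hA, compT_inv A hA]

/-- chain rule for the linear action -/
theorem pd_actK (A : Matrix (Fin (N + 1)) (Fin (N + 1)) k) (hA : A.det ≠ 0) (p : Ix N d)
    (u : KF k (Ix N d)) : pd p (actK A hA u) =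
      ∑ q, am k (Ix N d) (C (actT A (Pi.single p 1 : Ix N d → k) q)) * actK A hA (pd q u) := by
  have hAi := inv_det_ne hA
  have h1 := derivation_eq_sum (cder A hA hAi (actK_inv' A hA hAi) p) u
  have h2 : ∀ v : KF k (Ix N d), cder A hA hAi (actK_inv' A hA hAi) p v =
      actK A⁻¹ hAi (pd p (actK A hA v)) := fun v => rfl
  simp_rw [h2] at h1
  have h3 := congrArg (actK A hA) h1
  rw [actK_inv A hA hAi, map_sum] at h3
  rw [h3]
  refine Finset.sum_congr rfl fun q _ => ?_
  rw [map_mul, actK_inv A hA hAi, actK_am, pd_am]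
  congr 2
  apply MvPolynomial.funext
  intro c
  rw [eval_C]
  have h4 := dd_compT A (X q : SS k N d) c (Pi.single p 1)
  unfold dd at h4
  rw [Finset.sum_eq_single p (by
    intro b _ hb
    simp [hb]) (by simp), Finset.sum_eq_single q (by
    intro b _ hb
    rw [pderiv_X_of_ne (Ne.symm hb)]
    simp) (by simp)] at h4
  simpa using h4

/-- transition matrix -/
def jm {f : Ix N d → k} {e : GG N → Ix N d} (u : Comp e → Rf f) :
    Matrix (Comp e) (Comp e) (Rf f) := jac u (fun b : Comp e => (b : Ix N d))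

theorem jm_unit {f : Ix N d → k} {e : GG N → Ix N d} (u : Comp e → Rf f)
    (h : ev f (jm u).det ≠ 0) : IsUnit (jm u).det := by
  by_contra hcon
  exact h ((mem_mm _).mp ((IsLocalRing.mem_maximalIdeal _).mpr (mem_nonunits_iff.mpr hcon)))

/-- coefficients of the differential of `x` with respect to the differentials of the `u b` -/
def vb {f : Ix N d → k} {e : GG N → Ix N d} (u : Comp e → Rf f) (x : Rf f) (b : Comp e) : Rf f :=
  ∑ q : Comp e, gr x (q : Ix N d) * (jm u)⁻¹ q b

theorem vb_spec_comp {f : Ix N d → k} {e : GG N → Ix N d} (u : Comp e → Rf f)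
    (h : ev f (jm u).det ≠ 0) (x : Rf f) (q : Comp e) :
    gr x (q : Ix N d) = ∑ b, vb u x b * gr (u b) (q : Ix N d) := by
  unfold vb
  simp_rw [Finset.sum_mul]
  rw [Finset.sum_comm]
  have h1 := Matrix.nonsing_inv_mul _ (jm_unit u h)
  have h2 : ∀ q' : Comp e, ∑ b, gr x (q' : Ix N d) * (jm u)⁻¹ q' b * gr (u b) (q : Ix N d) =
      gr x (q' : Ix N d) * (if q' = q then 1 else 0) := by
    intro q'
    have h3 := congrFun (congrFun h1 q') q
    rw [Matrix.mul_apply, Matrix.one_apply] at h3
    rw [← h3, Finset.mul_sum]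
    refine Finset.sum_congr rfl fun b _ => ?_
    rw [mul_assoc]
    rfl
  simp_rw [h2]
  simp

end alg

variable [IsAlgClosed k] [CharZero k]

/-- The differential of an invariant is a combination of those of the `u b`. -/
theorem vb_spec {f : Ix N d → k} {e : GG N → Ix N d} (he : Function.Injective e)
    (hm : (mnr e : SS k N d) ≠ 0) (u : Comp e → Rf f) (hu : ∀ b, u b ∈ OO f)
    (h : ev f (jm u).det ≠ 0) (x : Rf f) (hx : x ∈ OO f) (p : Ix N d) :
    gr x p = ∑ b, vb u x b * gr (u b) p := by
  have hw : (fun p => pd p (x : KF k (Ix N d)) - ∑ b, ((vb u x b : Rf f) : KF k (Ix N d)) *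
      pd p (u b : KF k (Ix N d))) = (0 : Ix N d → KF k (Ix N d)) := by
    refine eq_zero_of_comp (M := fun (i : GG N) p =>
      am k (Ix N d) (xiX (Matrix.single i.1 i.2 1) p)) he ?_ _ ?_ ?_
    · rw [← am_mnr]
      exact am_ne_zero hm
    · intro i
      simp_rw [mul_sub]
      rw [Finset.sum_sub_distrib, inv_pd hx, zero_sub, neg_eq_zero]
      simp_rw [Finset.mul_sum]
      rw [Finset.sum_comm]
      apply Finset.sum_eq_zero
      intro b _
      have h3 : ∀ p, am k (Ix N d) (xiX (Matrix.single i.1 i.2 1) p) *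
          (((vb u x b : Rf f) : KF k (Ix N d)) * pd p (u b : KF k (Ix N d))) =
          ((vb u x b : Rf f) : KF k (Ix N d)) *
            (am k (Ix N d) (xiX (Matrix.single i.1 i.2 1) p) * pd p (u b : KF k (Ix N d))) :=
        fun p => by ring
      simp_rw [h3]
      rw [← Finset.mul_sum, inv_pd (hu b), mul_zero]
    · intro q
      have h4 := congrArg (fun z : Rf f => (z : KF k (Ix N d))) (vb_spec_comp u h x q)
      have h5 : ((∑ b, vb u x b * gr (u b) (q : Ix N d) : Rf f) : KF k (Ix N d)) =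
          ∑ b, ((vb u x b : Rf f) : KF k (Ix N d)) * pd (q : Ix N d) (u b : KF k (Ix N d)) := by
        rw [AddSubmonoidClass.coe_finsetSum]
        rfl
      change ((gr x (q : Ix N d) : Rf f) : KF k (Ix N d)) = _ at h4
      rw [h5] at h4
      exact sub_eq_zero.mpr h4
  have h1 := congrFun hw p
  apply Subtype.ext
  rw [AddSubmonoidClass.coe_finsetSum]
  exact sub_eq_zero.mp h1

/-- Uniqueness of the coefficients. -/
theorem vb_unique {f : Ix N d → k} {e : GG N → Ix N d} (u : Comp e → Rf f)
    (h : ev f (jm u).det ≠ 0) (v w : Comp e → KF k (Ix N d))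
    (hvw : ∀ q : Comp e, ∑ b, v b * pd (q : Ix N d) (u b : KF k (Ix N d)) =
      ∑ b, w b * pd (q : Ix N d) (u b : KF k (Ix N d))) : v = w := by
  have h1 : (jacK (fun b => (u b : KF k (Ix N d))) (fun b : Comp e => (b : Ix N d))).det ≠ 0 := by
    intro h0
    apply h
    have h2 : (jm u).det = 0 := by
      apply Subtype.ext
      have h3 := jac_map u (fun b : Comp e => (b : Ix N d))
      rw [h0] at h3
      exact h3
    rw [h2, map_zero]
  have h2 : (jacK (fun b => (u b : KF k (Ix N d))) (fun b : Comp e => (b : Ix N d))).transpose.mulVec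
      (v - w) = 0 := by
    funext q
    have h3 := hvw q
    rw [← sub_eq_zero, ← Finset.sum_sub_distrib] at h3
    rw [Pi.zero_apply, ← h3]
    change ∑ b, pd (q : Ix N d) (u b : KF k (Ix N d)) * (v b - w b) = _
    exact Finset.sum_congr rfl fun b _ => by ring
  have h3 := Matrix.eq_zero_of_mulVec_eq_zero (by rw [Matrix.det_transpose]; exact h1) h2
  exact sub_eq_zero.mp h3

/-- The partial derivatives of invariants are invariant. -/
theorem vb_inv {f : Ix N d → k} {e : GG N → Ix N d} (he : Function.Injective e)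
    (hm : (mnr e : SS k N d) ≠ 0) (u : Comp e → Rf f) (hu : ∀ b, u b ∈ OO f)
    (h : ev f (jm u).det ≠ 0) (x : Rf f) (hx : x ∈ OO f) (b : Comp e) : vb u x b ∈ OO f := by
  intro A hA
  have h0 : ∀ p, pd p (x : KF k (Ix N d)) = ∑ b, ((vb u x b : Rf f) : KF k (Ix N d)) *
      pd p (u b : KF k (Ix N d)) := by
    intro p
    have h4 := congrArg (fun z : Rf f => (z : KF k (Ix N d))) (vb_spec he hm u hu h x hx p)
    have h5 : ((∑ b, vb u x b * gr (u b) p : Rf f) : KF k (Ix N d)) =
        ∑ b, ((vb u x b : Rf f) : KF k (Ix N d)) * pd p (u b : KF k (Ix N d)) := by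
      rw [AddSubmonoidClass.coe_finsetSum]
      rfl
    change ((gr x p : Rf f) : KF k (Ix N d)) = _ at h4
    rw [h5] at h4
    exact h4
  have h1 := vb_unique u h (fun b => actK A hA ((vb u x b : Rf f) : KF k (Ix N d)))
    (fun b => ((vb u x b : Rf f) : KF k (Ix N d))) (by
    intro p
    rw [← h0 p]
    have e1 := pd_actK A hA (p : Ix N d) (x : KF k (Ix N d))
    rw [hx A hA] at e1
    rw [e1]
    have e2 : ∀ q, am k (Ix N d) (C (actT A (Pi.single (p : Ix N d) 1 : Ix N d → k) q)) *
        actK A hA (pd q (x : KF k (Ix N d))) = ∑ b, actK A hA ((vb u x b : Rf f) : KF k (Ix N d)) *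
          (am k (Ix N d) (C (actT A (Pi.single (p : Ix N d) 1 : Ix N d → k) q)) *
            actK A hA (pd q (u b : KF k (Ix N d)))) := by
      intro q
      rw [h0 q, map_sum, Finset.mul_sum]
      refine Finset.sum_congr rfl fun b _ => ?_
      rw [map_mul]
      ring
    simp_rw [e2]
    rw [Finset.sum_comm]
    refine Finset.sum_congr rfl fun b _ => ?_
    rw [← Finset.mul_sum, ← pd_actK, hu b A hA])
  exact congrFun h1 b

end

end Pool.Agent.TH170.SL
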